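import Pool.Agent.Y517.NT.Lev

/-!
# Project NT: real analytic obstructions, with involutive null lines
-/

set_option autoImplicit false

open Set Filter Topology
open scoped Manifold ContDiff

noncomputable section

namespace Pool.Agent.Y517.NT.R

open Pool.Agent.Y501.SY Pool.Agent.Y340.NT

section

variable {d : ℕ} {X : Type} [TopologicalSpace X] [ChartedSpace (E d) X] [IsManifold (𝓡 d) ∞ X]
  [CompactSpace X] [T2Space X]

theorem null_manifold {J : End d X} (hJ : IsAlmostComplex J) {σ τ : Form d X 2}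
    (hpos : ∀ (x : X) (v : TangentSpace (𝓡 d) x), 0 ≤ σ x ![v, J x v])
    (hσa : ∀ x₀ : X, AnalyticOnNhd ℝ (pb (chartAt (E d) x₀).symm σ) (chartAt (E d) x₀).target)
    (hJa : ∀ x₀ : X, AnalyticOnNhd ℝ (inChart J x₀) (chartAt (E d) x₀).target)
    {C : Set X} {T : (x : X) → TangentSpace (𝓡 d) x → Prop} (hT : Obstruction J σ τ C T)
    (x₀ : X) (hx₀ : (C ∩ (chartAt (E d) x₀).source).Nonempty) :
    ∃ (V : Set (E d)) (r : ℕ) (g : Fin r → E d → ℝ), IsOpen V ∧
      V ⊆ (chartAt (E d) x₀).target ∧ (∀ i, AnalyticOnNhd ℝ (g i) V) ∧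
      (∀ y ∈ V, LinearIndependent ℝ fun i => fderiv ℝ (g i) y) ∧
      (∃ y ∈ V, (chartAt (E d) x₀).symm y ∈ C) ∧
      (∀ y ∈ V, (chartAt (E d) x₀).symm y ∈ C → ∀ i, g i y = 0) ∧
      (∀ y ∈ V, (∀ i, g i y = 0) → ∃ u : E d, u ≠ 0 ∧
        pb (chartAt (E d) x₀).symm σ y ![u, inChart J x₀ y u] = 0 ∧
        ∀ i, fderiv ℝ (g i) y u = 0 ∧ fderiv ℝ (g i) y (inChart J x₀ y u) = 0) ∧
      ((∀ (x : X) (v w : TangentSpace (𝓡 d) x), Null σ J x v → Null σ J x w →
          ∃ a b : ℝ, w = a • v + b • J x v) →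
        ∀ β : E d → E d →L[ℝ] ℝ, AnalyticOnNhd ℝ β V →
        (∀ y ∈ V, (∀ i, g i y = 0) → ∀ u,
          pb (chartAt (E d) x₀).symm σ y ![u, inChart J x₀ y u] = 0 → β y u = 0) →
        ∀ y ∈ V, (∀ i, g i y = 0) → ∀ u,
          pb (chartAt (E d) x₀).symm σ y ![u, inChart J x₀ y u] = 0 →
          fderiv ℝ β y u (inChart J x₀ y u) - fderiv ℝ β y (inChart J x₀ y u) u = 0) := by
  set c := chartAt (E d) x₀ with hc
  set TE : Set (E d) := {y | y ∈ c.target ∧ c.symm y ∈ C} with hTE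
  obtain ⟨q₀, hq₀C, hq₀s⟩ := hx₀
  obtain ⟨x, hxTE, r, g, V, hxV, hVU, hmax⟩ := Pool.Agent.Y614.NT.t_MAX (E d) c.target TE
    c.open_target (fun y hy => hy.1)
    ⟨c q₀, c.map_source hq₀s, by rw [c.left_inv hq₀s]; exact hq₀C⟩
  obtain ⟨hVo, hga, hgi, hg0, hgmax⟩ := hmax
  have hdata : ∀ y ∈ c.target, c.symm y ∈ c.source ∧ c (c.symm y) = y := fun y hy =>
    ⟨c.map_target hy, c.right_inv hy⟩
  have hpsd : ∀ y ∈ V, ∀ u, 0 ≤ pb c.symm σ y ![u, inChart J x₀ y u] := by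
    intro y hy u
    obtain ⟨h1, h2⟩ := hdata y (hVU hy)
    obtain ⟨e1, e2, e3, _⟩ := chart_data J σ x₀ h1 h2
    obtain ⟨v, rfl⟩ := e3 u
    rw [e1 v, e2 v]
    exact hpos _ v
  obtain ⟨N, A, hA, hA0⟩ := Pool.Agent.Y154.NT.t_FAM d r V (pb c.symm σ) (inChart J x₀) g
    (fun y hy => hσa x₀ y (hVU hy)) (fun y hy => hJa x₀ y (hVU hy)) hga hpsd
  obtain ⟨φ, hφ, hφ0⟩ := Pool.Agent.Y849.NT.t_KER (E d) (E d) (Fin N → ℝ) V A hA
  have htan : ∀ y ∈ TE ∩ V, ∃ u : E d, u ≠ 0 ∧ A y u = 0 := by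
    rintro y ⟨⟨hyt, hyC⟩, hyV⟩
    obtain ⟨h1, h2⟩ := hdata y hyt
    obtain ⟨e1, e2, e3, e4⟩ := chart_data J σ x₀ h1 h2
    obtain ⟨v, hv⟩ := (hT.base _).1 hyC
    obtain ⟨hv0, hvn⟩ := hT.null _ v hv
    refine ⟨Df x₀ _ v, e4 v hv0, (hA0 y hyV _).2 ⟨?_, fun i => ?_⟩⟩
    · rw [e1 v, e2 v]
      exact hvn
    · refine hT.tangent_chart x₀ hVo hVU
        (fun y hy => (hga i y hy).contDiffAt.contDiffWithinAt) ?_ h1 h2 hyV hv
      intro x' hx's hx'C hx'V
      exact hg0 _ ⟨⟨c.map_source hx's, by rw [c.left_inv hx's]; exact hx'C⟩, hx'V⟩ i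
  obtain ⟨V₁, R, hV₁o, hxV₁, hV₁V, hR, hRk⟩ := Pool.Agent.Y288.NT.t_PROJ (E d) (E d)
    (Fin N → ℝ) V A x hVo hxV hA
  have hmax₁ : IsMax TE V₁ g := ⟨hV₁o, fun i y hy => hga i y (hV₁V hy),
    fun y hy => hgi y (hV₁V hy), fun y hy => hg0 y ⟨hy.1, hV₁V hy.2⟩,
    fun W ψ hW hWV => hgmax W ψ hW (hWV.trans hV₁V)⟩
  obtain ⟨V', hV'o, hxV', hV'V₁, hman⟩ :=
    Pool.Agent.Y363.NT.t_MAN Pool.Agent.Y932.NT.Flat.t_FLAT (E d)
    V₁ TE r g hmax₁ x ⟨hxTE, hxV₁⟩
  have hV'V : V' ⊆ V := hV'V₁.trans hV₁V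
  have hexu : ∀ y ∈ V', (∀ i, g i y = 0) → ∃ u : E d, u ≠ 0 ∧ A y u = 0 := by
    intro y hy hgy
    have h1 := hman φ (fun y hy => hφ y (hV'V hy)) (by
      rintro z ⟨hz, hzV⟩
      exact (hφ0 z).2 (htan z ⟨hz, hV'V hzV⟩)) y hy hgy
    exact (hφ0 y).1 h1
  refine ⟨V', r, g, hV'o, hV'V.trans hVU, fun i y hy => hga i y (hV'V hy),
    fun y hy => hgi y (hV'V hy), ⟨x, hxV', hxTE.2⟩,
    fun y hy hyC => hg0 y ⟨⟨hVU (hV'V hy), hyC⟩, hV'V hy⟩, ?_, ?_⟩
  · intro y hy hgy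
    obtain ⟨u, hu, hAu⟩ := hexu y hy hgy
    obtain ⟨h2, h3⟩ := (hA0 y (hV'V hy) u).1 hAu
    exact ⟨u, hu, h2, h3⟩
  · intro H1 β hβ hβk
    -- null vectors in the chart
    have hKK : ∀ y ∈ V', ∀ u : E d, inChart J x₀ y (inChart J x₀ y u) = -u := by
      intro y hy u
      obtain ⟨h1, h2⟩ := hdata y (hVU (hV'V hy))
      obtain ⟨e1, e2, e3, _⟩ := chart_data J σ x₀ h1 h2
      obtain ⟨v, rfl⟩ := e3 u
      rw [e1 v, e1, hJ.sq]
      exact map_neg (Df x₀ (c.symm y)) v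
    have hrank : ∀ y ∈ V', ∀ u w : E d, u ≠ 0 → pb c.symm σ y ![u, inChart J x₀ y u] = 0 →
        pb c.symm σ y ![w, inChart J x₀ y w] = 0 →
        ∃ a b : ℝ, w = a • u + b • inChart J x₀ y u := by
      intro y hy u w hu hun hwn
      by_cases hw : w = 0
      · exact ⟨0, 0, by rw [hw]; simp⟩
      obtain ⟨h1, h2⟩ := hdata y (hVU (hV'V hy))
      obtain ⟨e1, e2, e3, _⟩ := chart_data J σ x₀ h1 h2
      obtain ⟨v, rfl⟩ := e3 u
      obtain ⟨v', rfl⟩ := e3 w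
      rw [e1, e2] at hun hwn
      obtain ⟨a, b, hab⟩ := H1 _ v v' ⟨fun h => hu (by rw [h]; exact map_zero (Df x₀ _)), hun⟩
        ⟨fun h => hw (by rw [h]; exact map_zero (Df x₀ _)), hwn⟩
      refine ⟨a, b, ?_⟩
      rw [e1, hab]
      have h5 := map_add (Df x₀ (c.symm y)) (a • v : E d) (b • J (c.symm y) v : E d)
      have h6 := map_smul (Df x₀ (c.symm y)) a (v : E d)
      have h7 := map_smul (Df x₀ (c.symm y)) b (J (c.symm y) v : E d)
      exact h5.trans (congrArg₂ (· + ·) h6 h7)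
    have hnJ : ∀ y ∈ V', ∀ u : E d, pb c.symm σ y ![u, inChart J x₀ y u] = 0 →
        pb c.symm σ y ![inChart J x₀ y u, inChart J x₀ y (inChart J x₀ y u)] = 0 := by
      intro y hy u hun
      obtain ⟨h1, h2⟩ := hdata y (hVU (hV'V hy))
      obtain ⟨e1, e2, e3, _⟩ := chart_data J σ x₀ h1 h2
      obtain ⟨v, rfl⟩ := e3 u
      rw [e1, e2] at hun
      rw [e1, e1, e2, null_J hJ]
      exact hun
    have hfin : ∀ y ∈ V', (∃ u : E d, u ≠ 0 ∧ A y u = 0) →
        Module.finrank ℝ (LinearMap.ker (A y).toLinearMap) = 2 := by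
      rintro y hy ⟨u, hu, hAu⟩
      obtain ⟨h2, h3⟩ := (hA0 y (hV'V hy) u).1 hAu
      refine finrank_ker (A y) (inChart J x₀ y) hu hAu ?_ (hKK y hy u) ?_
      · refine (hA0 y (hV'V hy) _).2 ⟨hnJ y hy u h2, fun i => ⟨(h3 i).2, ?_⟩⟩
        rw [hKK y hy, map_neg, (h3 i).1, neg_zero]
      · intro w hw
        exact hrank y hy u w hu h2 ((hA0 y (hV'V hy) w).1 hw).1
    have hfinx := hfin x hxV' (htan x ⟨hxTE, hxV⟩)
    have hrange : ∀ y ∈ V', (∃ u : E d, u ≠ 0 ∧ A y u = 0) →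
        LinearMap.range (R y).toLinearMap = LinearMap.ker (A y).toLinearMap := fun y hy h =>
      hRk y (hV'V₁ hy) ((hfin y hy h).trans hfinx.symm)
    -- the function
    have hF : ∀ w : E d, AnalyticOnNhd ℝ (fun y =>
        fderiv ℝ β y (R y w) (inChart J x₀ y (R y w)) -
          fderiv ℝ β y (inChart J x₀ y (R y w)) (R y w)) V' := by
      intro w y hy
      have a1 : ContDiffAt ℝ ω (fderiv ℝ β) y := (hβ.fderiv y hy).contDiffAt
      have a2 : ContDiffAt ℝ ω (fun y => R y w) y :=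
        ((hR y (hV'V₁ hy)).contDiffAt).clm_apply contDiffAt_const
      have a3 : ContDiffAt ℝ ω (inChart J x₀) y := (hJa x₀ y (hVU (hV'V hy))).contDiffAt
      have a4 : ContDiffAt ℝ ω (fun y => inChart J x₀ y (R y w)) y := a3.clm_apply a2
      exact (((a1.clm_apply a2).clm_apply a4).sub ((a1.clm_apply a4).clm_apply a2)).analyticAt
    have hβJ : ∀ y ∈ V', (∀ i, g i y = 0) → ∀ u,
        pb c.symm σ y ![u, inChart J x₀ y u] = 0 → β y (inChart J x₀ y u) = 0 :=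
      fun y hy hgy u hu => hβk y hy hgy _ (hnJ y hy u hu)
    -- on the obstruction
    have hon : ∀ y ∈ TE ∩ V', ∀ u : E d, pb c.symm σ y ![u, inChart J x₀ y u] = 0 →
        fderiv ℝ β y u (inChart J x₀ y u) - fderiv ℝ β y (inChart J x₀ y u) u = 0 := by
      rintro y ⟨⟨hyt, hyC⟩, hyV⟩ u hun
      obtain ⟨h1, h2⟩ := hdata y hyt
      obtain ⟨e1, e2, e3, e4⟩ := chart_data J σ x₀ h1 h2
      have hkills : ∀ x ∈ c.source, x ∈ C → c x ∈ V' → ∀ v : TangentSpace (𝓡 d) x, T x v →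
          β (c x) (Df x₀ x v) = 0 ∧ β (c x) (Df x₀ x (J x v)) = 0 := by
        intro x' hx's hx'C hx'V v hv
        obtain ⟨f1, f2, _, _⟩ := chart_data J σ x₀ hx's rfl
        have hg' : ∀ i, g i (c x') = 0 :=
          hg0 _ ⟨⟨c.map_source hx's, by rw [c.left_inv hx's]; exact hx'C⟩, hV'V hx'V⟩
        have hn : pb c.symm σ (c x') ![Df x₀ x' v, inChart J x₀ (c x') (Df x₀ x' v)] = 0 := by
          rw [f1 v, f2]
          exact (hT.null _ v hv).2
        refine ⟨hβk _ hx'V hg' _ hn, ?_⟩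
        rw [← f1 v]
        exact hβJ _ hx'V hg' _ hn
      obtain ⟨v, hv, hle⟩ := hT.levi_chart x₀ hV'o (hV'V.trans hVU)
        (fun y hy => (hβ y hy).contDiffAt.contDiffWithinAt) hkills h1 h2 hyV hyC
      obtain ⟨v', hv', hle'⟩ := hT.levi_chart x₀ (β := fun y => -β y) hV'o (hV'V.trans hVU)
        (fun y hy => (hβ y hy).contDiffAt.contDiffWithinAt.neg) (fun x' a b c' v hv => by
          obtain ⟨k1, k2⟩ := hkills x' a b c' v hv
          constructor
          · rw [ContinuousLinearMap.neg_apply, k1, neg_zero]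
          · rw [ContinuousLinearMap.neg_apply, k2, neg_zero]) h1 h2 hyV hyC
      have hneg : fderiv ℝ (fun y => -β y) y = -fderiv ℝ β y := fderiv_fun_neg
      rw [hneg] at hle'
      simp only [ContinuousLinearMap.neg_apply] at hle'
      set U := Df x₀ (c.symm y) v with hU
      have hUn : pb c.symm σ y ![U, inChart J x₀ y U] = 0 := by
        rw [hU, e1 v, e2]
        exact (hT.null _ v hv).2
      have hU0 : U ≠ 0 := e4 v (hT.null _ v hv).1
      have hU'n : pb c.symm σ y ![Df x₀ (c.symm y) v', inChart J x₀ y (Df x₀ (c.symm y) v')] =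
          0 := by
        rw [e1 v', e2]
        exact (hT.null _ v' hv').2
      have hquad : ∀ a b : ℝ, ∀ w : E d, w = a • U + b • inChart J x₀ y U →
          fderiv ℝ β y w (inChart J x₀ y w) - fderiv ℝ β y (inChart J x₀ y w) w =
            (a ^ 2 + b ^ 2) * (fderiv ℝ β y U (inChart J x₀ y U) -
              fderiv ℝ β y (inChart J x₀ y U) U) := by
        rintro a b w rfl
        have hK : inChart J x₀ y (a • U + b • inChart J x₀ y U) =
            a • inChart J x₀ y U - b • U := by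
          rw [map_add, map_smul, map_smul, hKK y hyV, smul_neg, sub_eq_add_neg]
        rw [hK]
        simp only [map_add, map_sub, map_smul, ContinuousLinearMap.add_apply,
          ContinuousLinearMap.sub_apply, ContinuousLinearMap.smul_apply, smul_eq_mul]
        ring
      obtain ⟨a, b, hab⟩ := hrank y hyV U _ hU0 hUn hU'n
      have hq' := hquad a b _ hab
      have hab0 : 0 < a ^ 2 + b ^ 2 := by
        have h5 : Df x₀ (c.symm y) v' ≠ 0 := e4 v' (hT.null _ v' hv').1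
        by_contra hneg'
        have ha : a = 0 := by nlinarith [sq_nonneg a, sq_nonneg b]
        have hb : b = 0 := by nlinarith [sq_nonneg a, sq_nonneg b]
        apply h5
        rw [hab, ha, hb]
        simp
      have hzero : fderiv ℝ β y U (inChart J x₀ y U) -
          fderiv ℝ β y (inChart J x₀ y U) U = 0 := by
        refine le_antisymm hle ?_
        by_contra hneg'
        push Not at hneg'
        have h6 := mul_neg_of_pos_of_neg hab0 hneg'
        rw [← hq'] at h6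
        linarith
      obtain ⟨a', b', hab'⟩ := hrank y hyV U u hU0 hUn hun
      rw [hquad a' b' u hab', hzero, mul_zero]
    intro y hy hgy u hun
    have hex := hexu y hy hgy
    -- u is in the kernel
    obtain ⟨u₁, hu₁, hAu₁⟩ := hex
    obtain ⟨h2, h3⟩ := (hA0 y (hV'V hy) u₁).1 hAu₁
    obtain ⟨a, b, hab⟩ := hrank y hy u₁ u hu₁ h2 hun
    have hAu : A y u = 0 := by
      refine (hA0 y (hV'V hy) u).2 ⟨hun, fun i => ?_⟩
      rw [hab, map_add, map_smul, map_smul, map_add, map_smul, map_smul, hKK y hy, map_add,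
        map_smul, map_smul, map_neg, (h3 i).1, (h3 i).2]
      simp
    have hmem : u ∈ LinearMap.range (R y).toLinearMap := by
      rw [hrange y hy (hexu y hy hgy)]
      exact hAu
    obtain ⟨w, hw⟩ := hmem
    have hw' : R y w = u := hw
    have h4 := hman _ (hF w) (by
      rintro z ⟨hz, hzV⟩
      have h5 : R z w ∈ LinearMap.ker (A z).toLinearMap := by
        rw [← hrange z hzV (htan z ⟨hz, hV'V hzV⟩)]
        exact ⟨w, rfl⟩
      exact hon z ⟨hz, hzV⟩ _ ((hA0 z (hV'V hzV) _).1 h5).1) y hy hgy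
    simp only [hw'] at h4
    exact h4

end

end Pool.Agent.Y517.NT.R
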