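import Pool.Agent.Y978.NT.HB

/-!
# Project NT: HB, stronger form (the proof is that of helper978 in `Y978/NT/HB`)
-/

set_option autoImplicit false

open Set Filter Topology MeasureTheory
open scoped ContDiff

noncomputable section

namespace Pool.Agent.Y517.NT

open Pool.Agent.Y978.NT

/-- HB: Hahn-Banach, Riesz and Krein-Milman. -/
def S_HB2 : Prop := ∀ (K : Type) [TopologicalSpace K] [CompactSpace K] [T2Space K]
  [MeasurableSpace K] [BorelSpace K] (E : Submodule ℝ C(K, ℝ)) (τ : C(K, ℝ)),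
  (∀ η ∈ E, ∃ z, τ z + η z ≤ 0) → ∃ μ : Measure K, IsProbabilityMeasure μ ∧
    (∀ η ∈ E, ∫ z, η z ∂μ = 0) ∧ ∫ z, τ z ∂μ ≤ 0 ∧
    ∀ F : C(K, ℝ), (∀ η ∈ E, ∫ z, (F * η) z ∂μ = 0) → ∃ c : ℝ, ∀ᵐ z ∂μ, F z = c

section

variable {K : Type} [TopologicalSpace K] [CompactSpace K]

/-- step (3): an extreme functional is multiplicative on multipliers -/
theorem mult2 {E : Submodule ℝ C(K, ℝ)} {L : C(K, ℝ) → ℝ} (hL : L ∈ MM E)
    (hext : ∀ L₁ ∈ MM E, ∀ L₂ ∈ MM E, ∀ t : ℝ, 0 < t → t < 1 →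
      (∀ φ, L φ = t * L₁ φ + (1 - t) * L₂ φ) → L₁ = L) (F : C(K, ℝ))
    (hF : ∀ η ∈ E, L (F * η) = 0) : ∃ c : ℝ, L ((F - c • 1) * (F - c • 1)) = 0 := by
  obtain ⟨k, hk⟩ : ∃ k : ℝ, k = 4 * (‖F‖ + 1) := ⟨_, rfl⟩
  have hn := norm_nonneg F
  have hk0 : 0 < k := by rw [hk]; positivity
  obtain ⟨G, hG⟩ : ∃ G : C(K, ℝ), G = (1 / 2 : ℝ) • 1 + k⁻¹ • F := ⟨_, rfl⟩
  have hGz : ∀ z, G z = 1 / 2 + k⁻¹ * F z := by
    intro z
    rw [hG]
    simp
  have hFz : ∀ z, |k⁻¹ * F z| ≤ 1 / 4 := by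
    intro z
    have h1 : |F z| ≤ ‖F‖ := F.norm_coe_le_norm z
    rw [abs_mul, abs_of_pos (inv_pos.2 hk0), inv_mul_le_iff₀ hk0, hk]
    linarith
  have hG1 : ∀ z, 1 / 4 ≤ G z := fun z => by
    have := (abs_le.1 (hFz z)).1
    rw [hGz]
    linarith
  have hG2 : ∀ z, G z ≤ 3 / 4 := fun z => by
    have := (abs_le.1 (hFz z)).2
    rw [hGz]
    linarith
  obtain ⟨t, ht⟩ : ∃ t : ℝ, t = L G := ⟨_, rfl⟩
  have ht1 : 1 / 4 ≤ t := by
    have h1 := MM_mono hL (φ := (1 / 4 : ℝ) • 1) (ψ := G) (ContinuousMap.le_def.2 fun z => by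
      rw [smul_one_apply]; exact hG1 z)
    rwa [MM_const hL, ← ht] at h1
  have ht2 : t ≤ 3 / 4 := by
    have h1 := MM_mono hL (φ := G) (ψ := (3 / 4 : ℝ) • 1) (ContinuousMap.le_def.2 fun z => by
      rw [smul_one_apply]; exact hG2 z)
    rwa [MM_const hL, ← ht] at h1
  have hGE : ∀ η ∈ E, L (G * η) = 0 := by
    intro η hη
    have h1 : G * η = (1 / 2 : ℝ) • η + k⁻¹ • (F * η) := by
      rw [hG, add_mul, smul_mul_assoc, one_mul, smul_mul_assoc]
    rw [h1, hL.1, hL.2.1, hL.2.1, hL.2.2.2.2 η hη, hF η hη, mul_zero, mul_zero, add_zero]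
  have m1 : (fun φ => L (G * φ) / t) ∈ MM E := by
    refine ⟨?_, ?_, ?_, ?_, ?_⟩
    · intro φ ψ
      simp only [mul_add, hL.1, add_div]
    · intro c φ
      simp only [mul_smul_comm, hL.2.1, mul_div_assoc]
    · intro φ hφ
      refine div_nonneg (hL.2.2.1 _ fun z => ?_) (by linarith)
      exact mul_nonneg (by have := hG1 z; linarith) (hφ z)
    · simp only [mul_one]
      rw [← ht]
      exact div_self (by linarith)
    · intro η hη
      simp only [hGE η hη, zero_div]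
  have m2 : (fun φ => L ((1 - G) * φ) / (1 - t)) ∈ MM E := by
    refine ⟨?_, ?_, ?_, ?_, ?_⟩
    · intro φ ψ
      simp only [mul_add, hL.1, add_div]
    · intro c φ
      simp only [mul_smul_comm, hL.2.1, mul_div_assoc]
    · intro φ hφ
      refine div_nonneg (hL.2.2.1 _ fun z => ?_) (by linarith)
      exact mul_nonneg (by
        have := hG2 z
        show 0 ≤ 1 - G z
        linarith) (hφ z)
    · simp only [mul_one]
      rw [MM_sub hL, ← ht, hL.2.2.2.1]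
      exact div_self (by linarith)
    · intro η hη
      have h1 : L ((1 - G) * η) = 0 := by
        rw [sub_mul, one_mul, MM_sub hL, hL.2.2.2.2 _ hη, hGE η hη, sub_zero]
      simp only [h1, zero_div]
  have hkey := hext _ m1 _ m2 t (by linarith) (by linarith) (by
    intro φ
    have h1 : t ≠ 0 := by linarith
    have h2 : 1 - t ≠ 0 := by linarith
    rw [mul_div_cancel₀ _ h1, mul_div_cancel₀ _ h2, sub_mul, one_mul, MM_sub hL]
    ring)
  have hm : ∀ φ, L (G * φ) = t * L φ := by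
    intro φ
    have h1 : L (G * φ) / t = L φ := congrFun hkey φ
    have h2 : t ≠ 0 := by linarith
    rw [div_eq_iff h2] at h1
    rw [h1]
    ring
  have hFe : F - (k * (t - 1 / 2)) • 1 = k • (G - t • 1) := by
    ext z
    have h1 : (k • (G - t • (1 : C(K, ℝ)))) z = k * (G z - t) := by simp
    have h2 : (F - (k * (t - 1 / 2)) • (1 : C(K, ℝ))) z = F z - k * (t - 1 / 2) := by simp
    rw [h1, h2, hGz]
    field_simp
    ring
  refine ⟨k * (t - 1 / 2), ?_⟩
  rw [hFe, smul_mul_smul_comm, hL.2.1]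
  have h3 : (G - t • (1 : C(K, ℝ))) * (G - t • 1) = G * (G - t • 1) - t • (G - t • 1) := by
    rw [sub_mul, smul_mul_assoc, one_mul]
  rw [h3, MM_sub hL, hm, hL.2.1, sub_self, mul_zero]

end

theorem t_HB2 : S_HB2 := by
  intro K _ _ _ _ _ E τ h
  have hK : Nonempty K := by
    obtain ⟨z, _⟩ := h 0 E.zero_mem
    exact ⟨z⟩
  obtain ⟨L, hL, hLτ, hext⟩ := exists_extreme E τ (exists_state E τ h)
  obtain ⟨μ, hμ, hint⟩ := measure_of hL
  refine ⟨μ, hμ, fun η hη => by rw [hint, hL.2.2.2.2 η hη], by rw [hint]; exact hLτ, ?_⟩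
  intro F hF
  obtain ⟨c, hc⟩ := mult2 hL hext F (fun η hη => by
    rw [← hint]
    exact hF η hη)
  refine ⟨c, ?_⟩
  rw [← hint] at hc
  have h0 : 0 ≤ fun z => ((F - c • (1 : C(K, ℝ))) * (F - c • 1)) z := by
    intro z
    exact mul_self_nonneg ((F - c • (1 : C(K, ℝ))) z)
  have hi : Integrable (fun z => ((F - c • (1 : C(K, ℝ))) * (F - c • 1)) z) μ :=
    (map_continuous _).integrable_of_hasCompactSupport (HasCompactSupport.of_compactSpace _)
  rw [integral_eq_zero_iff_of_nonneg h0 hi] at hc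
  filter_upwards [hc] with z hz
  have h1 : (F z - c) * (F z - c) = 0 := by
    have h2 : ((F - c • (1 : C(K, ℝ))) * (F - c • 1)) z = (F z - c) * (F z - c) := by simp
    rw [← h2]
    exact hz
  have h2 : F z - c = 0 := by simpa using h1
  linarith

end Pool.Agent.Y517.NT
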