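import Pool.Agent.Y517.NT.Sys2
import Pool.Agent.Y517.NT.HB2
import Pool.Agent.Y686.NT.Abs

/-!
# Project NT: the support of an obstruction (adapted from `Y686/NT/Abs` of helper686)
-/

set_option autoImplicit false

open Set Filter Topology MeasureTheory
open scoped ContDiff

noncomputable section

namespace Pool.Agent.Y517.NT

open Pool.Agent.Y686.NT

variable {X K : Type} [TopologicalSpace X] [TopologicalSpace K]

/-- restriction to a subset -/
def Sys.restr (s : Sys X K) (T : Set K) : Sys X T where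
  p z := s.p z
  S := s.S
  D f z := s.D f z
  D' f z := s.D' f z
  p_cont := s.p_cont.comp continuous_subtype_val
  S_cont := s.S_cont
  D_cont f hf := (s.D_cont f hf).comp continuous_subtype_val
  D'_cont f hf := (s.D'_cont f hf).comp continuous_subtype_val
  const := s.const
  comp := s.comp
  D_comp F hF f hf g hg z := s.D_comp F hF f hf g hg z
  D'_comp F hF f hf g hg z := s.D'_comp F hF f hf g hg z
  sep := s.sep
  rot g hg := by
    obtain ⟨n, b, h, h1, h2, h3⟩ := s.rot g hg
    exact ⟨n, b, h, h1, h2, fun z => h3 z⟩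
  span := by
    obtain ⟨n, h, h1, h2⟩ := s.span
    exact ⟨n, h, h1, fun z => h2 z⟩

theorem null_of_restr (s : Sys X K) {T : Set K} (hT : IsClosed T) {N : Set T}
    (hN : (s.restr T).Neg N) [MeasurableSpace K] [BorelSpace K] (μ : Measure K)
    [IsFiniteMeasure μ] (hμ : s.Cl μ) (hμT : ∀ᵐ z ∂μ, z ∈ T) :
    μ (Subtype.val '' N) = 0 := by
  have hTm : MeasurableSet T := hT.measurableSet
  have he : MeasurableEmbedding (Subtype.val : T → K) := MeasurableEmbedding.subtype_coe hTm
  have hfin : IsFiniteMeasure (μ.comap (Subtype.val : T → K)) := by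
    constructor
    rw [he.comap_apply]
    exact measure_lt_top _ _
  have hr : μ.restrict T = μ := Measure.restrict_eq_self_of_ae_mem hμT
  have h1 := hN _ (μ.comap (Subtype.val : T → K)) (by
    intro f hf g hg
    have h2 : ∫ z : T, s.br f g z ∂(μ.comap (Subtype.val : T → K)) =
        ∫ z in T, s.br f g z ∂μ := integral_subtype_comap hTm _
    rw [hr, hμ f hf g hg] at h2
    exact h2)
  rwa [he.comap_apply] at h1

/-- If no exact form makes `τ` positive there is a closed set `T` of null lines with the following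
properties. -/
theorem dich2 [CompactSpace X]
    [T2Space X] [SecondCountableTopology X] [CompactSpace K] [T2Space K]
    [SecondCountableTopology K] (s : Sys X K) (τ : C(K, ℝ))
    (hcon : ¬ ∃ η : K → ℝ, s.Ex η ∧ ∀ z, 0 < τ z + η z) :
    ∃ T : Set K, IsClosed T ∧ T.Nonempty ∧
      (∀ F ∈ s.S, (∀ z ∈ T, s.D F z = 0 ∧ s.D' F z = 0) →
        ∀ z ∈ T, ∀ z' ∈ T, F (s.p z) = F (s.p z')) ∧
      (∀ (N : Set T) (O : Set K), (s.restr T).Neg N → IsOpen O → (T ∩ O).Nonempty →
        ∃ z : T, ↑z ∈ O ∧ z ∉ N) ∧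
      (∀ (η : K → ℝ) (N : Set T), s.Ex η → (s.restr T).Neg N →
        (∀ z : T, z ∉ N → 0 ≤ τ z + η z) → ∀ z : T, τ z + η z = 0) ∧
      ∀ (n : ℕ) (f g : Fin n → X → ℝ) (φ : X → ℝ) (N : Set T), (∀ i, f i ∈ s.S) →
        (∀ i, g i ∈ s.S) → φ ∈ s.S → (s.restr T).Neg N →
        (∀ z : T, φ (s.p z) ≠ 0 → ∑ i, f i (s.p z) * s.D (g i) z = 0 ∧
          ∑ i, f i (s.p z) * s.D' (g i) z = 0) →
        (∀ z : T, φ (s.p z) ≠ 0 → z ∉ N → 0 ≤ ∑ i, s.br (f i) (g i) z) →
        ∀ z : T, φ (s.p z) ≠ 0 → ∑ i, s.br (f i) (g i) z = 0 := by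
  let _ : MeasurableSpace K := borel K
  have _ : BorelSpace K := ⟨rfl⟩
  push Not at hcon
  obtain ⟨μ, hμ, hμE, hμτ, hμF⟩ := t_HB2 K (EE s) τ (fun η hη => hcon η hη)
  have hint : ∀ f : K → ℝ, Continuous f → Integrable f μ := fun f hf =>
    hf.integrable_of_hasCompactSupport (HasCompactSupport.of_compactSpace f)
  have hCl : s.Cl μ := by
    intro f hf g hg
    have h1 : (⟨s.br f g, br_cont s hf hg⟩ : C(K, ℝ)) ∈ EE s := by
      refine ⟨1, fun _ => f, fun _ => g, fun _ => hf, fun _ => hg, fun z => ?_⟩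
      simp
    exact hμE _ h1
  -- the support
  have hsupp : ∀ᵐ z ∂μ, z ∈ μ.support := Measure.support_mem_ae
  have hcl : IsClosed μ.support := Measure.isClosed_support
  have hnull : ∀ {N : Set μ.support}, (s.restr μ.support).Neg N →
      ∀ᵐ z ∂μ, ∀ hz : z ∈ μ.support, (⟨z, hz⟩ : μ.support) ∉ N := by
    intro N hN
    have h1 := null_of_restr s hcl hN μ hCl hsupp
    rw [ae_iff]
    refine measure_mono_null ?_ h1
    intro z hz
    simp only [not_forall, not_not] at hz
    obtain ⟨hz1, hz2⟩ := hz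
    exact ⟨_, hz2, rfl⟩
  -- continuous functions vanishing almost everywhere vanish on the support
  have hzero : ∀ h : K → ℝ, Continuous h → (∀ᵐ z ∂μ, h z = 0) → ∀ z ∈ μ.support, h z = 0 := by
    intro h hh hae z hz
    by_contra hne
    have h1 := (Measure.mem_support_iff_forall z).1 hz _
      ((isOpen_ne_fun hh continuous_const).mem_nhds hne)
    exact h1.ne' (ae_iff.1 hae)
  refine ⟨μ.support, hcl, ?_, ?_, ?_, ?_, ?_⟩
  · exact hsupp.exists
  · intro F hF hDF z hz z' hz'
    obtain ⟨c, hc⟩ := hμF ⟨fun z => F (s.p z), (s.S_cont F hF).comp s.p_cont⟩ (by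
      rintro η ⟨n, f, g, hf, hg, he⟩
      have hFf : ∀ i, (fun x => F x * f i x) ∈ s.S := fun i => mul_mem s hF (hf i)
      have hbr : ∀ z, ∀ i, s.br (fun x => F x * f i x) (g i) z =
          F (s.p z) * s.br (f i) (g i) z +
            f i (s.p z) * (s.D F z * s.D' (g i) z - s.D' F z * s.D (g i) z) := by
        intro z i
        have h2 := s.D_comp (fun q => q.1 * q.2) (by fun_prop) F hF (f i) (hf i) z
        have h3 := s.D'_comp (fun q => q.1 * q.2) (by fun_prop) F hF (f i) (hf i) z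
        rw [fderiv_mul'] at h2 h3
        unfold Sys.br
        simp only at h2 h3
        rw [h2, h3]
        ring
      have h1 : ∫ z, ∑ i, s.br (fun x => F x * f i x) (g i) z ∂μ = 0 := by
        rw [integral_finsetSum]
        · exact Finset.sum_eq_zero fun i _ => hCl _ (hFf i) _ (hg i)
        · exact fun i _ => hint _ (br_cont s (hFf i) (hg i))
      rw [← h1]
      refine integral_congr_ae ?_
      filter_upwards [hsupp] with z hz
      obtain ⟨h2, h3⟩ := hDF z hz
      change F (s.p z) * η z = _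
      rw [he z, Finset.mul_sum]
      refine Finset.sum_congr rfl fun i _ => ?_
      rw [hbr z i, h2, h3]
      ring)
    have h1 := hzero (fun z => F (s.p z) - c)
      (((s.S_cont F hF).comp s.p_cont).sub continuous_const)
      (hc.mono fun z hz => sub_eq_zero.2 hz)
    have h2 := h1 z hz
    have h3 := h1 z' hz'
    linarith
  · rintro N O hN hO ⟨z, hz, hzO⟩
    by_contra hno
    push Not at hno
    have h1 := (Measure.mem_support_iff_forall z).1 hz _ (hO.mem_nhds hzO)
    refine h1.ne' ?_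
    have h2 : ∀ᵐ z ∂μ, z ∉ O := by
      filter_upwards [hsupp, hnull hN] with w hw1 hw2 hwO
      exact hw2 hw1 (hno ⟨w, hw1⟩ hwO)
    rw [ae_iff] at h2
    simpa using h2
  · intro η N hη hN hpos z
    have hc : Continuous fun z => τ z + η z := τ.continuous.add (Ex.cont s hη)
    have h1 : 0 ≤ᵐ[μ] fun z => τ z + η z := by
      filter_upwards [hsupp, hnull hN] with w hw1 hw2
      exact hpos ⟨w, hw1⟩ (hw2 hw1)
    have h2 : ∫ z, (τ z + η z) ∂μ = (∫ z, τ z ∂μ) + ∫ z, η z ∂μ :=
      integral_add (hint _ τ.continuous) (hint _ (Ex.cont s hη))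
    have h3 : ∫ z, η z ∂μ = 0 := hμE ⟨η, Ex.cont s hη⟩ hη
    have h4 : ∫ z, (τ z + η z) ∂μ = 0 := by
      refine le_antisymm ?_ (integral_nonneg_of_ae h1)
      rw [h2, h3, add_zero]
      exact hμτ
    have h5 := (integral_eq_zero_iff_of_nonneg_ae h1 (hint _ hc)).1 h4
    exact hzero _ hc h5 z z.2
  · intro n f g φ N hf hg hφ hN hB hE z₀ hφz₀
    have hF : ContDiff ℝ ∞ (fun q : ℝ × ℝ => q.1 ^ 2 * q.2) := by fun_prop
    have hF' : ∀ q h : ℝ × ℝ, fderiv ℝ (fun q : ℝ × ℝ => q.1 ^ 2 * q.2) q h =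
        2 * q.1 * h.1 * q.2 + q.1 ^ 2 * h.2 := by
      intro q h
      have h1 : HasFDerivAt (fun q : ℝ × ℝ => q.1 ^ 2 * q.2)
          ((q.1 ^ 2) • (ContinuousLinearMap.snd ℝ ℝ ℝ) +
            q.2 • ((2 * q.1 ^ 1) • (ContinuousLinearMap.fst ℝ ℝ ℝ))) q := by
        have h2 := (hasFDerivAt_fst (𝕜 := ℝ) (p := q)).pow 2
        have h3 : HasFDerivAt (fun q : ℝ × ℝ => q.1 ^ 2 * q.2) _ q :=
          h2.mul (hasFDerivAt_snd (𝕜 := ℝ) (p := q))
        refine h3.congr_fderiv ?_
        ext <;> simp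
      rw [h1.fderiv]
      simp
      ring
    have hfS : ∀ i, (fun x => φ x ^ 2 * f i x) ∈ s.S := fun i => s.comp _ hF φ hφ (f i) (hf i)
    have hbr : ∀ z, ∑ i, s.br (fun x => φ x ^ 2 * f i x) (g i) z =
        φ (s.p z) ^ 2 * ∑ i, s.br (f i) (g i) z + 2 * φ (s.p z) *
          (s.D φ z * (∑ i, f i (s.p z) * s.D' (g i) z) -
            s.D' φ z * ∑ i, f i (s.p z) * s.D (g i) z) := by
      intro z
      have h1 : ∀ i, s.br (fun x => φ x ^ 2 * f i x) (g i) z =
          φ (s.p z) ^ 2 * s.br (f i) (g i) z + 2 * φ (s.p z) *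
            (s.D φ z * (f i (s.p z) * s.D' (g i) z) -
              s.D' φ z * (f i (s.p z) * s.D (g i) z)) := by
        intro i
        have h2 := s.D_comp _ hF φ hφ (f i) (hf i) z
        have h3 := s.D'_comp _ hF φ hφ (f i) (hf i) z
        rw [hF'] at h2 h3
        unfold Sys.br
        rw [h2, h3]
        ring
      simp only [h1]
      rw [Finset.sum_add_distrib, ← Finset.mul_sum, ← Finset.mul_sum, Finset.sum_sub_distrib,
        ← Finset.mul_sum, ← Finset.mul_sum]
    have hEc : Continuous fun z => ∑ i, s.br (f i) (g i) z :=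
      continuous_finsetSum _ fun i _ => br_cont s (hf i) (hg i)
    have hφc : Continuous fun z => φ (s.p z) ^ 2 :=
      ((s.S_cont φ hφ).comp s.p_cont).pow 2
    have hprod : Continuous fun z => φ (s.p z) ^ 2 * ∑ i, s.br (f i) (g i) z := hφc.mul hEc
    have hint0 : ∫ z, φ (s.p z) ^ 2 * ∑ i, s.br (f i) (g i) z ∂μ = 0 := by
      have h1 : ∫ z, ∑ i, s.br (fun x => φ x ^ 2 * f i x) (g i) z ∂μ = 0 := by
        rw [integral_finsetSum]
        · exact Finset.sum_eq_zero fun i _ => hCl _ (hfS i) _ (hg i)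
        · exact fun i _ => hint _ (br_cont s (hfS i) (hg i))
      rw [← h1]
      refine integral_congr_ae ?_
      filter_upwards [hsupp] with z hz
      rw [hbr z]
      by_cases h0 : φ (s.p z) = 0
      · rw [h0]; ring
      · obtain ⟨h2, h3⟩ := hB ⟨z, hz⟩ h0
        simp only at h2 h3
        rw [h2, h3]; ring
    have hnn : 0 ≤ᵐ[μ] fun z => φ (s.p z) ^ 2 * ∑ i, s.br (f i) (g i) z := by
      filter_upwards [hsupp, hnull hN] with z hz hzN
      by_cases h0 : φ (s.p z) = 0
      · simp [h0]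
      · exact mul_nonneg (sq_nonneg _) (hE ⟨z, hz⟩ h0 (hzN hz))
    have h1 := hzero _ hprod ((integral_eq_zero_iff_of_nonneg_ae hnn (hint _ hprod)).1 hint0)
      z₀ z₀.2
    exact (mul_eq_zero.1 h1).resolve_left (pow_ne_zero 2 hφz₀)

end Pool.Agent.Y517.NT
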