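import Pool.Agent.Y517.NT.Rem2
import Pool.Agent.Y517.NT.Dich2
import Pool.Agent.Y306.NT.PairT

/-!
# Project NT: the criteria
-/

set_option autoImplicit false

open Set Filter Topology MeasureTheory
open scoped Manifold ContDiff

noncomputable section

namespace Pool.Agent.Y517.NT.R

open Pool.Agent.Y501.SY

section defs

variable {d : ℕ} {X : Type} [TopologicalSpace X] [ChartedSpace (E d) X]

/-- `τ'` is cohomologous to `τ`. -/
def Coh (τ τ' : Form d X 2) : Prop := ∃ α : Form d X 1, IsSmooth α ∧ IsD α (τ' - τ)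

/-- For some `τ'` cohomologous to `τ` the forms `σ + ε τ'` are, for all small positive `ε`, smooth
closed forms taming `J`. -/
def Tamed (J : End d X) (σ τ : Form d X 2) : Prop :=
  ∃ τ' : Form d X 2, Coh τ τ' ∧ ∃ ε₀ : ℝ, 0 < ε₀ ∧ ∀ ε : ℝ, 0 < ε → ε < ε₀ →
    IsSmooth (σ + ε • τ') ∧ IsClosedForm (σ + ε • τ') ∧ ∀ x, TamesAt (σ + ε • τ') J x

/-- the nonzero null vectors of `σ` -/
def Null (σ : Form d X 2) (J : End d X) (x : X) (v : TangentSpace (𝓡 d) x) : Prop :=
  v ≠ 0 ∧ σ x ![v, J x v] = 0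

/-- All functions without differential on the complex lines of `T` take the same values at `x` and
at `z`. -/
def SameFibre (J : End d X) (T : (x : X) → TangentSpace (𝓡 d) x → Prop) (x z : X) : Prop :=
  ∀ F : X → ℝ, SmoothFun (d := d) F →
    (∀ y w, T y w → dd F y w = 0 ∧ dd F y (J y w) = 0) → F x = F z

/-- An obstruction: a nonempty closed set `C`, and over each of its points a nonempty set `T` of
nonzero null vectors `v` of `σ`, with the following properties. -/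
structure Obstruction (J : End d X) (σ τ : Form d X 2) (C : Set X)
    (T : (x : X) → TangentSpace (𝓡 d) x → Prop) : Prop where
  closed : IsClosed C
  nonempty : C.Nonempty
  base : ∀ x, x ∈ C ↔ ∃ v, T x v
  null : ∀ x v, T x v → Null σ J x v
  /-- all functions without differential on `T` are constant on `C` -/
  const : ∀ x ∈ C, ∀ z ∈ C, SameFibre J T x z
  /-- `v` and `J v` are tangent to `C` -/
  tangent : ∀ x v, T x v → v ∈ ZT (d := d) C x ∧ J x v ∈ ZT (d := d) C x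
  /-- the part of `T` over an open set meeting `C` is not contained in a removable set -/
  thick : ∀ (U : Set X) (W : (x : X) → TangentSpace (𝓡 d) x → Prop), IsOpen U →
    (C ∩ U).Nonempty → Removable J T W → ∃ x v, x ∈ U ∧ T x v ∧ ¬ W x v
  /-- two-forms which vanish on `(v, J v)` for all `v` in `T` outside of a removable set vanish on
  `(v, J v)` for all `v` in `T` -/
  zero : ∀ (U : Set X) (η : Form d X 2) (W : (x : X) → TangentSpace (𝓡 d) x → Prop),
    IsOpen U → IsSmooth η → Removable J T W →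
    (∀ x v, x ∈ U → T x v → ¬ W x v → η x ![v, J x v] = 0) →
    ∀ x v, x ∈ U → T x v → η x ![v, J x v] = 0
  /-- a form cohomologous to `τ` which is nonnegative on `T` vanishes on `T` -/
  nonneg : ∀ (τ' : Form d X 2) (W : (x : X) → TangentSpace (𝓡 d) x → Prop), Coh τ τ' →
    Removable J T W → (∀ x v, T x v → ¬ W x v → 0 ≤ τ' x ![v, J x v]) →
    ∀ x v, T x v → τ' x ![v, J x v] = 0
  /-- the exterior derivative of a one-form which vanishes on the complex lines in `T` vanishes on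
  these lines if it is nonnegative on them -/
  levi : ∀ (U : Set X) (β : Form d X 1) (η : Form d X 2)
    (W : (x : X) → TangentSpace (𝓡 d) x → Prop), IsOpen U → IsSmooth β → IsD β η →
    Removable J T W →
    (∀ x v, x ∈ U → T x v → β x ![v] = 0 ∧ β x ![J x v] = 0) →
    (∀ x v, x ∈ U → T x v → ¬ W x v → 0 ≤ η x ![v, J x v]) →
    ∀ x v, x ∈ U → T x v → η x ![v, J x v] = 0
  /-- it is not positive on all lines over a point -/
  leviAt : ∀ (U : Set X) (β : Form d X 1) (η : Form d X 2), IsOpen U → IsSmooth β →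
    IsD β η → (∀ x v, x ∈ U → T x v → β x ![v] = 0 ∧ β x ![J x v] = 0) →
    ∀ x ∈ C ∩ U, ∃ v, T x v ∧ η x ![v, J x v] ≤ 0

/-- Sets `T` of vectors which can be treated by the following rules. -/
inductive Good (J : End d X) (τ : Form d X 2) :
    ((x : X) → TangentSpace (𝓡 d) x → Prop) → Prop
  | pos (T W : (x : X) → TangentSpace (𝓡 d) x → Prop) (τ' : Form d X 2) : Coh τ τ' →
      Removable J T W → (∀ x v, T x v → ¬ W x v → 0 < τ' x ![v, J x v]) → Good J τ T
  | nonneg (T W : (x : X) → TangentSpace (𝓡 d) x → Prop) (τ' : Form d X 2) : Coh τ τ' →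
      Removable J T W → (∀ x v, T x v → ¬ W x v → 0 ≤ τ' x ![v, J x v]) →
      Good J τ (fun x v => T x v ∧ τ' x ![v, J x v] = 0) → Good J τ T
  | fibre (T : (x : X) → TangentSpace (𝓡 d) x → Prop) :
      (∀ z : X, Good J τ (fun x v => T x v ∧ SameFibre J T x z)) → Good J τ T
  | map (T : (x : X) → TangentSpace (𝓡 d) x → Prop) (m : ℕ) (Y : Type) [TopologicalSpace Y]
      [ChartedSpace (E m) Y] [IsManifold (𝓡 m) ∞ Y] [T2Space Y] (f : X → Y) :
      ContMDiff (𝓡 d) (𝓡 m) ∞ f →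
      (∀ x v, T x v → mfderiv (𝓡 d) (𝓡 m) f x v = 0 ∧ mfderiv (𝓡 d) (𝓡 m) f x (J x v) = 0) →
      (∀ (y : Y) (z : X), Good J τ fun x v => T x v ∧
        x ∈ connectedComponentIn {x | f x = y ∧ ∃ w, T x w} z) → Good J τ T
  | tangent (T : (x : X) → TangentSpace (𝓡 d) x → Prop) :
      Good J τ (fun x v => T x v ∧ v ∈ ZT (d := d) {y | ∃ w, T y w} x ∧
        J x v ∈ ZT (d := d) {y | ∃ w, T y w} x) → Good J τ T
  | levi (T W : (x : X) → TangentSpace (𝓡 d) x → Prop) (U : Set X) (β : Form d X 1)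
      (η : Form d X 2) : IsOpen U → IsSmooth β → IsD β η → Removable J T W →
      (∀ x v, x ∈ U → T x v → β x ![v] = 0 ∧ β x ![J x v] = 0) →
      (∀ x v, x ∈ U → T x v → ¬ W x v → 0 ≤ η x ![v, J x v]) →
      Good J τ (fun x v => T x v ∧ (x ∈ U → η x ![v, J x v] = 0)) → Good J τ T
  | zero (T W : (x : X) → TangentSpace (𝓡 d) x → Prop) (U : Set X) (η : Form d X 2) :
      IsOpen U → IsSmooth η → Removable J T W →
      (∀ x v, x ∈ U → T x v → ¬ W x v → η x ![v, J x v] = 0) →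
      Good J τ (fun x v => T x v ∧ (x ∈ U → η x ![v, J x v] = 0)) → Good J τ T
  | remove (T W : (x : X) → TangentSpace (𝓡 d) x → Prop) (U : Set X) :
      IsOpen U → Removable J T W → (∀ x v, x ∈ U → T x v → W x v) →
      Good J τ (fun x v => T x v ∧ x ∉ U) → Good J τ T
  | mono (T T' : (x : X) → TangentSpace (𝓡 d) x → Prop) : (∀ x v, T' x v → T x v) →
      Good J τ T → Good J τ T'

end defs

section

variable {d : ℕ} {X : Type} [TopologicalSpace X] [ChartedSpace (E d) X] [IsManifold (𝓡 d) ∞ X]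
  [CompactSpace X] [T2Space X]

theorem tamed_of_pos {J : End d X} (hJ : IsAlmostComplex J) {σ τ : Form d X 2}
    (hσ : IsSmooth σ) (hσc : IsClosedForm σ) (hτ : IsSmooth τ) (hτc : IsClosedForm τ)
    (hpos : ∀ (x : X) (v : TangentSpace (𝓡 d) x), 0 ≤ σ x ![v, J x v])
    {α : Form d X 1} {η : Form d X 2} (hpair : Pair α η)
    (h : ∀ (x : X) (v : TangentSpace (𝓡 d) x), v ≠ 0 → σ x ![v, J x v] = 0 →
        0 < (τ + η) x ![v, J x v]) : Tamed J σ τ := by
  obtain ⟨hα, hηs, hαη, hηc⟩ := hpair.props Pool.Agent.Y484.SY.t_GEN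
  have hs : IsSmooth (τ + η) := hτ.add hηs
  have hcl : IsClosedForm (τ + η) := by
    have h1 := hτc.add hηc hτ hηs
    rwa [add_zero] at h1
  obtain ⟨ε₀, hε₀, ht⟩ := unif isCompact_univ
    (fun ε y => ∀ ε' : ℝ, 0 < ε' → ε' ≤ ε → TamesAt (σ + ε' • (τ + η)) J y)
    (fun ε ε' y hle hp ε'' h0 h1 => hp ε'' h0 (h1.trans hle))
    (fun x _ => Pool.Agent.Y455.SY.t_NULL d X J hJ σ (τ + η) hσ hs hpos x (h x))
  refine ⟨τ + η, ⟨α, hα, by rwa [add_sub_cancel_left]⟩, ε₀, hε₀, fun ε hε hεε₀ =>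
    ⟨hσ.add (hs.smul ε), ?_, fun x => ht x (mem_univ x) ε hε hεε₀.le⟩⟩
  have h1 := hσc.add (hcl.smul ε) hσ (hs.smul ε)
  have h2 : (0 : Form d X 3) + ε • (0 : Form d X 3) = 0 := by rw [smul_zero, add_zero]
  rw [h2] at h1
  exact h1

theorem pos_of_tamed {J : End d X} {σ τ' : Form d X 2} {ε₀ : ℝ} (hε₀ : 0 < ε₀)
    (h : ∀ ε : ℝ, 0 < ε → ε < ε₀ → ∀ x, TamesAt (σ + ε • τ') J x)
    (x : X) (v : TangentSpace (𝓡 d) x) (hv : Null σ J x v) :
    0 < τ' x ![v, J x v] := by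
  have h1 := h (ε₀ / 2) (half_pos hε₀) (half_lt_self hε₀) x v hv.1
  have h2 : (σ + (ε₀ / 2) • τ') x ![v, J x v] =
      σ x ![v, J x v] + (ε₀ / 2) * τ' x ![v, J x v] := rfl
  rw [h2, hv.2, zero_add] at h1
  exact (mul_pos_iff_of_pos_left (half_pos hε₀)).1 h1

theorem Pair.exists_sum {α : Form d X 1} {η : Form d X 2} (h : Pair α η) :
    ∃ (n : ℕ) (f g : Fin n → X → ℝ), (∀ i, SmoothFun (d := d) (f i)) ∧
      (∀ i, SmoothFun (d := d) (g i)) ∧ α = ∑ i, fdg (f i) (g i) ∧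
      η = ∑ i, dfdg (f i) (g i) := by
  induction h with
  | zero => exact ⟨0, fun i => i.elim0, fun i => i.elim0, fun i => i.elim0,
      fun i => i.elim0, by simp, by simp⟩
  | gen a b ha hb => exact ⟨1, fun _ => a, fun _ => b, fun _ => ha, fun _ => hb, by simp, by simp⟩
  | add α α' η η' _ _ ih ih' =>
    obtain ⟨n, a, b, ha, hb, h1, h2⟩ := ih
    obtain ⟨n', a', b', ha', hb', h1', h2'⟩ := ih'
    refine ⟨n + n', Fin.append a a', Fin.append b b', ?_, ?_, ?_, ?_⟩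
    · intro i
      refine Fin.addCases (fun i => ?_) (fun i => ?_) i
      · rw [Fin.append_left]; exact ha i
      · rw [Fin.append_right]; exact ha' i
    · intro i
      refine Fin.addCases (fun i => ?_) (fun i => ?_) i
      · rw [Fin.append_left]; exact hb i
      · rw [Fin.append_right]; exact hb' i
    · rw [Fin.sum_univ_add]
      simp only [Fin.append_left, Fin.append_right]
      rw [h1, h1']
    · rw [Fin.sum_univ_add]
      simp only [Fin.append_left, Fin.append_right]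
      rw [h2, h2']

theorem sum_fdg_apply {n : ℕ} (f g : Fin n → X → ℝ) (x : X) (v : TangentSpace (𝓡 d) x) :
    (∑ i, fdg (d := d) (f i) (g i)) x ![v] = ∑ i, f i x * dd (g i) x v := by
  rw [Finset.sum_apply, ContinuousAlternatingMap.sum_apply]
  exact Finset.sum_congr rfl fun i _ => fdg_apply (f i) (g i) x v

theorem sum_dfdg_apply {n : ℕ} (f g : Fin n → X → ℝ) (x : X) (v w : TangentSpace (𝓡 d) x) :
    (∑ i, dfdg (d := d) (f i) (g i)) x ![v, w] =
      ∑ i, (dd (f i) x v * dd (g i) x w - dd (f i) x w * dd (g i) x v) := by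
  rw [Finset.sum_apply, ContinuousAlternatingMap.sum_apply]
  exact Finset.sum_congr rfl fun i _ => dfdg_apply (f i) (g i) x v w

theorem exists_obstruction {J : End d X} (hJ : IsAlmostComplex J) {σ τ : Form d X 2}
    (hσ : IsSmooth σ) (hσc : IsClosedForm σ) (hτ : IsSmooth τ) (hτc : IsClosedForm τ)
    (hpos : ∀ (x : X) (v : TangentSpace (𝓡 d) x), 0 ≤ σ x ![v, J x v])
    (hnt : ¬ Tamed J σ τ) :
    ∃ (C : Set X) (T : (x : X) → TangentSpace (𝓡 d) x → Prop), Obstruction J σ τ C T := by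
  have _ : SecondCountableTopology X := ChartedSpace.secondCountable_of_sigmaCompact (E d) X
  obtain ⟨K, mK, cK, p, v, hp, hv, hnull, hc, hη, hsurj⟩ :=
    Pool.Agent.Y815.NT.t_KSP d X J hJ σ hσ
  have _ : SecondCountableTopology K := EMetric.secondCountable_of_sigmaCompact K
  set s := sysOf hJ p v hp hv hc with hs
  have hcon : ¬ ∃ η : K → ℝ, s.Ex η ∧ ∀ z, 0 <
      (⟨fun z => τ (p z) ![v z, J (p z) (v z)], hη τ hτ⟩ : C(K, ℝ)) z + η z := by
    rintro ⟨η, ⟨n, a, b, ha, hb, he⟩, hηpos⟩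
    apply hnt
    refine tamed_of_pos hJ hσ hσc hτ hτc hpos
      (Pair.sum Finset.univ (fun i _ => Pair.gen _ _ (ha i) (hb i))) ?_
    intro x w hw hw0
    obtain ⟨z, t, ht, hpz, hform⟩ := hsurj x w hw hw0
    rw [hform]
    refine mul_pos ht ?_
    have h1 := hηpos z
    have h2 : (∑ i, dfdg (d := d) (a i) (b i)) (p z) ![v z, J (p z) (v z)] = η z := by
      rw [he, sum_dfdg_apply]
      rfl
    have h3 : (τ + ∑ i, dfdg (d := d) (a i) (b i)) (p z) ![v z, J (p z) (v z)] =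
        τ (p z) ![v z, J (p z) (v z)] + η z := by
      rw [← h2]
      rfl
    rw [h3]
    exact h1
  obtain ⟨T, hTc, hTn, hTconst, hTthick, hTpos, hTlevi⟩ := dich2 s
    ⟨fun z => τ (p z) ![v z, J (p z) (v z)], hη τ hτ⟩ hcon
  have _ : CompactSpace T := isCompact_iff_compactSpace.1 hTc.isCompact
  set TT : (x : X) → TangentSpace (𝓡 d) x → Prop :=
    fun x u => ∃ z ∈ T, ∃ h : p z = x, h ▸ v z = u with hTT
  have hmem : ∀ z : T, TT (p z) (v z) := fun z => ⟨z, z.2, rfl, rfl⟩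
  have hneg : ∀ {W : (x : X) → TangentSpace (𝓡 d) x → Prop}, Removable J TT W →
      (s.restr T).Neg {z : T | W (p z) (v z)} := fun hW =>
    neg_of_removable hJ (fun z : T => p z) (fun z : T => v z)
      (hp.comp continuous_subtype_val) (fun z => hv z)
      (fun f hf => ⟨(hc f hf).1.comp continuous_subtype_val,
        (hc f hf).2.comp continuous_subtype_val⟩) hmem hW
  have htan : ∀ z ∈ T, ∀ g : X → ℝ, SmoothFun (d := d) g → (∀ x ∈ p '' T, g x = 0) →
      dd g (p z) (v z) = 0 ∧ dd g (p z) (J (p z) (v z)) = 0 := by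
    intro z hz g hg hgT
    by_contra hne
    have hO : IsOpen {w : K | dd g (p w) (v w) ≠ 0 ∨ dd g (p w) (J (p w) (v w)) ≠ 0} :=
      (isOpen_ne_fun (hc g hg).1 continuous_const).union
        (isOpen_ne_fun (hc g hg).2 continuous_const)
    obtain ⟨w, hwO, hwN⟩ := hTthick _ _ (hneg (Removable.slice {0} g (by simp) hg)) hO
      ⟨z, hz, by
        by_contra hno
        apply hne
        rw [mem_setOf_eq] at hno
        push Not at hno
        exact hno⟩
    exact hwN ⟨hgT _ ⟨w, w.2, rfl⟩, hwO⟩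
  have hlevi : ∀ (U : Set X) (β : Form d X 1) (η : Form d X 2) (N : Set T), IsOpen U →
      IsSmooth β → IsD β η → (s.restr T).Neg N →
      (∀ z : T, p z ∈ U → β (p z) ![v z] = 0 ∧ β (p z) ![J (p z) (v z)] = 0) →
      (∀ z : T, p z ∈ U → z ∉ N → 0 ≤ η (p z) ![v z, J (p z) (v z)]) →
      ∀ z : T, p z ∈ U → η (p z) ![v z, J (p z) (v z)] = 0 := by
    intro U β η N hU hβ hβη hN h1 h2 z hzU
    obtain ⟨n, a, b, ha, hb, rfl, rfl⟩ :=
      Pair.exists_sum (Pool.Agent.Y306.NT.t_PAIR d X β η hβ hβη)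
    obtain ⟨φ, hφU, hφ, _⟩ := hU.exists_contMDiff_support_eq (n := ⊤) (𝓡 d)
    have hφ' : ∀ x, φ x ≠ 0 ↔ x ∈ U := fun x => by rw [← hφU]; rfl
    have h3 := hTlevi n a b φ N ha hb hφ hN
      (fun w hwφ => by
        have h4 := h1 w ((hφ' _).1 hwφ)
        rw [sum_fdg_apply, sum_fdg_apply] at h4
        exact h4)
      (fun w hwφ hwN => by
        have h4 := h2 w ((hφ' _).1 hwφ) hwN
        rw [sum_dfdg_apply] at h4
        exact h4) z ((hφ' _).2 hzU)
    rw [sum_dfdg_apply]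
    exact h3
  refine ⟨p '' T, TT, ?_, ?_, ?_, ?_, ?_, ?_, ?_, ?_, ?_, ?_, ?_⟩
  · exact (hTc.isCompact.image hp).isClosed
  · exact hTn.image p
  · intro x
    constructor
    · rintro ⟨z, hz, rfl⟩
      exact ⟨v z, z, hz, rfl, rfl⟩
    · rintro ⟨_, z, hz, rfl, rfl⟩
      exact ⟨z, hz, rfl⟩
  · rintro _ _ ⟨z, hz, rfl, rfl⟩
    exact ⟨hv z, hnull z⟩
  · rintro _ ⟨z, hz, rfl⟩ _ ⟨z', hz', rfl⟩ F hF h
    exact hTconst F hF (fun w hw => h (p w) (v w) ⟨w, hw, rfl, rfl⟩) z hz z' hz'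
  · rintro _ _ ⟨z, hz, rfl, rfl⟩
    exact ⟨fun g hg hgT => (htan z hz g hg hgT).1, fun g hg hgT => (htan z hz g hg hgT).2⟩
  · rintro U W hU ⟨_, ⟨z, hz, rfl⟩, hzU⟩ hW
    obtain ⟨w, hwU, hwN⟩ := hTthick _ (p ⁻¹' U) (hneg hW) (hU.preimage hp) ⟨z, hz, hzU⟩
    exact ⟨p w, v w, hwU, hmem w, hwN⟩
  · rintro U η W hU hηs hW h1 _ _ hxU ⟨z, hz, rfl, rfl⟩
    by_contra hne
    obtain ⟨w, hwO, hwN⟩ := hTthick _ (p ⁻¹' U ∩ {w | η (p w) ![v w, J (p w) (v w)] ≠ 0})
      (hneg hW) ((hU.preimage hp).inter (isOpen_ne_fun (hη η hηs) continuous_const))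
      ⟨z, hz, hxU, hne⟩
    exact hwO.2 (h1 _ _ hwO.1 (hmem w) hwN)
  · rintro τ' W ⟨α, hα, hd⟩ hW h1 _ _ ⟨z, hz, rfl, rfl⟩
    have hEx : s.Ex fun z => (τ' - τ) (p z) ![v z, J (p z) (v z)] := by
      obtain ⟨n, a, b, ha, hb, _, he⟩ :=
        Pair.exists_sum (Pool.Agent.Y306.NT.t_PAIR d X α (τ' - τ) hα hd)
      refine ⟨n, a, b, ha, hb, fun z => ?_⟩
      change (τ' - τ) (p z) ![v z, J (p z) (v z)] = _
      rw [he, sum_dfdg_apply]
      rfl
    have h2 : ∀ z, τ (p z) ![v z, J (p z) (v z)] + (τ' - τ) (p z) ![v z, J (p z) (v z)] =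
        τ' (p z) ![v z, J (p z) (v z)] := by
      intro z
      have h3 : (τ' - τ) (p z) ![v z, J (p z) (v z)] =
          τ' (p z) ![v z, J (p z) (v z)] - τ (p z) ![v z, J (p z) (v z)] := rfl
      rw [h3]
      ring
    have h3 := hTpos _ _ hEx (hneg hW) (fun w hwN => by
      change 0 ≤ τ (p w) ![v w, J (p w) (v w)] + (τ' - τ) (p w) ![v w, J (p w) (v w)]
      rw [h2]
      exact h1 _ _ (hmem w) hwN) ⟨z, hz⟩
    have h4 := h2 z
    change τ (p z) ![v z, J (p z) (v z)] + (τ' - τ) (p z) ![v z, J (p z) (v z)] = 0 at h3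
    rw [← h4]
    exact h3
  · rintro U β η W hU hβ hβη hW h1 h2 _ _ hxU ⟨z, hz, rfl, rfl⟩
    exact hlevi U β η _ hU hβ hβη (hneg hW) (fun w hwU => h1 _ _ hwU (hmem w))
      (fun w hwU hwN => h2 _ _ hwU (hmem w) hwN) ⟨z, hz⟩ hxU
  · rintro U β η hU hβ hβη h1 _ ⟨⟨z, hz, rfl⟩, hxU⟩
    by_contra hno
    push Not at hno
    have hηs : IsSmooth η := ((Pool.Agent.Y306.NT.t_PAIR d X β η hβ hβη).props
      Pool.Agent.Y484.SY.t_GEN).2.1
    have hcl : IsClosed (p '' (T ∩ {w | η (p w) ![v w, J (p w) (v w)] ≤ 0})) :=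
      ((hTc.inter (isClosed_le (hη η hηs) continuous_const)).isCompact.image hp).isClosed
    have h3 := hlevi (U ∩ (p '' (T ∩ {w | η (p w) ![v w, J (p w) (v w)] ≤ 0}))ᶜ) β η ∅
      (hU.inter hcl.isOpen_compl) hβ hβη (fun _ _ μ _ _ => measure_empty)
      (fun w hwU => h1 _ _ hwU.1 (hmem w))
      (fun w hwU _ => by
        by_contra hneg'
        push Not at hneg'
        exact hwU.2 ⟨w, ⟨w.2, hneg'.le⟩, rfl⟩) ⟨z, hz⟩ ⟨hxU, by
          rintro ⟨w, ⟨hw, hw0⟩, hwz⟩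
          have h5 : ∀ y : X, y = p z → ∀ u : TangentSpace (𝓡 d) y,
              TT y u → 0 < η y ![u, J y u] := by
            rintro y rfl
            exact hno
          exact absurd (h5 (p w) hwz (v w) ⟨w, hw, rfl, rfl⟩) (not_lt.2 hw0)⟩
    exact absurd (hno (v z) ⟨z, hz, rfl, rfl⟩) (by rw [h3]; exact lt_irrefl _)

theorem Obstruction.not_tamed {J : End d X} {σ τ : Form d X 2} {C : Set X}
    {T : (x : X) → TangentSpace (𝓡 d) x → Prop} (hT : Obstruction J σ τ C T) :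
    ¬ Tamed J σ τ := by
  rintro ⟨τ', hcoh, ε₀, hε₀, h⟩
  obtain ⟨x, hx⟩ := hT.nonempty
  obtain ⟨v, hv⟩ := (hT.base x).1 hx
  have hp := fun x v hv => pos_of_tamed hε₀ (fun ε hε hε' => (h ε hε hε').2.2) x v
    (hT.null x v hv)
  have h1 := hT.nonneg τ' _ hcoh Removable.empty (fun x v hv _ => (hp x v hv).le) x v hv
  exact (hp x v hv).ne' h1

theorem Obstruction.fibre {J : End d X} {σ τ : Form d X 2} {C : Set X}
    {T : (x : X) → TangentSpace (𝓡 d) x → Prop} (hT : Obstruction J σ τ C T)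
    {m : ℕ} {Y : Type} [TopologicalSpace Y] [ChartedSpace (E m) Y] [IsManifold (𝓡 m) ∞ Y]
    [T2Space Y] {f : X → Y} (hf : ContMDiff (𝓡 d) (𝓡 m) ∞ f)
    (hker : ∀ x v, T x v →
      mfderiv (𝓡 d) (𝓡 m) f x v = 0 ∧ mfderiv (𝓡 d) (𝓡 m) f x (J x v) = 0) :
    IsPreconnected C ∧ ∀ x ∈ C, ∀ z ∈ C, f x = f z := by
  have hC : IsCompact C := hT.closed.isCompact
  have key : ∀ z ∈ C, C ⊆ connectedComponentIn (C ∩ f ⁻¹' {f z}) z := by
    intro z hz x hx
    by_contra hcomp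
    obtain ⟨u, hu, hu0, huz, huU, hud⟩ := sepfun hf hC (z := z) hz (U := {x}ᶜ)
      isOpen_compl_singleton (by
        intro y hy
        rw [mem_compl_iff, mem_singleton_iff]
        rintro rfl
        exact hcomp hy)
    have h1 : u x = u z := hT.const x hx z hz u hu fun y w hw =>
      ⟨hud y ((hT.base y).2 ⟨w, hw⟩) w (hker y w hw).1,
        hud y ((hT.base y).2 ⟨w, hw⟩) (J y w) (hker y w hw).2⟩
    refine huU x hx ?_ rfl
    rw [h1]
    exact huz.ne'
  constructor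
  · obtain ⟨z, hz⟩ := hT.nonempty
    have h1 : C = connectedComponentIn (C ∩ f ⁻¹' {f z}) z :=
      (key z hz).antisymm ((connectedComponentIn_subset _ _).trans inter_subset_left)
    rw [h1]
    exact isPreconnected_connectedComponentIn
  · intro x hx z hz
    exact (connectedComponentIn_subset _ _ (key z hz hx)).2

/-- an obstruction is not good -/
theorem Obstruction.not_good {J : End d X} {σ τ : Form d X 2} {C : Set X}
    {T₀ : (x : X) → TangentSpace (𝓡 d) x → Prop} (hT : Obstruction J σ τ C T₀)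
    {T : (x : X) → TangentSpace (𝓡 d) x → Prop} (hg : Good J τ T) :
    ¬ ∀ x v, T₀ x v → T x v := by
  induction hg with
  | pos T W τ' hcoh hW h1 =>
    intro hsub
    have hW' := hW.anti hsub
    have h2 := hT.nonneg τ' W hcoh hW' (fun x v hv hvW => (h1 x v (hsub x v hv) hvW).le)
    obtain ⟨x, v, _, hv, hvW⟩ := hT.thick univ W isOpen_univ
      (by rw [inter_univ]; exact hT.nonempty) hW'
    exact (h1 x v (hsub x v hv) hvW).ne' (h2 x v hv)
  | nonneg T W τ' hcoh hW h1 _ ih =>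
    intro hsub
    have h2 := hT.nonneg τ' W hcoh (hW.anti hsub) (fun x v hv hvW => h1 x v (hsub x v hv) hvW)
    exact ih fun x v hv => ⟨hsub x v hv, h2 x v hv⟩
  | fibre T _ ih =>
    intro hsub
    obtain ⟨z, hz⟩ := hT.nonempty
    refine ih z fun x v hv => ⟨hsub x v hv, fun F hF h => ?_⟩
    exact hT.const x ((hT.base x).2 ⟨v, hv⟩) z hz F hF fun y w hw => h y w (hsub y w hw)
  | map T m Y f hf hker _ ih =>
    intro hsub
    obtain ⟨hpre, hfc⟩ := hT.fibre hf fun x v hv => hker x v (hsub x v hv)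
    obtain ⟨z, hz⟩ := hT.nonempty
    refine ih (f z) z fun x v hv => ⟨hsub x v hv, ?_⟩
    refine hpre.subset_connectedComponentIn hz ?_ ((hT.base x).2 ⟨v, hv⟩)
    intro y hy
    obtain ⟨w, hw⟩ := (hT.base y).1 hy
    exact ⟨hfc y hy z hz, w, hsub y w hw⟩
  | tangent T _ ih =>
    intro hsub
    refine ih fun x v hv => ⟨hsub x v hv, ?_⟩
    have h1 : ∀ g : X → ℝ, (∀ y ∈ {y | ∃ w, T y w}, g y = 0) → ∀ y ∈ C, g y = 0 := by
      intro g hg y hy
      obtain ⟨w, hw⟩ := (hT.base y).1 hy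
      exact hg y ⟨w, hsub y w hw⟩
    exact ⟨fun g hg hgT => (hT.tangent x v hv).1 g hg (h1 g hgT),
      fun g hg hgT => (hT.tangent x v hv).2 g hg (h1 g hgT)⟩
  | levi T W U β η hU hβ hβη hW h1 h2 _ ih =>
    intro hsub
    have h3 := hT.levi U β η W hU hβ hβη (hW.anti hsub)
      (fun x v hxU hv => h1 x v hxU (hsub x v hv))
      (fun x v hxU hv hvW => h2 x v hxU (hsub x v hv) hvW)
    exact ih fun x v hv => ⟨hsub x v hv, fun hxU => h3 x v hxU hv⟩
  | zero T W U η hU hη hW h1 _ ih =>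
    intro hsub
    have h3 := hT.zero U η W hU hη (hW.anti hsub)
      (fun x v hxU hv hvW => h1 x v hxU (hsub x v hv) hvW)
    exact ih fun x v hv => ⟨hsub x v hv, fun hxU => h3 x v hxU hv⟩
  | remove T W U hU hW h1 _ ih =>
    intro hsub
    refine ih fun x v hv => ⟨hsub x v hv, fun hxU => ?_⟩
    obtain ⟨y, w, hy, hw, hwW⟩ := hT.thick U W hU ⟨x, (hT.base x).2 ⟨v, hv⟩, hxU⟩
      (hW.anti hsub)
    exact hwW (h1 y w hy (hsub y w hw))
  | mono T T' hsub' _ ih =>
    intro hsub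
    exact ih fun x v hv => hsub' x v (hsub x v hv)

theorem good_iff {J : End d X} (hJ : IsAlmostComplex J) {σ τ : Form d X 2}
    (hσ : IsSmooth σ) (hσc : IsClosedForm σ) (hτ : IsSmooth τ) (hτc : IsClosedForm τ)
    (hpos : ∀ (x : X) (v : TangentSpace (𝓡 d) x), 0 ≤ σ x ![v, J x v]) :
    Tamed J σ τ ↔ Good J τ (Null σ J) := by
  constructor
  · rintro ⟨τ', hcoh, ε₀, hε₀, h⟩
    exact Good.pos _ _ τ' hcoh Removable.empty fun x v hv _ =>
      pos_of_tamed hε₀ (fun ε hε hε' => (h ε hε hε').2.2) x v hv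
  · intro hg
    by_contra hnt
    obtain ⟨C, T, hT⟩ := exists_obstruction hJ hσ hσc hτ hτc hpos hnt
    exact hT.not_good hg hT.null

theorem obstruction_iff {J : End d X} (hJ : IsAlmostComplex J) {σ τ : Form d X 2}
    (hσ : IsSmooth σ) (hσc : IsClosedForm σ) (hτ : IsSmooth τ) (hτc : IsClosedForm τ)
    (hpos : ∀ (x : X) (v : TangentSpace (𝓡 d) x), 0 ≤ σ x ![v, J x v]) :
    Tamed J σ τ ↔ ¬ ∃ (C : Set X) (T : (x : X) → TangentSpace (𝓡 d) x → Prop),
      Obstruction J σ τ C T := by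
  constructor
  · rintro h ⟨C, T, hT⟩
    exact hT.not_tamed h
  · intro h
    by_contra hnt
    exact h (exists_obstruction hJ hσ hσc hτ hτc hpos hnt)

end

end Pool.Agent.Y517.NT.R
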