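import Pool.Agent.Y517.NT.PubN
import Pool.Agent.Y517.NT.Fin2
import Pool.Agent.Y501.SY.Bridge

/-!
Comparison of the definitions over `ES d` with the working definitions.
-/

set_option autoImplicit false

open Set Filter Topology MeasureTheory
open scoped Manifold ContDiff

noncomputable section

namespace Pool.Agent.Y517.NTP

open Pool.Agent.Y501 Pool.Agent.Y501.SYP
open Pool.Agent.Y517.NT

section

variable {d : ℕ} {X : Type} [TopologicalSpace X] [ChartedSpace (ES d) X]

attribute [local instance] Pool.Agent.Y501.SYP.cs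
attribute [local instance] Pool.Agent.Y501.SYP.mf

theorem coh_to {τ τ' : Form (ES d) X 2} (h : Coh τ τ') : R.Coh (d := d) (X := X) τ τ' := by
  obtain ⟨α, ρ, hα, hd, rfl⟩ := h
  refine ⟨α, (smooth_iff α).1 hα, ?_⟩
  have h1 : (addF τ ρ - τ : SY.Form d X 2) = ρ := by
    funext x
    exact add_sub_cancel_left (τ x) (ρ x)
  exact Eq.mpr (congrArg (SY.IsD (d := d) (X := X) α) h1) ((isD_iff α ρ).1 hd)

theorem coh_of {τ τ' : Form (ES d) X 2} (h : R.Coh (d := d) (X := X) τ τ') : Coh τ τ' := by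
  obtain ⟨α, hα, hd⟩ := h
  refine ⟨α, (τ' - τ : SY.Form d X 2), (smooth_iff α).2 hα, (isD_iff α _).2 hd, ?_⟩
  funext x
  exact (add_sub_cancel (τ x) (τ' x)).symm

theorem tamed_to {J : End (ES d) X} {σ τ : Form (ES d) X 2} (h : Tamed J σ τ) :
    R.Tamed (d := d) (X := X) J σ τ := by
  obtain ⟨τ', hc, ε₀, hε₀, h⟩ := h
  exact ⟨τ', coh_to hc, ε₀, hε₀, fun ε h1 h2 =>
    ⟨(smooth_iff _).1 (h ε h1 h2).smooth, (closed_iff _).1 (h ε h1 h2).closed,
      (h ε h1 h2).tames⟩⟩

theorem tamed_of {J : End (ES d) X} {σ τ : Form (ES d) X 2}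
    (h : R.Tamed (d := d) (X := X) J σ τ) : Tamed J σ τ := by
  obtain ⟨τ', hc, ε₀, hε₀, h⟩ := h
  refine ⟨τ', coh_of hc, ε₀, hε₀, fun ε h1 h2 => ?_⟩
  obtain ⟨e1, e2, e3⟩ := h ε h1 h2
  exact symp_of ((smooth_iff _).2 e1) ((closed_iff _).2 e2) e3

theorem th_eq (J : End (ES d) X) {m : ℕ} (c a b : Fin m → X → ℝ) (x : X)
    (v : TangentSpace 𝓘(ℝ, ES d) x) :
    R.Th (d := d) (X := X) c a b x ![v, J x v] = th J c a b x v :=
  R.Th_apply (d := d) (X := X) c a b x v (J x v)

theorem removable_to [IsManifold 𝓘(ℝ, ES d) ∞ X] [CompactSpace X] [T2Space X]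
    {J : End (ES d) X} (hJ : IsAlmostComplex J) {T W : Vecs (ES d) X} (h : Removable J T W) :
    R.Removable (d := d) (X := X) J T W := by
  induction h with
  | thin C m c a b hc ha hb hab =>
    refine R.Removable.mono _ _ (R.Removable.thin (d := d) (X := X) (J := J) (T := T)
      C m c a b hc ha hb hab) ?_
    rintro x v _ ⟨h1, h2, h3⟩
    exact ⟨h1, fun u hu => le_of_le_of_eq (h2 u hu) (th_eq J c a b x u).symm,
      lt_of_lt_of_eq h3 (th_eq J c a b x v).symm⟩
  | slice A g hA hg => exact R.Removable.slice A g hA hg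
  | planar C hC => exact R.removable_planar (d := d) (X := X) (ac_of J hJ) T hC
  | transverse C => exact R.removable_transverse (d := d) (X := X) (ac_of J hJ) T C
  | thinAt C κ ζ hζ hT hC =>
    refine R.removable_thin (d := d) (X := X) (ac_of J hJ) (κ := κ) (ζ := ζ)
      (fun k => (smooth_iff (ζ k)).1 (hζ k)) hT fun z hz => ?_
    obtain ⟨n, a, b, hab, hpos⟩ := hC z hz
    choose N hN hN0 using fun i => (hab i).null
    refine ⟨n, a, b, ⋂ i, N i, Filter.iInter_mem.2 hN, fun i => (hab i).smooth_a,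
      fun i => (hab i).smooth_b, fun i => ?_, fun v hv h1 => ?_⟩
    · exact measure_mono_null
        (image_mono (inter_subset_inter_right _ (iInter_subset _ _))) (hN0 i)
    · have h3 := hpos v hv h1
      have e := SY.sum_apply2 (d := d) (X := X) Finset.univ
        (fun i => SY.dfdg (d := d) (X := X) (a i) (b i)) z ![v, J z v]
      refine lt_of_lt_of_eq h3 (Eq.trans ?_ e.symm)
      exact Finset.sum_congr rfl fun i _ =>
        (SY.dfdg_apply (d := d) (X := X) (a i) (b i) z v (J z v)).symm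
  | union W _ ih => exact R.Removable.union _ ih
  | mono W W' _ hsub ih => exact R.Removable.mono _ _ ih hsub

theorem removable_of {J : End (ES d) X} {T W : Vecs (ES d) X}
    (h : R.Removable (d := d) (X := X) J T W) : Removable J T W := by
  induction h with
  | thin C m c a b hc ha hb hab =>
    refine Removable.mono _ _ (Removable.thin (J := J) (T := T)
      C m c a b hc ha hb hab) ?_
    rintro x v _ ⟨h1, h2, h3⟩
    exact ⟨h1, fun u hu => le_of_le_of_eq (h2 u hu) (th_eq J c a b x u),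
      lt_of_lt_of_eq h3 (th_eq J c a b x v)⟩
  | slice A g hA hg => exact Removable.slice A g hA hg
  | union W _ ih => exact Removable.union _ ih
  | mono W W' _ hsub ih => exact Removable.mono _ _ ih hsub

theorem good_to [IsManifold 𝓘(ℝ, ES d) ∞ X] [CompactSpace X] [T2Space X]
    {J : End (ES d) X} (hJ : IsAlmostComplex J) {τ : Form (ES d) X 2} {T : Vecs (ES d) X}
    (h : Good J τ T) : R.Good (d := d) (X := X) J τ T := by
  induction h with
  | pos T W τ' h1 h2 h3 => exact R.Good.pos _ _ τ' (coh_to h1) (removable_to hJ h2) h3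
  | nonneg T W τ' h1 h2 h3 _ ih =>
    exact R.Good.nonneg _ _ τ' (coh_to h1) (removable_to hJ h2) h3 ih
  | fibre T _ ih => exact R.Good.fibre _ ih
  | map T m Y f hf hker _ ih => exact R.Good.map (d := d) (X := X) T m Y f hf hker ih
  | tangent T _ ih => exact R.Good.tangent _ ih
  | levi T W U β η hU hβ hβη hW h1 h2 _ ih =>
    exact R.Good.levi _ _ U β η hU ((smooth_iff β).1 hβ) ((isD_iff β η).1 hβη)
      (removable_to hJ hW) h1 h2 ih
  | zero T W U η hU hη hW h1 _ ih =>
    exact R.Good.zero _ _ U η hU ((smooth_iff η).1 hη) (removable_to hJ hW) h1 ih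
  | remove T W U hU hW h1 _ ih => exact R.Good.remove _ _ U hU (removable_to hJ hW) h1 ih
  | mono T T' hsub _ ih => exact R.Good.mono _ _ hsub ih

theorem obstruction_of [IsManifold 𝓘(ℝ, ES d) ∞ X] [CompactSpace X] [T2Space X]
    {J : End (ES d) X} (hJ : IsAlmostComplex J) {σ τ : Form (ES d) X 2} {C : Set X}
    {T : Vecs (ES d) X} (h : R.Obstruction (d := d) (X := X) J σ τ C T) :
    Obstruction J σ τ C T where
  closed := h.closed
  nonempty := h.nonempty
  base := h.base
  null := h.null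
  const := h.const
  tangent := h.tangent
  thick U W hU hne hW := h.thick U W hU hne (removable_to hJ hW)
  zero U η W hU hη hW h1 := h.zero U η W hU ((smooth_iff η).1 hη) (removable_to hJ hW) h1
  nonneg τ' W hc hW h1 := h.nonneg τ' W (coh_to hc) (removable_to hJ hW) h1
  levi U β η W hU hβ hβη hW h1 h2 := h.levi U β η W hU ((smooth_iff β).1 hβ)
    ((isD_iff β η).1 hβη) (removable_to hJ hW) h1 h2
  leviAt U β η hU hβ hβη h1 := h.leviAt U β η hU ((smooth_iff β).1 hβ)
    ((isD_iff β η).1 hβη) h1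

theorem null_pos_of_tamed {J : End (ES d) X} {σ τ' : Form (ES d) X 2} {ε₀ : ℝ} (hε₀ : 0 < ε₀)
    (h : ∀ ε : ℝ, 0 < ε → ε < ε₀ → IsTamingSymplectic (comb σ ε τ') J)
    (x : X) (v : TangentSpace 𝓘(ℝ, ES d) x) (hv : Null σ J x v) : 0 < qd τ' J x v := by
  have h1 := (h (ε₀ / 2) (half_pos hε₀) (half_lt_self hε₀)).tames x v hv.1
  have h2 : qd (comb σ (ε₀ / 2) τ') J x v = qd σ J x v + (ε₀ / 2) * qd τ' J x v := rfl
  rw [h2, hv.2, zero_add] at h1
  exact (mul_pos_iff_of_pos_left (half_pos hε₀)).1 h1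

theorem Obstruction.not_tamed {J : End (ES d) X} {σ τ : Form (ES d) X 2} {C : Set X}
    {T : Vecs (ES d) X} (hT : Obstruction J σ τ C T) : ¬ Tamed J σ τ := by
  rintro ⟨τ', hcoh, ε₀, hε₀, h⟩
  obtain ⟨x, hx⟩ := hT.nonempty
  obtain ⟨v, hv⟩ := (hT.base x).1 hx
  have hp := fun x v hv => null_pos_of_tamed hε₀ h x v (hT.null x v hv)
  have h1 := hT.nonneg τ' _ hcoh (removable_of R.Removable.empty)
    (fun x v hv _ => (hp x v hv).le) x v hv
  exact (hp x v hv).ne' h1

variable [IsManifold 𝓘(ℝ, ES d) ∞ X] [CompactSpace X] [T2Space X]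

theorem good_iff {J : End (ES d) X} (hJ : IsAlmostComplex J) {σ τ : Form (ES d) X 2}
    (hσ : IsSmooth σ) (hσc : IsClosedForm σ) (hτ : IsSmooth τ) (hτc : IsClosedForm τ)
    (hpos : ∀ (x : X) (v : TangentSpace 𝓘(ℝ, ES d) x), 0 ≤ qd σ J x v) :
    Tamed J σ τ ↔ Good J τ (Null σ J) := by
  constructor
  · rintro ⟨τ', hcoh, ε₀, hε₀, h⟩
    exact Good.pos _ _ τ' hcoh (removable_of R.Removable.empty) fun x v hv _ =>
      null_pos_of_tamed hε₀ h x v hv
  · intro h
    exact tamed_of ((R.good_iff (d := d) (X := X) (ac_of J hJ) ((smooth_iff σ).1 hσ)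
      ((closed_iff σ).1 hσc) ((smooth_iff τ).1 hτ) ((closed_iff τ).1 hτc) hpos).2 (good_to hJ h))

theorem obstruction_iff {J : End (ES d) X} (hJ : IsAlmostComplex J) {σ τ : Form (ES d) X 2}
    (hσ : IsSmooth σ) (hσc : IsClosedForm σ) (hτ : IsSmooth τ) (hτc : IsClosedForm τ)
    (hpos : ∀ (x : X) (v : TangentSpace 𝓘(ℝ, ES d) x), 0 ≤ qd σ J x v) :
    Tamed J σ τ ↔ ¬ ∃ (C : Set X) (T : Vecs (ES d) X), Obstruction J σ τ C T := by
  constructor
  · rintro h ⟨C, T, hT⟩
    exact hT.not_tamed h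
  · intro h
    refine tamed_of ((R.obstruction_iff (d := d) (X := X) (ac_of J hJ) ((smooth_iff σ).1 hσ)
      ((closed_iff σ).1 hσc) ((smooth_iff τ).1 hτ) ((closed_iff τ).1 hτc) hpos).2 ?_)
    rintro ⟨C, T, hT⟩
    exact h ⟨C, T, obstruction_of hJ hT⟩

end

end Pool.Agent.Y517.NTP
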