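import Pool.Agent.Y517.NT.PubA
import Pool.Agent.Y517.NT.BrN
import Pool.Agent.Y517.NT.An3

/-!
Comparison of the definitions over `ES d` with the working definitions, real analytic case.
-/

set_option autoImplicit false

open Set Filter Topology MeasureTheory
open scoped Manifold ContDiff

noncomputable section

namespace Pool.Agent.Y517.NTP

open Pool.Agent.Y501 Pool.Agent.Y501.SYP
open Pool.Agent.Y517.NT

theorem analytic_clm {d : ℕ} {f : SY.E d → SY.E d →L[ℝ] SY.E d} {U : Set (SY.E d)}
    (hU : IsOpen U) (h : ∀ v, AnalyticOnNhd ℝ (fun p => f p v) U) : AnalyticOnNhd ℝ f U := by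
  have h1 : ContDiffOn ℝ ω f U := by
    rw [contDiffOn_clm_apply]
    exact fun v y hy => (h v y hy).contDiffAt.contDiffWithinAt
  exact fun y hy => (h1.contDiffAt (hU.mem_nhds hy)).analyticAt

section

variable {d : ℕ} {X : Type} [TopologicalSpace X] [ChartedSpace (ES d) X]

attribute [local instance] Pool.Agent.Y501.SYP.cs
attribute [local instance] Pool.Agent.Y501.SYP.mf

theorem struct_to {σ : Form (ES d) X 2} {J : End (ES d) X} (h : IsAnalytic σ J) (x₀ : X) :
    AnalyticOnNhd ℝ (SY.inChart (d := d) (X := X) J x₀) (chartAt (SY.E d) x₀).target :=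
  analytic_clm (chartAt (SY.E d) x₀).open_target fun v => h.struct x₀ v

/-- removable sets relative to a smaller set are removable in the working sense -/
theorem obstruction_to [IsManifold 𝓘(ℝ, ES d) ∞ X] [CompactSpace X] [T2Space X]
    {J : End (ES d) X} {σ τ : Form (ES d) X 2} {C : Set X}
    {T : Vecs (ES d) X} (h : Obstruction J σ τ C T) :
    R.Obstruction (d := d) (X := X) J σ τ C T where
  closed := h.closed
  nonempty := h.nonempty
  base := h.base
  null := h.null
  const := h.const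
  tangent := h.tangent
  thick U W hU hne hW := h.thick U W hU hne (removable_of hW)
  zero U η W hU hη hW h1 := h.zero U η W hU ((smooth_iff η).2 hη) (removable_of hW) h1
  nonneg τ' W hc hW h1 := h.nonneg τ' W (coh_of hc) (removable_of hW) h1
  levi U β η W hU hβ hβη hW h1 h2 := h.levi U β η W hU ((smooth_iff β).2 hβ)
    ((isD_iff β η).2 hβη) (removable_of hW) h1 h2
  leviAt U β η hU hβ hβη h1 := h.leviAt U β η hU ((smooth_iff β).2 hβ)
    ((isD_iff β η).2 hβη) h1

theorem null_manifold [IsManifold 𝓘(ℝ, ES d) ∞ X] [CompactSpace X] [T2Space X]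
    {J : End (ES d) X} (hJ : IsAlmostComplex J) {σ τ : Form (ES d) X 2}
    (hpos : ∀ (x : X) (v : TangentSpace 𝓘(ℝ, ES d) x), 0 ≤ qd σ J x v) (ha : IsAnalytic σ J)
    {C : Set X} {T : Vecs (ES d) X} (hT : Obstruction J σ τ C T) (x₀ : X)
    (hx₀ : (C ∩ (chartAt (ES d) x₀).source).Nonempty) :
    ∃ (U : Set (ES d)) (r : ℕ) (g : Fin r → ES d → ℝ), NullManifold σ J C x₀ U r g ∧
      (OneLine σ J → Involutive σ J x₀ U g) := by
  obtain ⟨U, r, g, h1, h2, h3, h4, h5, h6, h7, h8⟩ := R.null_manifold (d := d) (X := X)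
    (ac_of J hJ) (σ := σ) (τ := τ) hpos ha.form (struct_to ha) (obstruction_to hT) x₀ hx₀
  exact ⟨U, r, g, ⟨h1, h2, h3, h4, h5, h6, h7⟩, h8⟩

end

end Pool.Agent.Y517.NTP
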