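import Mathlib

/-!
# Project NT: abstract calculus on a compact space of complex lines

`K` is a compact space over the compact space `X` (in the application: the unit null vectors `v` of
a closed two-form on a closed almost complex manifold), `S` the algebra of smooth functions of `X`,
`D f = df(v)` and `D' f = df(Jv)` as functions on `K`.
-/

set_option autoImplicit false

open Set Filter Topology MeasureTheory
open scoped ContDiff

noncomputable section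

namespace Pool.Agent.Y517.NT

/-- smooth functions with two derivations along a map -/
structure Sys (X K : Type) [TopologicalSpace X] [TopologicalSpace K] where
  /-- the projection -/
  p : K → X
  /-- smooth functions -/
  S : Set (X → ℝ)
  /-- `df(v)` -/
  D : (X → ℝ) → K → ℝ
  /-- `df(Jv)` -/
  D' : (X → ℝ) → K → ℝ
  p_cont : Continuous p
  S_cont : ∀ f ∈ S, Continuous f
  D_cont : ∀ f ∈ S, Continuous (D f)
  D'_cont : ∀ f ∈ S, Continuous (D' f)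
  const : ∀ c : ℝ, (fun _ => c) ∈ S
  comp : ∀ F : ℝ × ℝ → ℝ, ContDiff ℝ ∞ F → ∀ f ∈ S, ∀ g ∈ S, (fun x => F (f x, g x)) ∈ S
  D_comp : ∀ F : ℝ × ℝ → ℝ, ContDiff ℝ ∞ F → ∀ f ∈ S, ∀ g ∈ S, ∀ z,
    D (fun x => F (f x, g x)) z = fderiv ℝ F (f (p z), g (p z)) (D f z, D g z)
  D'_comp : ∀ F : ℝ × ℝ → ℝ, ContDiff ℝ ∞ F → ∀ f ∈ S, ∀ g ∈ S, ∀ z,
    D' (fun x => F (f x, g x)) z = fderiv ℝ F (f (p z), g (p z)) (D' f z, D' g z)
  sep : ∀ x y, x ≠ y → ∃ f ∈ S, f x ≠ f y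
  /-- the covector `dg ∘ J` is a combination of differentials with continuous coefficients -/
  rot : ∀ g ∈ S, ∃ (n : ℕ) (b h : Fin n → X → ℝ), (∀ k, Continuous (b k)) ∧ (∀ k, h k ∈ S) ∧
    ∀ z, D' g z = ∑ k, b k (p z) * D (h k) z ∧ D g z = - ∑ k, b k (p z) * D' (h k) z
  span : ∃ (n : ℕ) (h : Fin n → X → ℝ), (∀ k, h k ∈ S) ∧
    ∀ z, ∃ k, D (h k) z ≠ 0 ∨ D' (h k) z ≠ 0

variable {X K : Type} [TopologicalSpace X] [TopologicalSpace K]

/-- `(df ∧ dg)(v, Jv)` -/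
def Sys.br (s : Sys X K) (f g : X → ℝ) (z : K) : ℝ := s.D f z * s.D' g z - s.D' f z * s.D g z

/-- the measure `μ` annihilates all exact forms -/
def Sys.Cl (s : Sys X K) [MeasurableSpace K] (μ : Measure K) : Prop :=
  ∀ f ∈ s.S, ∀ g ∈ s.S, ∫ z, s.br f g z ∂μ = 0

/-- finite sums of `br f g` -/
def Sys.Ex (s : Sys X K) (η : K → ℝ) : Prop :=
  ∃ (n : ℕ) (f g : Fin n → X → ℝ), (∀ i, f i ∈ s.S) ∧ (∀ i, g i ∈ s.S) ∧
    ∀ z, η z = ∑ i, s.br (f i) (g i) z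

/-- smooth functions whose differentials vanish on `K` -/
def Sys.NC (s : Sys X K) (F : X → ℝ) : Prop := F ∈ s.S ∧ ∀ z, s.D F z = 0 ∧ s.D' F z = 0

/-- planar null subsets of `X` -/
def Sys.PN (s : Sys X K) (C : Set X) : Prop :=
  ∀ f ∈ s.S, ∀ g ∈ s.S, volume ((fun x => (f x, g x)) '' C) = 0

/-- HB: Hahn-Banach, Riesz and Krein-Milman. -/
def S_HB : Prop := ∀ (K : Type) [TopologicalSpace K] [CompactSpace K] [T2Space K]
  [MeasurableSpace K] [BorelSpace K] (E : Submodule ℝ C(K, ℝ)) (τ : C(K, ℝ)),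
  (∀ η ∈ E, ∃ z, τ z + η z ≤ 0) → ∃ μ : Measure K, IsProbabilityMeasure μ ∧
    (∀ η ∈ E, ∫ z, η z ∂μ = 0) ∧ ∫ z, τ z ∂μ ≤ 0 ∧
    ∀ F : C(K, ℝ), (∀ η ∈ E, F * η ∈ E) → ∃ c : ℝ, ∀ᵐ z ∂μ, F z = c

/-- ONE: null sets of the line. -/
def S_ONE : Prop := ∀ (X K : Type) [TopologicalSpace X] [TopologicalSpace K] [CompactSpace K]
  [MeasurableSpace K] [BorelSpace K] (s : Sys X K) (μ : Measure K) [IsFiniteMeasure μ],
  s.Cl μ → ∀ A : Set ℝ, MeasurableSet A → volume A = 0 → ∀ χ ∈ s.S, ∀ g ∈ s.S, ∀ h ∈ s.S,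
    ∫ z in {z | g (s.p z) ∈ A}, χ (s.p z) * s.br g h z ∂μ = 0

/-- EXT: from smooth to continuous multipliers, and to closed sets. -/
def S_EXT : Prop := ∀ (X K : Type) [TopologicalSpace X] [TopologicalSpace K] [CompactSpace X]
  [T2Space X] [SecondCountableTopology X] [CompactSpace K] [MeasurableSpace K] [BorelSpace K]
  (s : Sys X K) (μ : Measure K) [IsFiniteMeasure μ] (θ : K → ℝ), Integrable θ μ →
  (∀ χ ∈ s.S, ∫ z, χ (s.p z) * θ z ∂μ = 0) → ∀ b : X → ℝ, Continuous b →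
    (∫ z, b (s.p z) * θ z ∂μ = 0) ∧
    ∀ C : Set X, IsClosed C → ∫ z in s.p ⁻¹' C, b (s.p z) * θ z ∂μ = 0

/-- ZONE: almost everywhere over `{g ∈ A}` the differential of `g` vanishes. -/
def S_ZONE : Prop := ∀ (X K : Type) [TopologicalSpace X] [TopologicalSpace K] [CompactSpace X]
  [T2Space X] [SecondCountableTopology X] [CompactSpace K] [MeasurableSpace K] [BorelSpace K]
  (s : Sys X K) (μ : Measure K) [IsFiniteMeasure μ], s.Cl μ →
  ∀ A : Set ℝ, MeasurableSet A → volume A = 0 → ∀ g ∈ s.S,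
    μ {z | g (s.p z) ∈ A ∧ (s.D g z ≠ 0 ∨ s.D' g z ≠ 0)} = 0

/-- TWO: null sets of the plane. -/
def S_TWO : Prop := ∀ (X K : Type) [TopologicalSpace X] [TopologicalSpace K] [CompactSpace X]
  [T2Space X] [SecondCountableTopology X] [CompactSpace K] [MeasurableSpace K] [BorelSpace K]
  (s : Sys X K) (μ : Measure K) [IsFiniteMeasure μ], s.Cl μ →
  ∀ P : Set (ℝ × ℝ), IsCompact P → volume P = 0 → ∀ χ ∈ s.S, ∀ f ∈ s.S, ∀ g ∈ s.S,
    ∫ z in {z | (f (s.p z), g (s.p z)) ∈ P}, χ (s.p z) * s.br f g z ∂μ = 0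

/-- ZTWO: closed planar null sets carry no mass. -/
def S_ZTWO : Prop := ∀ (X K : Type) [TopologicalSpace X] [TopologicalSpace K] [CompactSpace X]
  [T2Space X] [SecondCountableTopology X] [CompactSpace K] [MeasurableSpace K] [BorelSpace K]
  (s : Sys X K) (μ : Measure K) [IsFiniteMeasure μ], s.Cl μ →
  ∀ C : Set X, IsClosed C → s.PN C → μ (s.p ⁻¹' C) = 0

/-- ABS: the abstract main theorem. -/
def S_ABS : Prop := ∀ (X K : Type) [TopologicalSpace X] [TopologicalSpace K] [CompactSpace X]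
  [T2Space X] [SecondCountableTopology X] [CompactSpace K] [T2Space K]
  [SecondCountableTopology K] (s : Sys X K) (τ : C(K, ℝ)),
  (∀ z₀ : K, ∃ (η : K → ℝ) (C : ℕ → Set X) (g : ℕ → X → ℝ) (A : Set ℝ), s.Ex η ∧
    (∀ n, IsClosed (C n)) ∧ (∀ n, s.PN (C n)) ∧ (∀ n, g n ∈ s.S) ∧ MeasurableSet A ∧
    volume A = 0 ∧ ∀ z : K, (∀ F, s.NC F → F (s.p z) = F (s.p z₀)) →
      (∃ n, s.p z ∈ C n) ∨ (∃ n, g n (s.p z) ∈ A ∧ (s.D (g n) z ≠ 0 ∨ s.D' (g n) z ≠ 0)) ∨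
        0 < τ z + η z) →
  ∃ η : K → ℝ, s.Ex η ∧ ∀ z, 0 < τ z + η z

end Pool.Agent.Y517.NT
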