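import Mathlib

/-!
# Project NT: real analytic part, statements (Mathlib only)
-/

set_option autoImplicit false

open Set Filter Topology

noncomputable section

namespace Pool.Agent.Y517.NT

/-- FLAT: if the differentials of all analytic functions on `B` vanishing on `T` vanish on `T`, then
all analytic functions vanishing on `T` vanish identically. -/
def S_FLAT : Prop := ∀ (F : Type) [NormedAddCommGroup F] [NormedSpace ℝ F] [FiniteDimensional ℝ F]
  (B T : Set F), IsOpen B → IsPreconnected B → T ⊆ B → T.Nonempty →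
  (∀ φ : F → ℝ, AnalyticOnNhd ℝ φ B → (∀ y ∈ T, φ y = 0) → ∀ y ∈ T, fderiv ℝ φ y = 0) →
  ∀ φ : F → ℝ, AnalyticOnNhd ℝ φ B → (∀ y ∈ T, φ y = 0) → ∀ y ∈ B, φ y = 0

/-- `g` are analytic functions on `V` with independent differentials, they vanish on `T`, and
analytic functions which vanish on `T` have differentials in the span of those of `g` on `T`. -/
def IsMax {F : Type} [NormedAddCommGroup F] [NormedSpace ℝ F] (T V : Set F) {r : ℕ}
    (g : Fin r → F → ℝ) : Prop :=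
  IsOpen V ∧ (∀ i, AnalyticOnNhd ℝ (g i) V) ∧
    (∀ y ∈ V, LinearIndependent ℝ (fun i => fderiv ℝ (g i) y)) ∧ (∀ y ∈ T ∩ V, ∀ i, g i y = 0) ∧
    ∀ (W : Set F) (φ : F → ℝ), IsOpen W → W ⊆ V → AnalyticOnNhd ℝ φ W →
      (∀ y ∈ T ∩ W, φ y = 0) → ∀ y ∈ T ∩ W,
        fderiv ℝ φ y ∈ Submodule.span ℝ (Set.range fun i => fderiv ℝ (g i) y)

/-- MAX: existence of such a family near some point of `T`. -/
def S_MAX : Prop := ∀ (F : Type) [NormedAddCommGroup F] [NormedSpace ℝ F] [FiniteDimensional ℝ F]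
  (U T : Set F), IsOpen U → T ⊆ U → T.Nonempty →
  ∃ x ∈ T, ∃ (r : ℕ) (g : Fin r → F → ℝ) (V : Set F), x ∈ V ∧ V ⊆ U ∧ IsMax T V g

/-- MAN: analytic functions which vanish on `T` vanish on the manifold `g = 0`. -/
def S_MAN : Prop := ∀ (F : Type) [NormedAddCommGroup F] [NormedSpace ℝ F] [FiniteDimensional ℝ F]
  (V T : Set F) (r : ℕ) (g : Fin r → F → ℝ), IsMax T V g → ∀ x ∈ T ∩ V,
  ∃ V' : Set F, IsOpen V' ∧ x ∈ V' ∧ V' ⊆ V ∧ ∀ φ : F → ℝ, AnalyticOnNhd ℝ φ V' →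
    (∀ y ∈ T ∩ V', φ y = 0) → ∀ y ∈ V', (∀ i, g i y = 0) → φ y = 0

/-- KER: the set where an analytic family of linear maps is not injective is the zero set of an
analytic function. -/
def S_KER : Prop := ∀ (F H G : Type) [NormedAddCommGroup F] [NormedSpace ℝ F]
  [NormedAddCommGroup H] [NormedSpace ℝ H] [FiniteDimensional ℝ H]
  [NormedAddCommGroup G] [NormedSpace ℝ G] [FiniteDimensional ℝ G] (V : Set F)
  (A : F → H →L[ℝ] G), AnalyticOnNhd ℝ A V →
  ∃ φ : F → ℝ, AnalyticOnNhd ℝ φ V ∧ ∀ y, φ y = 0 ↔ ∃ v : H, v ≠ 0 ∧ A y v = 0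

end Pool.Agent.Y517.NT
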