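import Pool.Agent.Y517.NT.Sys2
import Pool.Agent.Y686.NT.Abs

/-!
# Project NT: the abstract main theorem with negligible sets (adapted from `Y686/NT/Abs` of helper686)
-/

set_option autoImplicit false

open Set Filter Topology MeasureTheory
open scoped ContDiff

noncomputable section

namespace Pool.Agent.Y517.NT

open Pool.Agent.Y686.NT

theorem t_ABS2 : S_HB → S_ABS2 := by
  intro hHB X K _ _ _ _ _ _ _ _ s τ hyp
  let _ : MeasurableSpace K := borel K
  have _ : BorelSpace K := ⟨rfl⟩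
  by_contra hcon
  push Not at hcon
  obtain ⟨μ, hμ, hμE, hμτ, hμF⟩ := hHB K (EE s) τ (fun η hη => hcon η hη)
  have hint : ∀ f : K → ℝ, Continuous f → Integrable f μ := fun f hf =>
    hf.integrable_of_hasCompactSupport (HasCompactSupport.of_compactSpace f)
  have hCl : s.Cl μ := by
    intro f hf g hg
    have h1 : (⟨s.br f g, br_cont s hf hg⟩ : C(K, ℝ)) ∈ EE s := by
      refine ⟨1, fun _ => f, fun _ => g, fun _ => hf, fun _ => hg, fun z => ?_⟩
      simp
    exact hμE _ h1
  -- the support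
  have hsupp : μ.support ∈ ae μ := Measure.support_mem_ae
  have hconst : ∀ F, s.NC F → ∃ c : ℝ, ∀ z ∈ μ.support, F (s.p z) = c := by
    intro F hF
    let Fp : C(K, ℝ) := ⟨fun z => F (s.p z), (s.S_cont F hF.1).comp s.p_cont⟩
    obtain ⟨c, hc⟩ := hμF Fp (fun η hη => mult s hF Fp (fun z => rfl) hη)
    refine ⟨c, fun z hz => ?_⟩
    by_contra hne
    have hopen : IsOpen {z : K | Fp z ≠ c} := isOpen_ne_fun Fp.continuous continuous_const
    have h1 := (Measure.mem_support_iff_forall z).1 hz _ (hopen.mem_nhds hne)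
    have h2 : μ {z : K | Fp z ≠ c} = 0 := by
      rw [ae_iff] at hc
      exact hc
    exact h1.ne' h2
  obtain ⟨z₀, hz₀⟩ : ∃ z₀, z₀ ∈ μ.support := by
    have h1 : ∀ᵐ z ∂μ, z ∈ μ.support := hsupp
    exact h1.exists
  obtain ⟨η, N, hη, hN, hall⟩ := hyp z₀
  have hηc : Continuous η := Ex.cont s hη
  have N1 : μ N = 0 := hN _ μ hCl
  have hpos : ∀ᵐ z ∂μ, 0 < τ z + η z := by
    have h1 : ∀ᵐ z ∂μ, z ∉ N := measure_eq_zero_iff_ae_notMem.1 N1
    have h3 : ∀ᵐ z ∂μ, z ∈ μ.support := hsupp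
    filter_upwards [h1, h3] with z hz1 hz3
    have h4 : ∀ F, s.NC F → F (s.p z) = F (s.p z₀) := by
      intro F hF
      obtain ⟨c, hc⟩ := hconst F hF
      rw [hc z hz3, hc z₀ hz₀]
    rcases hall z h4 with hn | h5
    · exact (hz1 hn).elim
    · exact h5
  have hτc : Continuous τ := τ.continuous
  have hi : Integrable (fun z => τ z + η z) μ := hint _ (hτc.add hηc)
  have h1 : 0 < ∫ z, (τ z + η z) ∂μ := by
    rw [integral_pos_iff_support_of_nonneg_ae (hpos.mono fun z hz => hz.le) hi]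
    have h2 : ∀ᵐ z ∂μ, z ∈ Function.support (fun z => τ z + η z) :=
      hpos.mono fun z hz => hz.ne'
    have h3 : μ (Function.support (fun z => τ z + η z)) = 1 := by
      rw [← prob_compl_eq_zero_iff₀]
      · exact mem_ae_iff.1 h2
      · exact (measurableSet_support (hτc.add hηc).measurable).nullMeasurableSet
    rw [h3]
    exact one_pos
  have h2 : ∫ z, (τ z + η z) ∂μ = (∫ z, τ z ∂μ) + ∫ z, η z ∂μ :=
    integral_add (hint _ hτc) (hint _ hηc)
  have h3 : ∫ z, η z ∂μ = 0 := hμE ⟨η, hηc⟩ hη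
  rw [h2, h3, add_zero] at h1
  exact absurd h1 (not_lt.2 hμτ)

end Pool.Agent.Y517.NT
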