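import Pool.Agent.Y517.NT.Fin2
import Pool.Agent.Y340.NT.Chart
import Pool.Agent.Y614.NT.Glob
import Pool.Agent.Y614.NT.Max
import Pool.Agent.Y932.NT.Flat
import Pool.Agent.Y363.NT.Man
import Pool.Agent.Y849.NT.Ker
import Pool.Agent.Y288.NT.Proj
import Pool.Agent.Y154.NT.Fam

/-!
# Project NT: real analytic obstructions
-/

set_option autoImplicit false

open Set Filter Topology
open scoped Manifold ContDiff

noncomputable section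

namespace Pool.Agent.Y517.NT.R

open Pool.Agent.Y501.SY Pool.Agent.Y340.NT

section

variable {d : ℕ} {X : Type} [TopologicalSpace X] [ChartedSpace (E d) X] [IsManifold (𝓡 d) ∞ X]

theorem chart_data (J : End d X) (σ : Form d X 2) (x₀ : X) {y : E d} {q : X}
    (hq : q ∈ (chartAt (E d) x₀).source) (hqy : chartAt (E d) x₀ q = y) :
    (∀ v : TangentSpace (𝓡 d) q, inChart J x₀ y (Df x₀ q v) = Df x₀ q (J q v)) ∧
    (∀ v w : TangentSpace (𝓡 d) q,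
      pb (chartAt (E d) x₀).symm σ y ![Df x₀ q v, Df x₀ q w] = σ q ![v, w]) ∧
    (∀ u : E d, ∃ v : TangentSpace (𝓡 d) q, Df x₀ q v = u) ∧
    ∀ v : TangentSpace (𝓡 d) q, v ≠ 0 → Df x₀ q v ≠ 0 := by
  obtain ⟨h1, h2, h3, h4⟩ := t_CHART d X J σ x₀ q hq
  subst hqy
  exact ⟨h1, h2, h3, h4⟩

variable [CompactSpace X] [T2Space X]

theorem Obstruction.tangent_local {J : End d X} {σ τ : Form d X 2} {C : Set X}
    {T : (x : X) → TangentSpace (𝓡 d) x → Prop} (hT : Obstruction J σ τ C T) {q : X}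
    {v : TangentSpace (𝓡 d) q} (hv : T q v) {O : Set X} (hO : IsOpen O) (hq : q ∈ O)
    {G : X → ℝ} (hG : SmoothFun (d := d) G) (h0 : ∀ x ∈ C ∩ O, G x = 0) :
    dd G q v = 0 ∧ dd G q (J q v) = 0 := by
  obtain ⟨χ, hχO, hχ, _⟩ := hO.exists_contMDiff_support_eq (n := ⊤) (𝓡 d)
  have hqC : q ∈ C := (hT.base q).2 ⟨v, hv⟩
  have hmem : ∀ x, χ x ≠ 0 ↔ x ∈ O := fun x => by rw [← hχO]; rfl
  have hχq : χ q ≠ 0 := (hmem q).2 hq
  have hz : ∀ x ∈ C, χ x * G x = 0 := by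
    intro x hx
    by_cases hxO : x ∈ O
    · rw [h0 x ⟨hx, hxO⟩, mul_zero]
    · have h1 : χ x = 0 := by
        by_contra h
        exact hxO ((hmem x).1 h)
      rw [h1, zero_mul]
  have hGq : G q = 0 := h0 q ⟨hqC, hq⟩
  have h1 : ∀ w : TangentSpace (𝓡 d) q, w ∈ ZT (d := d) C q → dd G q w = 0 := by
    intro w hw
    have h2 := hw _ (SmoothFun.mul hχ hG) hz
    rw [dd_mul hχ hG, hGq, zero_mul, add_zero] at h2
    exact (mul_eq_zero.1 h2).resolve_left hχq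
  exact ⟨h1 v (hT.tangent q v hv).1, h1 _ (hT.tangent q v hv).2⟩

/-- analytic functions near `y` which vanish on the obstruction vanish to first order along its
lines -/
theorem Obstruction.tangent_chart {J : End d X} {σ τ : Form d X 2} {C : Set X}
    {T : (x : X) → TangentSpace (𝓡 d) x → Prop} (hT : Obstruction J σ τ C T) (x₀ : X)
    {W : Set (E d)} {φ : E d → ℝ} (hW : IsOpen W) (hWt : W ⊆ (chartAt (E d) x₀).target)
    (hφ : ContDiffOn ℝ ∞ φ W)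
    (h0 : ∀ x ∈ (chartAt (E d) x₀).source, x ∈ C → chartAt (E d) x₀ x ∈ W →
      φ (chartAt (E d) x₀ x) = 0) {y : E d} {q : X}
    (hq : q ∈ (chartAt (E d) x₀).source) (hqy : chartAt (E d) x₀ q = y) (hy : y ∈ W)
    {v : TangentSpace (𝓡 d) q} (hv : T q v) :
    fderiv ℝ φ y (Df x₀ q v) = 0 ∧ fderiv ℝ φ y (inChart J x₀ y (Df x₀ q v)) = 0 := by
  obtain ⟨G, O, hG, hO, hqO, hOs, hGO, hdG⟩ := Pool.Agent.Y614.NT.t_GLOB d X x₀ q W φ hW hWt hφ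
    hq (by rw [hqy]; exact hy)
  obtain ⟨h1, h2⟩ := hT.tangent_local hv hO hqO hG (by
    rintro x ⟨hxC, hxO⟩
    obtain ⟨h3, h4⟩ := hGO x hxO
    rw [h4]
    exact h0 x (hOs hxO) hxC h3)
  obtain ⟨hch, _⟩ := chart_data J σ x₀ hq hqy
  rw [hch v]
  rw [hdG q hqO] at h1 h2
  subst hqy
  exact ⟨h1, h2⟩

theorem exists_null_manifold {J : End d X} (hJ : IsAlmostComplex J) {σ τ : Form d X 2}
    (hpos : ∀ (x : X) (v : TangentSpace (𝓡 d) x), 0 ≤ σ x ![v, J x v])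
    (hσa : ∀ x₀ : X, AnalyticOnNhd ℝ (pb (chartAt (E d) x₀).symm σ) (chartAt (E d) x₀).target)
    (hJa : ∀ x₀ : X, AnalyticOnNhd ℝ (inChart J x₀) (chartAt (E d) x₀).target)
    {C : Set X} {T : (x : X) → TangentSpace (𝓡 d) x → Prop} (hT : Obstruction J σ τ C T)
    (x₀ : X) (hx₀ : (C ∩ (chartAt (E d) x₀).source).Nonempty) :
    ∃ (V : Set (E d)) (r : ℕ) (g : Fin r → E d → ℝ), IsOpen V ∧
      V ⊆ (chartAt (E d) x₀).target ∧ (∀ i, AnalyticOnNhd ℝ (g i) V) ∧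
      (∀ y ∈ V, LinearIndependent ℝ fun i => fderiv ℝ (g i) y) ∧
      (∃ y ∈ V, (chartAt (E d) x₀).symm y ∈ C) ∧
      (∀ y ∈ V, (chartAt (E d) x₀).symm y ∈ C → ∀ i, g i y = 0) ∧
      ∀ y ∈ V, (∀ i, g i y = 0) → ∃ u : E d, u ≠ 0 ∧
        pb (chartAt (E d) x₀).symm σ y ![u, inChart J x₀ y u] = 0 ∧
        ∀ i, fderiv ℝ (g i) y u = 0 ∧ fderiv ℝ (g i) y (inChart J x₀ y u) = 0 := by
  set c := chartAt (E d) x₀ with hc
  set TE : Set (E d) := {y | y ∈ c.target ∧ c.symm y ∈ C} with hTE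
  obtain ⟨q₀, hq₀C, hq₀s⟩ := hx₀
  obtain ⟨x, hxTE, r, g, V, hxV, hVU, hmax⟩ := Pool.Agent.Y614.NT.t_MAX (E d) c.target TE
    c.open_target (fun y hy => hy.1)
    ⟨c q₀, c.map_source hq₀s, by rw [c.left_inv hq₀s]; exact hq₀C⟩
  have hmax' := hmax
  obtain ⟨hVo, hga, hgi, hg0, hgmax⟩ := hmax
  have hdata : ∀ y ∈ c.target, c.symm y ∈ c.source ∧ c (c.symm y) = y := fun y hy =>
    ⟨c.map_target hy, c.right_inv hy⟩
  have hpsd : ∀ y ∈ V, ∀ u, 0 ≤ pb c.symm σ y ![u, inChart J x₀ y u] := by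
    intro y hy u
    obtain ⟨h1, h2⟩ := hdata y (hVU hy)
    obtain ⟨e1, e2, e3, _⟩ := chart_data J σ x₀ h1 h2
    obtain ⟨v, rfl⟩ := e3 u
    rw [e1 v, e2 v]
    exact hpos _ v
  obtain ⟨N, A, hA, hA0⟩ := Pool.Agent.Y154.NT.t_FAM d r V (pb c.symm σ) (inChart J x₀) g
    (fun y hy => hσa x₀ y (hVU hy)) (fun y hy => hJa x₀ y (hVU hy)) hga hpsd
  obtain ⟨φ, hφ, hφ0⟩ := Pool.Agent.Y849.NT.t_KER (E d) (E d) (Fin N → ℝ) V A hA
  have htan : ∀ y ∈ TE ∩ V, ∃ u : E d, u ≠ 0 ∧ A y u = 0 := by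
    rintro y ⟨⟨hyt, hyC⟩, hyV⟩
    obtain ⟨h1, h2⟩ := hdata y hyt
    obtain ⟨e1, e2, e3, e4⟩ := chart_data J σ x₀ h1 h2
    obtain ⟨v, hv⟩ := (hT.base _).1 hyC
    obtain ⟨hv0, hvn⟩ := hT.null _ v hv
    refine ⟨Df x₀ _ v, e4 v hv0, (hA0 y hyV _).2 ⟨?_, fun i => ?_⟩⟩
    · rw [e1 v, e2 v]
      exact hvn
    · refine hT.tangent_chart x₀ hVo hVU
        (fun y hy => (hga i y hy).contDiffAt.contDiffWithinAt) ?_ h1 h2 hyV hv
      intro x' hx's hx'C hx'V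
      exact hg0 _ ⟨⟨c.map_source hx's, by rw [c.left_inv hx's]; exact hx'C⟩, hx'V⟩ i
  obtain ⟨V', hV'o, hxV', hV'V, hman⟩ := Pool.Agent.Y363.NT.t_MAN Pool.Agent.Y932.NT.Flat.t_FLAT (E d)
    V TE r g hmax' x ⟨hxTE, hxV⟩
  refine ⟨V', r, g, hV'o, hV'V.trans hVU, fun i y hy => hga i y (hV'V hy),
    fun y hy => hgi y (hV'V hy), ⟨x, hxV', hxTE.2⟩,
    fun y hy hyC => hg0 y ⟨⟨hVU (hV'V hy), hyC⟩, hV'V hy⟩, ?_⟩
  intro y hy hgy
  have h1 := hman φ (fun y hy => hφ y (hV'V hy)) (by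
    rintro z ⟨hz, hzV⟩
    exact (hφ0 z).2 (htan z ⟨hz, hV'V hzV⟩)) y hy hgy
  obtain ⟨u, hu, hAu⟩ := (hφ0 y).1 h1
  obtain ⟨h2, h3⟩ := (hA0 y (hV'V hy) u).1 hAu
  exact ⟨u, hu, h2, h3⟩

end

end Pool.Agent.Y517.NT.R
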