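import Pool.Agent.Y501.SY.Stm

/-!
# Project NT: statements on manifolds
-/

set_option autoImplicit false

open Set Filter Topology MeasureTheory
open scoped Manifold ContDiff

noncomputable section

namespace Pool.Agent.Y517.NT

open Pool.Agent.Y501.SY

/-- SPAN: finitely many smooth functions span all cotangent spaces; smooth functions separate
points. -/
def S_SPAN : Prop := ∀ (d : ℕ) (X : Type) [TopologicalSpace X] [ChartedSpace (E d) X]
  [IsManifold (𝓡 d) ∞ X] [CompactSpace X] [T2Space X],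
  (∃ (n : ℕ) (h : Fin n → X → ℝ), (∀ k, SmoothFun (d := d) (h k)) ∧
    ∀ (x : X) (v : TangentSpace (𝓡 d) x), v ≠ 0 → ∃ k, dd (h k) x v ≠ 0) ∧
  ∀ x y : X, x ≠ y → ∃ f : X → ℝ, SmoothFun (d := d) f ∧ f x ≠ f y

/-- ROT: the covector field `dg ∘ J` is a combination of differentials of smooth functions with
continuous coefficients. -/
def S_ROT : Prop := ∀ (d : ℕ) (X : Type) [TopologicalSpace X] [ChartedSpace (E d) X]
  [IsManifold (𝓡 d) ∞ X] [CompactSpace X] [T2Space X] (J : End d X), IsAlmostComplex J →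
  ∀ g : X → ℝ, SmoothFun (d := d) g → ∃ (n : ℕ) (b h : Fin n → X → ℝ),
    (∀ k, Continuous (b k)) ∧ (∀ k, SmoothFun (d := d) (h k)) ∧
    ∀ (x : X) (v : TangentSpace (𝓡 d) x), dd g x (J x v) = ∑ k, b k x * dd (h k) x v

/-- KSP: the compact space of unit null vectors. -/
def S_KSP : Prop := ∀ (d : ℕ) (X : Type) [TopologicalSpace X] [ChartedSpace (E d) X]
  [IsManifold (𝓡 d) ∞ X] [CompactSpace X] [T2Space X] (J : End d X), IsAlmostComplex J →
  ∀ σ : Form d X 2, IsSmooth σ →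
  ∃ (K : Type) (_ : MetricSpace K) (_ : CompactSpace K) (p : K → X)
    (v : (z : K) → TangentSpace (𝓡 d) (p z)), Continuous p ∧ (∀ z, v z ≠ 0) ∧
    (∀ z, σ (p z) ![v z, J (p z) (v z)] = 0) ∧
    (∀ f : X → ℝ, SmoothFun (d := d) f → Continuous (fun z => dd f (p z) (v z)) ∧
      Continuous (fun z => dd f (p z) (J (p z) (v z)))) ∧
    (∀ η : Form d X 2, IsSmooth η → Continuous (fun z => η (p z) ![v z, J (p z) (v z)])) ∧
    ∀ (x : X) (w : TangentSpace (𝓡 d) x), w ≠ 0 → σ x ![w, J x w] = 0 →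
      ∃ (z : K) (t : ℝ), 0 < t ∧ p z = x ∧
        ∀ η : Form d X 2, η x ![w, J x w] = t * η (p z) ![v z, J (p z) (v z)]

/-- CHAIN: the chain rule. -/
def S_CHAIN : Prop := ∀ (d : ℕ) (X : Type) [TopologicalSpace X] [ChartedSpace (E d) X]
  [IsManifold (𝓡 d) ∞ X] (F : ℝ × ℝ → ℝ) (f g : X → ℝ), ContDiff ℝ ∞ F →
  SmoothFun (d := d) f → SmoothFun (d := d) g → SmoothFun (d := d) (fun x => F (f x, g x)) ∧
  ∀ (x : X) (v : TangentSpace (𝓡 d) x),
    dd (fun x => F (f x, g x)) x v = fderiv ℝ F (f x, g x) (dd f x v, dd g x v)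

end Pool.Agent.Y517.NT
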