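import Pool.Agent.Y517.NT.Thin
import Pool.Agent.Y517.NT.Geo
import Pool.Agent.Y501.SY.Main

/-!
# Project NT: assembly
-/

set_option autoImplicit false

open Set Filter Topology MeasureTheory
open scoped Manifold ContDiff

noncomputable section

namespace Pool.Agent.Y517.NT

open Pool.Agent.Y501.SY

section defs

variable {d : ℕ} {X : Type} [TopologicalSpace X] [ChartedSpace (E d) X]

/-- the two-form `∑ c_i da_i ∧ db_i` -/
def Th {m : ℕ} (c a b : Fin m → X → ℝ) : Form d X 2 := ∑ i, hdfdg (c i) (a i) (b i)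

/-- Removable sets of null vectors `v` of `σ`. The generators are, first, the set of the `v` over
points `x` of `C` with `Θ(v, J v) > 0` and `Θ(u, J u) ≥ 0` for all null vectors `u` at `x`, where
`Θ` is a finite sum of forms `c da ∧ db`, with `c` continuous and `a`, `b` smooth, and all pairs
`(a, b)` map the set `C` onto a set of Lebesgue measure zero in the plane; secondly, the set of the
`v` over points `x` with `g(x) ∈ A` such that `dg(v)` or `dg(J v)` does not vanish, where `g` is
smooth and `A` has Lebesgue measure zero in the line. Countable unions and subsets of removable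
sets are removable. -/
inductive Removable (σ : Form d X 2) (J : End d X) :
    ((x : X) → TangentSpace (𝓡 d) x → Prop) → Prop
  | thin (C : Set X) (m : ℕ) (c a b : Fin m → X → ℝ) : (∀ i, Continuous (c i)) →
      (∀ i, SmoothFun (d := d) (a i)) → (∀ i, SmoothFun (d := d) (b i)) →
      (∀ i, volume ((fun x => (a i x, b i x)) '' C) = 0) →
      Removable σ J fun x v => x ∈ C ∧
        (∀ u : TangentSpace (𝓡 d) x, σ x ![u, J x u] = 0 → 0 ≤ Th (d := d) c a b x ![u, J x u]) ∧
        0 < Th (d := d) c a b x ![v, J x v]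
  | slice (A : Set ℝ) (g : X → ℝ) : volume A = 0 → SmoothFun (d := d) g →
      Removable σ J fun x v => g x ∈ A ∧ (dd g x v ≠ 0 ∨ dd g x (J x v) ≠ 0)
  | union (W : ℕ → (x : X) → TangentSpace (𝓡 d) x → Prop) : (∀ n, Removable σ J (W n)) →
      Removable σ J fun x v => ∃ n, W n x v
  | mono (W W' : (x : X) → TangentSpace (𝓡 d) x → Prop) : Removable σ J W →
      (∀ x v, v ≠ 0 → σ x ![v, J x v] = 0 → W' x v → W x v) → Removable σ J W'

theorem Th_apply {m : ℕ} (c a b : Fin m → X → ℝ) (x : X) (v w : TangentSpace (𝓡 d) x) :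
    Th (d := d) c a b x ![v, w] =
      ∑ i, c i x * (dd (a i) x v * dd (b i) x w - dd (a i) x w * dd (b i) x v) := by
  unfold Th
  rw [Finset.sum_apply, ContinuousAlternatingMap.sum_apply]
  exact Finset.sum_congr rfl fun i _ => hdfdg_apply (c i) (a i) (b i) x v w

end defs

section sys

variable {d : ℕ} {X : Type} [TopologicalSpace X] [ChartedSpace (E d) X] [IsManifold (𝓡 d) ∞ X]
  [CompactSpace X] [T2Space X]

/-- the abstract system of a space of tangent vectors -/
def sysOf (hC : S_CHAIN) (hS : S_SPAN) (hR : S_ROT) {J : End d X} (hJ : IsAlmostComplex J)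
    {K : Type} [TopologicalSpace K] (p : K → X) (v : (z : K) → TangentSpace (𝓡 d) (p z))
    (hp : Continuous p) (hv : ∀ z, v z ≠ 0)
    (hc : ∀ f : X → ℝ, SmoothFun (d := d) f → Continuous (fun z => dd f (p z) (v z)) ∧
      Continuous (fun z => dd f (p z) (J (p z) (v z)))) : Sys X K where
  p := p
  S := {f | SmoothFun (d := d) f}
  D f z := dd f (p z) (v z)
  D' f z := dd f (p z) (J (p z) (v z))
  p_cont := hp
  S_cont f hf := ContMDiff.continuous hf
  D_cont f hf := (hc f hf).1
  D'_cont f hf := (hc f hf).2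
  const c := contMDiff_const
  comp F hF f hf g hg := (hC d X F f g hF hf hg).1
  D_comp F hF f hf g hg z := (hC d X F f g hF hf hg).2 (p z) (v z)
  D'_comp F hF f hf g hg z := (hC d X F f g hF hf hg).2 (p z) (J (p z) (v z))
  sep x y hxy := (hS d X).2 x y hxy
  rot g hg := by
    obtain ⟨n, b, h, hb, hh, hg'⟩ := hR d X J hJ g hg
    refine ⟨n, b, h, hb, hh, fun z => ⟨hg' (p z) (v z), ?_⟩⟩
    have h1 := hg' (p z) (J (p z) (v z))
    rw [hJ.sq, map_neg] at h1
    rw [← h1, neg_neg]
  span := by
    obtain ⟨n, h, hh, hsp⟩ := (hS d X).1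
    exact ⟨n, h, hh, fun z => (hsp (p z) (v z) (hv z)).imp fun k hk => Or.inl hk⟩

end sys

end Pool.Agent.Y517.NT
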