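import Pool.Agent.Y517.NT.Thin

/-!
# Project NT: thin Borel sets
-/

set_option autoImplicit false

open Set Filter Topology MeasureTheory
open scoped ContDiff ENNReal

noncomputable section

namespace Pool.Agent.Y517.NT

variable {X K : Type} [TopologicalSpace X] [TopologicalSpace K]

theorem bthin (hT : S_THIN) [CompactSpace X] [T2Space X] [SecondCountableTopology X]
    [CompactSpace K] (s : Sys X K) (C : Set X) (hC : MeasurableSet[borel X] C) (m : ℕ)
    (c a b : Fin m → X → ℝ) (hc : ∀ i, Continuous (c i)) (ha : ∀ i, a i ∈ s.S)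
    (hb : ∀ i, b i ∈ s.S) (hab : ∀ i, volume ((fun x => (a i x, b i x)) '' C) = 0) :
    s.Neg {z | s.p z ∈ C ∧ (∀ z', s.p z' = s.p z → 0 ≤ s.th c a b z') ∧ 0 < s.th c a b z} := by
  intro mK _ μ _ hμ
  let _ : MeasurableSpace X := borel X
  have _ : BorelSpace X := ⟨rfl⟩
  have hθ := s.th_cont hc ha hb
  set θ := s.th c a b with hθdef
  set B : Set X := C ∩ {x | ∀ z', s.p z' = x → 0 ≤ θ z'} with hB
  have hBm : MeasurableSet B := by
    refine MeasurableSet.inter hC ?_
    have h1 : {x | ∀ z', s.p z' = x → 0 ≤ θ z'} =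
        (⋃ n : ℕ, s.p '' {z | θ z ≤ -(1 / ((n : ℝ) + 1))})ᶜ := by
      ext x
      simp only [mem_ofPred_eq, mem_compl_iff, mem_iUnion, mem_image, not_exists, not_and]
      constructor
      · intro h n z hz hzx
        have h2 := h z hzx
        have h3 : (0 : ℝ) < 1 / ((n : ℝ) + 1) := by positivity
        linarith
      · intro h z hz
        by_contra hneg
        push Not at hneg
        obtain ⟨n, hn⟩ := exists_nat_one_div_lt (neg_pos.2 hneg)
        exact h n z (by linarith) hz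
    rw [h1]
    refine (MeasurableSet.iUnion fun n => ?_).compl
    exact ((isClosed_le hθ continuous_const).isCompact.image s.p_cont).isClosed.measurableSet
  have hpm : Measurable s.p := s.p_cont.measurable
  set ν : Measure X := μ.map s.p with hν
  have _ : IsFiniteMeasure ν := Measure.isFiniteMeasure_map μ s.p
  refine le_antisymm (le_of_forall_gt fun ε hε => ?_) bot_le
  obtain ⟨F, hFB, hF, hFε⟩ := hBm.exists_isClosed_sdiff_lt (μ := ν) (measure_ne_top ν B) hε.ne'
  have h1 : μ {z | s.p z ∈ F ∧ 0 < θ z} = 0 := by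
    refine hT X K s F hF m c a b hc ha hb (fun i => ?_) (fun z hz => ?_) mK μ hμ
    · exact measure_mono_null (image_mono (hFB.trans inter_subset_left)) (hab i)
    · exact (hFB hz).2 z rfl
  have h2 : μ (s.p ⁻¹' (B \ F)) < ε := by
    rwa [hν, Measure.map_apply hpm (hBm.diff hF.measurableSet)] at hFε
  refine lt_of_le_of_lt ?_ h2
  have h3 : {z | s.p z ∈ C ∧ (∀ z', s.p z' = s.p z → 0 ≤ θ z') ∧ 0 < θ z} ⊆
      s.p ⁻¹' (B \ F) ∪ {z | s.p z ∈ F ∧ 0 < θ z} := by
    rintro z ⟨hz1, hz2, hz3⟩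
    by_cases hz : s.p z ∈ F
    · exact Or.inr ⟨hz, hz3⟩
    · exact Or.inl ⟨⟨hz1, hz2⟩, hz⟩
  refine (measure_mono h3).trans ((measure_union_le _ _).trans ?_)
  rw [h1, add_zero]

theorem thin_any (hT : S_THIN) [CompactSpace X] [T2Space X] [SecondCountableTopology X]
    [CompactSpace K] (s : Sys X K) (C : Set X) (m : ℕ)
    (c a b : Fin m → X → ℝ) (hc : ∀ i, Continuous (c i)) (ha : ∀ i, a i ∈ s.S)
    (hb : ∀ i, b i ∈ s.S) (hab : ∀ i, volume ((fun x => (a i x, b i x)) '' C) = 0) :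
    s.Neg {z | s.p z ∈ C ∧ (∀ z', s.p z' = s.p z → 0 ≤ s.th c a b z') ∧ 0 < s.th c a b z} := by
  set P : Fin m → Set (ℝ × ℝ) := fun i => toMeasurable volume ((fun x => (a i x, b i x)) '' C)
    with hP
  set C' : Set X := ⋂ i, (fun x => (a i x, b i x)) ⁻¹' P i with hC'
  have h1 : MeasurableSet[borel X] C' := by
    let _ : MeasurableSpace X := borel X
    have _ : BorelSpace X := ⟨rfl⟩
    refine MeasurableSet.iInter fun i => ?_
    exact ((s.S_cont _ (ha i)).prodMk (s.S_cont _ (hb i))).measurable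
      (measurableSet_toMeasurable _ _)
  have h2 : ∀ i, volume ((fun x => (a i x, b i x)) '' C') = 0 := by
    intro i
    refine measure_mono_null (t := P i) ?_ ?_
    · rintro _ ⟨x, hx, rfl⟩
      exact mem_iInter.1 hx i
    · rw [hP]
      simp only
      rw [measure_toMeasurable]
      exact hab i
  intro mK _ μ _ hμ
  refine measure_mono_null ?_ (bthin hT s C' h1 m c a b hc ha hb h2 mK μ hμ)
  rintro z ⟨hz1, hz2⟩
  refine ⟨mem_iInter.2 fun i => ?_, hz2⟩
  exact subset_toMeasurable _ _ ⟨s.p z, hz1, rfl⟩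

theorem slice_any (hZ : S_ZONE) [CompactSpace X] [T2Space X] [SecondCountableTopology X]
    [CompactSpace K] (s : Sys X K) (A : Set ℝ) (hA : volume A = 0) (g : X → ℝ) (hg : g ∈ s.S) :
    s.Neg {z | g (s.p z) ∈ A ∧ (s.D g z ≠ 0 ∨ s.D' g z ≠ 0)} := by
  intro mK _ μ _ hμ
  refine measure_mono_null ?_ (hZ X K s μ hμ (toMeasurable volume A)
    (measurableSet_toMeasurable _ _) (by rw [measure_toMeasurable]; exact hA) g hg)
  rintro z ⟨hz1, hz2⟩
  exact ⟨subset_toMeasurable _ _ hz1, hz2⟩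

end Pool.Agent.Y517.NT
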