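import Pool.Agent.Y501.SY.Stm

/-!
# Project NT: statements on charts
-/

set_option autoImplicit false

open Set Filter Topology MeasureTheory
open scoped Manifold ContDiff

noncomputable section

namespace Pool.Agent.Y517.NT

open Pool.Agent.Y501.SY

/-- CHART: forms and endomorphisms in a chart. -/
def S_CHART : Prop := ∀ (d : ℕ) (X : Type) [TopologicalSpace X] [ChartedSpace (E d) X]
  [IsManifold (𝓡 d) ∞ X] (J : End d X) (σ : Form d X 2) (x₀ q : X),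
  q ∈ (chartAt (E d) x₀).source →
  (∀ v : TangentSpace (𝓡 d) q,
    inChart J x₀ (chartAt (E d) x₀ q) (mfderiv (𝓡 d) (𝓡 d) (chartAt (E d) x₀) q v) =
      mfderiv (𝓡 d) (𝓡 d) (chartAt (E d) x₀) q (J q v)) ∧
  (∀ v w : TangentSpace (𝓡 d) q,
    pb (chartAt (E d) x₀).symm σ (chartAt (E d) x₀ q)
      ![mfderiv (𝓡 d) (𝓡 d) (chartAt (E d) x₀) q v,
        mfderiv (𝓡 d) (𝓡 d) (chartAt (E d) x₀) q w] = σ q ![v, w]) ∧
  (∀ u : E d, ∃ v : TangentSpace (𝓡 d) q,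
    mfderiv (𝓡 d) (𝓡 d) (chartAt (E d) x₀) q v = u) ∧
  ∀ v : TangentSpace (𝓡 d) q, v ≠ 0 → mfderiv (𝓡 d) (𝓡 d) (chartAt (E d) x₀) q v ≠ 0

/-- GLOB: a smooth function in a chart extends from a neighbourhood of a point. -/
def S_GLOB : Prop := ∀ (d : ℕ) (X : Type) [TopologicalSpace X] [ChartedSpace (E d) X]
  [IsManifold (𝓡 d) ∞ X] [T2Space X] (x₀ q : X) (V : Set (E d)) (g : E d → ℝ),
  IsOpen V → V ⊆ (chartAt (E d) x₀).target → ContDiffOn ℝ ∞ g V →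
  q ∈ (chartAt (E d) x₀).source → chartAt (E d) x₀ q ∈ V →
  ∃ (G : X → ℝ) (O : Set X), SmoothFun (d := d) G ∧ IsOpen O ∧ q ∈ O ∧
    O ⊆ (chartAt (E d) x₀).source ∧
    (∀ x ∈ O, chartAt (E d) x₀ x ∈ V ∧ G x = g (chartAt (E d) x₀ x)) ∧
    ∀ x ∈ O, ∀ v : TangentSpace (𝓡 d) x,
      dd G x v = fderiv ℝ g (chartAt (E d) x₀ x)
        (mfderiv (𝓡 d) (𝓡 d) (chartAt (E d) x₀) x v)

end Pool.Agent.Y517.NT
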