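import Pool.Agent.Y517.NT.Sys2
import Pool.Agent.Y686.NT.Abs

/-!
# Project NT: the support of an obstruction (adapted from `Y686/NT/Abs` of helper686)
-/

set_option autoImplicit false

open Set Filter Topology MeasureTheory
open scoped ContDiff

noncomputable section

namespace Pool.Agent.Y517.NT

open Pool.Agent.Y686.NT

/-- If no exact form makes `τ` positive there is a closed set `T` of null lines on which all null
constant functions are constant, no part of which is negligible, and on which no exact form makes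
`τ` positive. -/
theorem dich (hHB : S_HB) (X K : Type) [TopologicalSpace X] [TopologicalSpace K] [CompactSpace X]
    [T2Space X] [SecondCountableTopology X] [CompactSpace K] [T2Space K]
    [SecondCountableTopology K] (s : Sys X K) (τ : C(K, ℝ))
    (hcon : ¬ ∃ η : K → ℝ, s.Ex η ∧ ∀ z, 0 < τ z + η z) :
    ∃ T : Set K, IsClosed T ∧ T.Nonempty ∧
      (∀ F, s.NC F → ∀ z ∈ T, ∀ z' ∈ T, F (s.p z) = F (s.p z')) ∧
      (∀ (N O : Set K), s.Neg N → IsOpen O → (T ∩ O).Nonempty → ¬ T ∩ O ⊆ N) ∧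
      (∀ (η : K → ℝ) (N : Set K), s.Ex η → s.Neg N → ∃ z ∈ T, z ∉ N ∧ τ z + η z ≤ 0) ∧
      ∀ (n : ℕ) (f g : Fin n → X → ℝ) (φ : X → ℝ) (N : Set K), (∀ i, f i ∈ s.S) →
        (∀ i, g i ∈ s.S) → φ ∈ s.S → s.Neg N →
        (∀ z ∈ T, φ (s.p z) ≠ 0 → ∑ i, f i (s.p z) * s.D (g i) z = 0 ∧
          ∑ i, f i (s.p z) * s.D' (g i) z = 0) →
        (∀ z ∈ T, φ (s.p z) ≠ 0 → z ∉ N → 0 ≤ ∑ i, s.br (f i) (g i) z) →
        ∀ z ∈ T, φ (s.p z) ≠ 0 → ∑ i, s.br (f i) (g i) z = 0 := by
  let _ : MeasurableSpace K := borel K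
  have _ : BorelSpace K := ⟨rfl⟩
  push Not at hcon
  obtain ⟨μ, hμ, hμE, hμτ, hμF⟩ := hHB K (EE s) τ (fun η hη => hcon η hη)
  have hint : ∀ f : K → ℝ, Continuous f → Integrable f μ := fun f hf =>
    hf.integrable_of_hasCompactSupport (HasCompactSupport.of_compactSpace f)
  have hCl : s.Cl μ := by
    intro f hf g hg
    have h1 : (⟨s.br f g, br_cont s hf hg⟩ : C(K, ℝ)) ∈ EE s := by
      refine ⟨1, fun _ => f, fun _ => g, fun _ => hf, fun _ => hg, fun z => ?_⟩
      simp
    exact hμE _ h1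
  -- the support
  have hsupp : μ.support ∈ ae μ := Measure.support_mem_ae
  have hconst : ∀ F, s.NC F → ∃ c : ℝ, ∀ z ∈ μ.support, F (s.p z) = c := by
    intro F hF
    let Fp : C(K, ℝ) := ⟨fun z => F (s.p z), (s.S_cont F hF.1).comp s.p_cont⟩
    obtain ⟨c, hc⟩ := hμF Fp (fun η hη => mult s hF Fp (fun z => rfl) hη)
    refine ⟨c, fun z hz => ?_⟩
    by_contra hne
    have hopen : IsOpen {z : K | Fp z ≠ c} := isOpen_ne_fun Fp.continuous continuous_const
    have h1 := (Measure.mem_support_iff_forall z).1 hz _ (hopen.mem_nhds hne)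
    have h2 : μ {z : K | Fp z ≠ c} = 0 := by
      rw [ae_iff] at hc
      exact hc
    exact h1.ne' h2
  refine ⟨μ.support, Measure.isClosed_support, ?_, ?_, ?_, ?_, ?_⟩
  · have h1 : ∀ᵐ z ∂μ, z ∈ μ.support := hsupp
    exact h1.exists
  · intro F hF z hz z' hz'
    obtain ⟨c, hc⟩ := hconst F hF
    rw [hc z hz, hc z' hz']
  · rintro N O hN hO ⟨z, hz, hzO⟩ hsub
    have h1 := (Measure.mem_support_iff_forall z).1 hz _ (hO.mem_nhds hzO)
    have h2 : μ (O ∩ μ.support) = 0 := by
      refine measure_mono_null ?_ (hN _ μ hCl)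
      rw [inter_comm]
      exact hsub
    have h3 : μ (O \ μ.support) = 0 :=
      measure_mono_null (fun y hy => hy.2) (mem_ae_iff.1 hsupp)
    have h4 : μ O = 0 := by
      rw [← inter_union_diff O μ.support]
      exact measure_union_null h2 h3
    exact h1.ne' h4
  · intro η N hη hN
    by_contra hno
    push Not at hno
    have hηc : Continuous η := Ex.cont s hη
    have hpos : ∀ᵐ z ∂μ, 0 < τ z + η z := by
      have h3 : ∀ᵐ z ∂μ, z ∈ μ.support := hsupp
      have h4 : ∀ᵐ z ∂μ, z ∉ N := by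
        rw [ae_iff]
        simpa using hN _ μ hCl
      filter_upwards [h3, h4] with z hz3 hz4
      exact hno z hz3 hz4
    have hτc : Continuous τ := τ.continuous
    have hi : Integrable (fun z => τ z + η z) μ := hint _ (hτc.add hηc)
    have h1 : 0 < ∫ z, (τ z + η z) ∂μ := by
      rw [integral_pos_iff_support_of_nonneg_ae (hpos.mono fun z hz => hz.le) hi]
      have h2 : ∀ᵐ z ∂μ, z ∈ Function.support (fun z => τ z + η z) :=
        hpos.mono fun z hz => hz.ne'
      have h3 : μ (Function.support (fun z => τ z + η z)) = 1 := by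
        rw [← prob_compl_eq_zero_iff₀]
        · exact mem_ae_iff.1 h2
        · exact (measurableSet_support (hτc.add hηc).measurable).nullMeasurableSet
      rw [h3]
      exact one_pos
    have h2 : ∫ z, (τ z + η z) ∂μ = (∫ z, τ z ∂μ) + ∫ z, η z ∂μ :=
      integral_add (hint _ hτc) (hint _ hηc)
    have h3 : ∫ z, η z ∂μ = 0 := hμE ⟨η, hηc⟩ hη
    rw [h2, h3, add_zero] at h1
    exact absurd h1 (not_lt.2 hμτ)
  · intro n f g φ N hf hg hφ hN hB hE z₀ hz₀ hφz₀
    have hF : ContDiff ℝ ∞ (fun q : ℝ × ℝ => q.1 ^ 2 * q.2) := by fun_prop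
    have hF' : ∀ q h : ℝ × ℝ, fderiv ℝ (fun q : ℝ × ℝ => q.1 ^ 2 * q.2) q h =
        2 * q.1 * h.1 * q.2 + q.1 ^ 2 * h.2 := by
      intro q h
      have h1 : HasFDerivAt (fun q : ℝ × ℝ => q.1 ^ 2 * q.2)
          ((q.1 ^ 2) • (ContinuousLinearMap.snd ℝ ℝ ℝ) +
            q.2 • ((2 * q.1 ^ 1) • (ContinuousLinearMap.fst ℝ ℝ ℝ))) q := by
        have h2 := (hasFDerivAt_fst (𝕜 := ℝ) (p := q)).pow 2
        have h3 : HasFDerivAt (fun q : ℝ × ℝ => q.1 ^ 2 * q.2) _ q :=
          h2.mul (hasFDerivAt_snd (𝕜 := ℝ) (p := q))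
        refine h3.congr_fderiv ?_
        ext <;> simp
      rw [h1.fderiv]
      simp
      ring
    have hfS : ∀ i, (fun x => φ x ^ 2 * f i x) ∈ s.S := fun i => s.comp _ hF φ hφ (f i) (hf i)
    have hbr : ∀ z, ∑ i, s.br (fun x => φ x ^ 2 * f i x) (g i) z =
        φ (s.p z) ^ 2 * ∑ i, s.br (f i) (g i) z + 2 * φ (s.p z) *
          (s.D φ z * (∑ i, f i (s.p z) * s.D' (g i) z) -
            s.D' φ z * ∑ i, f i (s.p z) * s.D (g i) z) := by
      intro z
      have h1 : ∀ i, s.br (fun x => φ x ^ 2 * f i x) (g i) z =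
          φ (s.p z) ^ 2 * s.br (f i) (g i) z + 2 * φ (s.p z) *
            (s.D φ z * (f i (s.p z) * s.D' (g i) z) -
              s.D' φ z * (f i (s.p z) * s.D (g i) z)) := by
        intro i
        have h2 := s.D_comp _ hF φ hφ (f i) (hf i) z
        have h3 := s.D'_comp _ hF φ hφ (f i) (hf i) z
        rw [hF'] at h2 h3
        unfold Sys.br
        rw [h2, h3]
        ring
      simp only [h1]
      rw [Finset.sum_add_distrib, ← Finset.mul_sum, ← Finset.mul_sum, Finset.sum_sub_distrib,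
        ← Finset.mul_sum, ← Finset.mul_sum]
    have hEc : Continuous fun z => ∑ i, s.br (f i) (g i) z :=
      continuous_finsetSum _ fun i _ => br_cont s (hf i) (hg i)
    have hφc : Continuous fun z => φ (s.p z) ^ 2 :=
      ((s.S_cont φ hφ).comp s.p_cont).pow 2
    have hprod : Continuous fun z => φ (s.p z) ^ 2 * ∑ i, s.br (f i) (g i) z := hφc.mul hEc
    have hT : ∀ᵐ z ∂μ, z ∈ μ.support := hsupp
    have hNae : ∀ᵐ z ∂μ, z ∉ N := by
      rw [ae_iff]
      simpa using hN _ μ hCl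
    have hint0 : ∫ z, φ (s.p z) ^ 2 * ∑ i, s.br (f i) (g i) z ∂μ = 0 := by
      have h1 : ∫ z, ∑ i, s.br (fun x => φ x ^ 2 * f i x) (g i) z ∂μ = 0 := by
        rw [integral_finsetSum]
        · exact Finset.sum_eq_zero fun i _ => hCl _ (hfS i) _ (hg i)
        · exact fun i _ => hint _ (br_cont s (hfS i) (hg i))
      rw [← h1]
      refine integral_congr_ae ?_
      filter_upwards [hT] with z hz
      rw [hbr z]
      by_cases h0 : φ (s.p z) = 0
      · rw [h0]; ring
      · obtain ⟨h2, h3⟩ := hB z hz h0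
        rw [h2, h3]; ring
    have hnn : 0 ≤ᵐ[μ] fun z => φ (s.p z) ^ 2 * ∑ i, s.br (f i) (g i) z := by
      filter_upwards [hT, hNae] with z hz hzN
      by_cases h0 : φ (s.p z) = 0
      · simp [h0]
      · exact mul_nonneg (sq_nonneg _) (hE z hz h0 hzN)
    have hzero := (integral_eq_zero_iff_of_nonneg_ae hnn (hint _ hprod)).1 hint0
    by_contra hne
    have hO : IsOpen {z | φ (s.p z) ^ 2 * ∑ i, s.br (f i) (g i) z ≠ 0} :=
      isOpen_ne_fun hprod continuous_const
    have h1 := (Measure.mem_support_iff_forall z₀).1 hz₀ _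
      (hO.mem_nhds (mul_ne_zero (pow_ne_zero 2 hφz₀) hne))
    refine h1.ne' ?_
    have h2 := ae_iff.1 hzero
    exact h2

end Pool.Agent.Y517.NT
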