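import Mathlib

/-!
# Project NT: the analytic family of linear maps whose kernels are the tangent null vectors
(statement, Mathlib only)
-/

set_option autoImplicit false

open Set Filter Topology

noncomputable section

namespace Pool.Agent.Y517.NT

/-- FAM: the equations of the tangent null vectors. -/
def S_FAM : Prop := ∀ (d r : ℕ) (V : Set (EuclideanSpace ℝ (Fin d)))
  (s : EuclideanSpace ℝ (Fin d) → (EuclideanSpace ℝ (Fin d)) [⋀^Fin 2]→L[ℝ] ℝ)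
  (Jh : EuclideanSpace ℝ (Fin d) → EuclideanSpace ℝ (Fin d) →L[ℝ] EuclideanSpace ℝ (Fin d))
  (g : Fin r → EuclideanSpace ℝ (Fin d) → ℝ),
  AnalyticOnNhd ℝ s V → AnalyticOnNhd ℝ Jh V → (∀ i, AnalyticOnNhd ℝ (g i) V) →
  (∀ y ∈ V, ∀ u, 0 ≤ s y ![u, Jh y u]) →
  ∃ (N : ℕ) (A : EuclideanSpace ℝ (Fin d) → EuclideanSpace ℝ (Fin d) →L[ℝ] (Fin N → ℝ)),
    AnalyticOnNhd ℝ A V ∧ ∀ y ∈ V, ∀ u, A y u = 0 ↔
      s y ![u, Jh y u] = 0 ∧
        ∀ i, fderiv ℝ (g i) y u = 0 ∧ fderiv ℝ (g i) y (Jh y u) = 0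

end Pool.Agent.Y517.NT
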