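import Pool.Agent.Y517.NT.Rem
import Pool.Agent.Y306.NT.PairT

/-!
# Project NT: the two criteria
-/

set_option autoImplicit false

open Set Filter Topology MeasureTheory
open scoped Manifold ContDiff

noncomputable section

namespace Pool.Agent.Y517.NT

open Pool.Agent.Y501.SY

section defs

variable {d : ℕ} {X : Type} [TopologicalSpace X] [ChartedSpace (E d) X]

/-- `τ'` is cohomologous to `τ`. -/
def Coh (τ τ' : Form d X 2) : Prop := ∃ α : Form d X 1, IsSmooth α ∧ IsD α (τ' - τ)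

/-- For some `τ'` cohomologous to `τ` the forms `σ + ε τ'` are, for all small positive `ε`, smooth
closed forms taming `J`. -/
def Tamed (J : End d X) (σ τ : Form d X 2) : Prop :=
  ∃ τ' : Form d X 2, Coh τ τ' ∧ ∃ ε₀ : ℝ, 0 < ε₀ ∧ ∀ ε : ℝ, 0 < ε → ε < ε₀ →
    IsSmooth (σ + ε • τ') ∧ IsClosedForm (σ + ε • τ') ∧ ∀ x, TamesAt (σ + ε • τ') J x

/-- The connected component of `z` in the set of the points of the fibre of `f` through `z` where
`σ` does not tame `J`. -/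
def FC (σ : Form d X 2) (J : End d X) {Y : Type} (f : X → Y) (z : X) : Set X :=
  connectedComponentIn ({x | ¬ TamesAt σ J x} ∩ f ⁻¹' {f z}) z

/-- An obstruction: a nonempty closed set `C` contained in a single `FC`, and over each of its
points a nonempty set `T` of null vectors `v ≠ 0` of `σ` with `v` and `J v` tangent to `C`, no part
of which over an open set meeting `C` is removable, such that no form cohomologous to `τ` is
positive on all `(v, J v)` with `v` in `T` outside of a removable set, and such that for all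
one-forms `β` which vanish on `v` and `J v` for all `v` in `T` over an open set `U` the following
holds over `U`: if `dβ(v, J v) ≥ 0` for all `v` in `T` outside of a removable set then
`dβ(v, J v) = 0` for all `v` in `T`, and in any case there is over each point `x` of `C` in `U` a
vector `v` in `T` with `dβ(v, J v) ≤ 0`. -/
structure Obstruction (J : End d X) (σ τ : Form d X 2) {Y : Type} (f : X → Y) (C : Set X)
    (T : (x : X) → TangentSpace (𝓡 d) x → Prop) : Prop where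
  closed : IsClosed C
  nonempty : C.Nonempty
  comp : ∀ z ∈ C, C ⊆ FC σ J f z
  total : ∀ x ∈ C, ∃ v, T x v
  null : ∀ x v, T x v → x ∈ C ∧ v ≠ 0 ∧ σ x ![v, J x v] = 0
  tangent : ∀ x v, T x v → v ∈ ZT (d := d) C x ∧ J x v ∈ ZT (d := d) C x
  thick : ∀ U : Set X, IsOpen U → (C ∩ U).Nonempty → ¬ Removable σ J fun x v => x ∈ U ∧ T x v
  notPos : ∀ (τ' : Form d X 2) (W : (x : X) → TangentSpace (𝓡 d) x → Prop), Coh τ τ' →
    Removable σ J W → ∃ x v, T x v ∧ ¬ W x v ∧ τ' x ![v, J x v] ≤ 0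
  levi : ∀ (U : Set X) (β : Form d X 1) (η : Form d X 2)
    (W : (x : X) → TangentSpace (𝓡 d) x → Prop), IsOpen U → IsSmooth β → IsD β η →
    Removable σ J W →
    (∀ x v, x ∈ U → T x v → β x ![v] = 0 ∧ β x ![J x v] = 0) →
    (∀ x v, x ∈ U → T x v → ¬ W x v → 0 ≤ η x ![v, J x v]) →
    ∀ x v, x ∈ U → T x v → η x ![v, J x v] = 0
  leviAt : ∀ (U : Set X) (β : Form d X 1) (η : Form d X 2), IsOpen U → IsSmooth β →
    IsD β η → (∀ x v, x ∈ U → T x v → β x ![v] = 0 ∧ β x ![J x v] = 0) →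
    ∀ x ∈ C ∩ U, ∃ v, T x v ∧ η x ![v, J x v] ≤ 0

end defs

section

variable {d : ℕ} {X : Type} [TopologicalSpace X] [ChartedSpace (E d) X] [IsManifold (𝓡 d) ∞ X]
  [CompactSpace X] [T2Space X]

theorem tamed_of_pos {J : End d X} (hJ : IsAlmostComplex J) {σ τ : Form d X 2}
    (hσ : IsSmooth σ) (hσc : IsClosedForm σ) (hτ : IsSmooth τ) (hτc : IsClosedForm τ)
    (hpos : ∀ (x : X) (v : TangentSpace (𝓡 d) x), 0 ≤ σ x ![v, J x v])
    {α : Form d X 1} {η : Form d X 2} (hpair : Pair α η)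
    (h : ∀ (x : X) (v : TangentSpace (𝓡 d) x), v ≠ 0 → σ x ![v, J x v] = 0 →
        0 < (τ + η) x ![v, J x v]) : Tamed J σ τ := by
  obtain ⟨hα, hηs, hαη, hηc⟩ := hpair.props Pool.Agent.Y484.SY.t_GEN
  have hs : IsSmooth (τ + η) := hτ.add hηs
  have hcl : IsClosedForm (τ + η) := by
    have h1 := hτc.add hηc hτ hηs
    rwa [add_zero] at h1
  obtain ⟨ε₀, hε₀, ht⟩ := unif isCompact_univ
    (fun ε y => ∀ ε' : ℝ, 0 < ε' → ε' ≤ ε → TamesAt (σ + ε' • (τ + η)) J y)
    (fun ε ε' y hle hp ε'' h0 h1 => hp ε'' h0 (h1.trans hle))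
    (fun x _ => Pool.Agent.Y455.SY.t_NULL d X J hJ σ (τ + η) hσ hs hpos x (h x))
  refine ⟨τ + η, ⟨α, hα, by rwa [add_sub_cancel_left]⟩, ε₀, hε₀, fun ε hε hεε₀ =>
    ⟨hσ.add (hs.smul ε), ?_, fun x => ht x (mem_univ x) ε hε hεε₀.le⟩⟩
  have h1 := hσc.add (hcl.smul ε) hσ (hs.smul ε)
  have h2 : (0 : Form d X 3) + ε • (0 : Form d X 3) = 0 := by rw [smul_zero, add_zero]
  rw [h2] at h1
  exact h1

theorem pos_of_tamed {J : End d X} {σ τ' : Form d X 2} {ε₀ : ℝ} (hε₀ : 0 < ε₀)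
    (h : ∀ ε : ℝ, 0 < ε → ε < ε₀ → ∀ x, TamesAt (σ + ε • τ') J x)
    (x : X) (v : TangentSpace (𝓡 d) x) (hv : v ≠ 0) (h0 : σ x ![v, J x v] = 0) :
    0 < τ' x ![v, J x v] := by
  have h1 := h (ε₀ / 2) (half_pos hε₀) (half_lt_self hε₀) x v hv
  have h2 : (σ + (ε₀ / 2) • τ') x ![v, J x v] =
      σ x ![v, J x v] + (ε₀ / 2) * τ' x ![v, J x v] := rfl
  rw [h2, h0, zero_add] at h1
  exact (mul_pos_iff_of_pos_left (half_pos hε₀)).1 h1

theorem Pair.exists_sum {α : Form d X 1} {η : Form d X 2} (h : Pair α η) :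
    ∃ (n : ℕ) (f g : Fin n → X → ℝ), (∀ i, SmoothFun (d := d) (f i)) ∧
      (∀ i, SmoothFun (d := d) (g i)) ∧ α = ∑ i, fdg (f i) (g i) ∧
      η = ∑ i, dfdg (f i) (g i) := by
  induction h with
  | zero => exact ⟨0, fun i => i.elim0, fun i => i.elim0, fun i => i.elim0,
      fun i => i.elim0, by simp, by simp⟩
  | gen a b ha hb => exact ⟨1, fun _ => a, fun _ => b, fun _ => ha, fun _ => hb, by simp, by simp⟩
  | add α α' η η' _ _ ih ih' =>
    obtain ⟨n, a, b, ha, hb, h1, h2⟩ := ih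
    obtain ⟨n', a', b', ha', hb', h1', h2'⟩ := ih'
    refine ⟨n + n', Fin.append a a', Fin.append b b', ?_, ?_, ?_, ?_⟩
    · intro i
      refine Fin.addCases (fun i => ?_) (fun i => ?_) i
      · rw [Fin.append_left]; exact ha i
      · rw [Fin.append_right]; exact ha' i
    · intro i
      refine Fin.addCases (fun i => ?_) (fun i => ?_) i
      · rw [Fin.append_left]; exact hb i
      · rw [Fin.append_right]; exact hb' i
    · rw [Fin.sum_univ_add]
      simp only [Fin.append_left, Fin.append_right]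
      rw [h1, h1']
    · rw [Fin.sum_univ_add]
      simp only [Fin.append_left, Fin.append_right]
      rw [h2, h2']

theorem sum_fdg_apply {n : ℕ} (f g : Fin n → X → ℝ) (x : X) (v : TangentSpace (𝓡 d) x) :
    (∑ i, fdg (d := d) (f i) (g i)) x ![v] = ∑ i, f i x * dd (g i) x v := by
  rw [Finset.sum_apply, ContinuousAlternatingMap.sum_apply]
  exact Finset.sum_congr rfl fun i _ => fdg_apply (f i) (g i) x v

theorem sum_dfdg_apply {n : ℕ} (f g : Fin n → X → ℝ) (x : X) (v w : TangentSpace (𝓡 d) x) :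
    (∑ i, dfdg (d := d) (f i) (g i)) x ![v, w] =
      ∑ i, (dd (f i) x v * dd (g i) x w - dd (f i) x w * dd (g i) x v) := by
  rw [Finset.sum_apply, ContinuousAlternatingMap.sum_apply]
  exact Finset.sum_congr rfl fun i _ => dfdg_apply (f i) (g i) x v w

theorem crit {J : End d X} (hJ : IsAlmostComplex J) {m : ℕ} {Y : Type}
    [TopologicalSpace Y] [ChartedSpace (E m) Y] [IsManifold (𝓡 m) ∞ Y] [T2Space Y] {f : X → Y}
    (hf : ContMDiff (𝓡 d) (𝓡 m) ∞ f) {σ τ : Form d X 2} (hσ : IsSmooth σ)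
    (hσc : IsClosedForm σ) (hτ : IsSmooth τ) (hτc : IsClosedForm τ)
    (hpos : ∀ (x : X) (v : TangentSpace (𝓡 d) x), 0 ≤ σ x ![v, J x v])
    (hker : ∀ (x : X) (v : TangentSpace (𝓡 d) x), σ x ![v, J x v] = 0 →
      mfderiv (𝓡 d) (𝓡 m) f x v = 0) :
    Tamed J σ τ ↔ ∀ z : X, ¬ TamesAt σ J z → ∃ (τ' : Form d X 2)
      (W : (x : X) → TangentSpace (𝓡 d) x → Prop), Coh τ τ' ∧ Removable σ J W ∧
      ∀ x ∈ FC σ J f z, ∀ v ∈ ZT (d := d) (FC σ J f z) x, J x v ∈ ZT (d := d) (FC σ J f z) x →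
        v ≠ 0 → σ x ![v, J x v] = 0 → W x v ∨ 0 < τ' x ![v, J x v] := by
  constructor
  · rintro ⟨τ', hcoh, ε₀, hε₀, h⟩ z _
    exact ⟨τ', fun _ _ => False, hcoh, Removable.false, fun x _ v _ _ hv h0 =>
      Or.inr (pos_of_tamed hε₀ (fun ε hε hε' => (h ε hε hε').2.2) x v hv h0)⟩
  · intro H
    obtain ⟨α, η, hpair, hη⟩ := exact_pos abs2 thin zone Pool.Agent.Y232.NT.Chain.t_CHAIN
      Pool.Agent.Y655.NT.t_SPAN Pool.Agent.Y161.NT.t_ROT Pool.Agent.Y815.NT.t_KSP
      Pool.Agent.Y455.SY.t_PERT Pool.Agent.Y484.SY.t_GEN hJ hf hσ hτ hker (by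
        intro z hz
        obtain ⟨τ', W, ⟨α, hα, hd⟩, hW, h⟩ := H z hz
        refine ⟨α, τ' - τ, _, Pool.Agent.Y306.NT.t_PAIR d X α (τ' - τ) hα hd,
          hW.or (removable_transverse hJ hσ (FC σ J f z)), ?_⟩
        intro x hx v hv h0
        rw [add_sub_cancel]
        by_cases ht : v ∈ ZT (d := d) (FC σ J f z) x ∧ J x v ∈ ZT (d := d) (FC σ J f z) x
        · rcases h x hx v ht.1 ht.2 hv h0 with h1 | h1
          · exact Or.inl (Or.inl h1)
          · exact Or.inr h1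
        · exact Or.inl (Or.inr ⟨hx, ht⟩))
    exact tamed_of_pos hJ hσ hσc hτ hτc hpos hpair hη

theorem obst {J : End d X} (hJ : IsAlmostComplex J) {m : ℕ} {Y : Type}
    [TopologicalSpace Y] [ChartedSpace (E m) Y] [IsManifold (𝓡 m) ∞ Y] [T2Space Y] {f : X → Y}
    (hf : ContMDiff (𝓡 d) (𝓡 m) ∞ f) {σ τ : Form d X 2} (hσ : IsSmooth σ)
    (hσc : IsClosedForm σ) (hτ : IsSmooth τ) (hτc : IsClosedForm τ)
    (hpos : ∀ (x : X) (v : TangentSpace (𝓡 d) x), 0 ≤ σ x ![v, J x v])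
    (hker : ∀ (x : X) (v : TangentSpace (𝓡 d) x), σ x ![v, J x v] = 0 →
      mfderiv (𝓡 d) (𝓡 m) f x v = 0) :
    Tamed J σ τ ↔ ¬ ∃ (C : Set X) (T : (x : X) → TangentSpace (𝓡 d) x → Prop),
      Obstruction J σ τ f C T := by
  constructor
  · rintro ⟨τ', hcoh, ε₀, hε₀, h⟩ ⟨C, T, hT⟩
    obtain ⟨x, v, hxv, _, hle⟩ := hT.notPos τ' (fun _ _ => False) hcoh Removable.false
    obtain ⟨_, hv, h0⟩ := hT.null x v hxv
    exact absurd (pos_of_tamed hε₀ (fun ε hε hε' => (h ε hε hε').2.2) x v hv h0)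
      (not_lt.2 hle)
  · intro hno
    by_contra hnt
    apply hno
    have hC := Pool.Agent.Y232.NT.Chain.t_CHAIN
    have hS := Pool.Agent.Y655.NT.t_SPAN
    have hR := Pool.Agent.Y161.NT.t_ROT
    have hP := Pool.Agent.Y455.SY.t_PERT
    have _ : SecondCountableTopology X := ChartedSpace.secondCountable_of_sigmaCompact (E d) X
    obtain ⟨K, mK, cK, p, v, hp, hv, hnull, hc, hη, hsurj⟩ :=
      Pool.Agent.Y815.NT.t_KSP d X J hJ σ hσ
    have _ : SecondCountableTopology K := EMetric.secondCountable_of_sigmaCompact K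
    set s := sysOf hC hS hR hJ p v hp hv hc with hs
    have hD : IsCompact {x | ¬ TamesAt σ J x} := (isClosed_degenerate hP hJ hσ).isCompact
    have hcon : ¬ ∃ η : K → ℝ, s.Ex η ∧ ∀ z, 0 <
        (⟨fun z => τ (p z) ![v z, J (p z) (v z)], hη τ hτ⟩ : C(K, ℝ)) z + η z := by
      rintro ⟨η, ⟨n, a, b, ha, hb, he⟩, hηpos⟩
      apply hnt
      refine tamed_of_pos hJ hσ hσc hτ hτc hpos
        (Pair.sum Finset.univ (fun i _ => Pair.gen _ _ (ha i) (hb i))) ?_
      intro x w hw hw0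
      obtain ⟨z, t, ht, hpz, hform⟩ := hsurj x w hw hw0
      rw [hform]
      refine mul_pos ht ?_
      have h1 := hηpos z
      have h2 : (∑ i, dfdg (d := d) (a i) (b i)) (p z) ![v z, J (p z) (v z)] = η z := by
        rw [he, Finset.sum_apply, ContinuousAlternatingMap.sum_apply]
        exact Finset.sum_congr rfl fun i _ =>
          dfdg_apply (a i) (b i) (p z) (v z) (J (p z) (v z))
      have h3 : (τ + ∑ i, dfdg (d := d) (a i) (b i)) (p z) ![v z, J (p z) (v z)] =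
          τ (p z) ![v z, J (p z) (v z)] + η z := by
        rw [← h2]
        rfl
      rw [h3]
      exact h1
    obtain ⟨T, hTc, hTn, hTconst, hTthick, hTpos, hTlevi⟩ := dich Pool.Agent.Y978.NT.t_HB X K s
      ⟨fun z => τ (p z) ![v z, J (p z) (v z)], hη τ hτ⟩ hcon
    have hneg : ∀ {W : (x : X) → TangentSpace (𝓡 d) x → Prop}, Removable σ J W →
        s.Neg {z | W (p z) (v z)} := fun hW =>
      neg_of_removable thin zone hC hS hR hJ p v hp hv hc hnull hW
    have htan : ∀ z ∈ T, ∀ g : X → ℝ, SmoothFun (d := d) g → (∀ x ∈ p '' T, g x = 0) →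
        dd g (p z) (v z) = 0 ∧ dd g (p z) (J (p z) (v z)) = 0 := by
      intro z hz g hg hgT
      by_contra hne
      have hO : IsOpen {w : K | dd g (p w) (v w) ≠ 0 ∨ dd g (p w) (J (p w) (v w)) ≠ 0} :=
        (isOpen_ne_fun (hc g hg).1 continuous_const).union
          (isOpen_ne_fun (hc g hg).2 continuous_const)
      refine hTthick {w | g (s.p w) ∈ ({0} : Set ℝ) ∧ (s.D g w ≠ 0 ∨ s.D' g w ≠ 0)} _
        (slice_any zone s {0} (by simp) g hg) hO ⟨z, hz, ?_⟩ ?_
      · by_contra hno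
        apply hne
        rw [mem_setOf_eq] at hno
        push Not at hno
        exact hno
      · rintro w ⟨hw, hwO⟩
        exact ⟨hgT _ ⟨w, hw, rfl⟩, hwO⟩
    have hlevi : ∀ (U : Set X) (β : Form d X 1) (η : Form d X 2) (N : Set K), IsOpen U →
        IsSmooth β → IsD β η → s.Neg N →
        (∀ z ∈ T, p z ∈ U → β (p z) ![v z] = 0 ∧ β (p z) ![J (p z) (v z)] = 0) →
        (∀ z ∈ T, p z ∈ U → z ∉ N → 0 ≤ η (p z) ![v z, J (p z) (v z)]) →
        ∀ z ∈ T, p z ∈ U → η (p z) ![v z, J (p z) (v z)] = 0 := by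
      intro U β η N hU hβ hβη hN h1 h2 z hz hzU
      obtain ⟨n, a, b, ha, hb, rfl, rfl⟩ :=
        Pair.exists_sum (Pool.Agent.Y306.NT.t_PAIR d X β η hβ hβη)
      obtain ⟨φ, hφU, hφ, _⟩ := hU.exists_contMDiff_support_eq (n := ⊤) (𝓡 d)
      have hφ' : ∀ x, φ x ≠ 0 ↔ x ∈ U := fun x => by rw [← hφU]; rfl
      have h3 := hTlevi n a b φ N ha hb hφ hN
        (fun w hw hwφ => by
          have h4 := h1 w hw ((hφ' _).1 hwφ)
          rw [sum_fdg_apply, sum_fdg_apply] at h4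
          exact h4)
        (fun w hw hwφ hwN => by
          have h4 := h2 w hw ((hφ' _).1 hwφ) hwN
          rw [sum_dfdg_apply] at h4
          exact h4) z hz ((hφ' _).2 hzU)
      rw [sum_dfdg_apply]
      exact h3
    refine ⟨p '' T, fun x u => ∃ z ∈ T, ∃ h : p z = x, h ▸ v z = u, ?_, ?_, ?_, ?_, ?_, ?_,
      ?_, ?_, ?_, ?_⟩
    · exact (hTc.isCompact.image hp).isClosed
    · exact hTn.image p
    · rintro _ ⟨z₀, hz₀, rfl⟩ _ ⟨z, hz, rfl⟩
      by_contra hcomp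
      obtain ⟨u, hu, hu0, huz, huU, hud⟩ := sepfun hf hD (z := p z₀)
        (null_ne_tames (hv z₀) (hnull z₀)) (U := {p z}ᶜ) isOpen_compl_singleton (by
          intro x hx
          rw [mem_compl_iff, mem_singleton_iff]
          rintro rfl
          exact hcomp hx)
      have hNC : s.NC u := by
        refine ⟨hu, fun w => ⟨?_, ?_⟩⟩
        · exact hud (p w) (null_ne_tames (hv w) (hnull w)) (v w) (hker (p w) (v w) (hnull w))
        · refine hud (p w) (null_ne_tames (hv w) (hnull w)) (J (p w) (v w))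
            (hker (p w) (J (p w) (v w)) ?_)
          rw [null_J hJ]
          exact hnull w
      have h1 : u (p z) = u (p z₀) := hTconst u hNC z hz z₀ hz₀
      have h2 : u (p z) ≠ 0 := by
        rw [h1]
        exact huz.ne'
      exact huU (p z) (null_ne_tames (hv z) (hnull z)) h2 rfl
    · rintro _ ⟨z, hz, rfl⟩
      exact ⟨v z, z, hz, rfl, rfl⟩
    · rintro _ _ ⟨z, hz, rfl, rfl⟩
      exact ⟨⟨z, hz, rfl⟩, hv z, hnull z⟩
    · rintro _ _ ⟨z, hz, rfl, rfl⟩
      exact ⟨fun g hg hgT => (htan z hz g hg hgT).1, fun g hg hgT => (htan z hz g hg hgT).2⟩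
    · rintro U hU ⟨_, ⟨z, hz, rfl⟩, hzU⟩ hrem
      refine hTthick _ (p ⁻¹' U) (hneg hrem) (hU.preimage hp) ⟨z, hz, hzU⟩ ?_
      rintro w ⟨hw, hwU⟩
      exact ⟨hwU, w, hw, rfl, rfl⟩
    · rintro τ' W ⟨α, hα, hd⟩ hW
      have hpair := Pool.Agent.Y306.NT.t_PAIR d X α (τ' - τ) hα hd
      have hEx : s.Ex fun z => (τ' - τ) (p z) ![v z, J (p z) (v z)] := by
        obtain ⟨n, a, b, ha, hb, _, he⟩ := Pair.exists_sum hpair
        refine ⟨n, a, b, ha, hb, fun z => ?_⟩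
        change (τ' - τ) (p z) ![v z, J (p z) (v z)] = _
        rw [he, sum_dfdg_apply]
        rfl
      obtain ⟨z, hz, hzW, hle⟩ := hTpos _ _ hEx (hneg hW)
      refine ⟨p z, v z, ⟨z, hz, rfl, rfl⟩, hzW, ?_⟩
      have h1 : τ' (p z) ![v z, J (p z) (v z)] = τ (p z) ![v z, J (p z) (v z)] +
          (τ' - τ) (p z) ![v z, J (p z) (v z)] := by
        have h2 : (τ' - τ) (p z) ![v z, J (p z) (v z)] =
            τ' (p z) ![v z, J (p z) (v z)] - τ (p z) ![v z, J (p z) (v z)] := rfl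
        rw [h2]
        ring
      rw [h1]
      exact hle
    · rintro U β η W hU hβ hβη hW h1 h2 _ _ hxU ⟨z, hz, rfl, rfl⟩
      exact hlevi U β η _ hU hβ hβη (hneg hW) (fun w hw hwU => h1 _ _ hwU ⟨w, hw, rfl, rfl⟩)
        (fun w hw hwU hwN => h2 _ _ hwU ⟨w, hw, rfl, rfl⟩ hwN) z hz hxU
    · rintro U β η hU hβ hβη h1 _ ⟨⟨z, hz, rfl⟩, hxU⟩
      by_contra hno
      push Not at hno
      have hηs : IsSmooth η := ((Pool.Agent.Y306.NT.t_PAIR d X β η hβ hβη).props
        Pool.Agent.Y484.SY.t_GEN).2.1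
      have hcl : IsClosed (p '' (T ∩ {w | η (p w) ![v w, J (p w) (v w)] ≤ 0})) :=
        ((hTc.inter (isClosed_le (hη η hηs) continuous_const)).isCompact.image hp).isClosed
      have h3 := hlevi (U ∩ (p '' (T ∩ {w | η (p w) ![v w, J (p w) (v w)] ≤ 0}))ᶜ) β η ∅
        (hU.inter hcl.isOpen_compl) hβ hβη (fun _ _ μ _ _ => measure_empty)
        (fun w hw hwU => h1 _ _ hwU.1 ⟨w, hw, rfl, rfl⟩)
        (fun w hw hwU _ => by
          by_contra hneg'
          push Not at hneg'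
          exact hwU.2 ⟨w, ⟨hw, hneg'.le⟩, rfl⟩) z hz ⟨hxU, by
            rintro ⟨w, ⟨hw, hw0⟩, hwz⟩
            have h5 : ∀ y : X, y = p z → ∀ u : TangentSpace (𝓡 d) y,
                (∃ z' ∈ T, ∃ h : p z' = y, h ▸ v z' = u) → 0 < η y ![u, J y u] := by
              rintro y rfl
              exact hno
            exact absurd (h5 (p w) hwz (v w) ⟨w, hw, rfl, rfl⟩) (not_lt.2 hw0)⟩
      exact absurd (hno (v z) ⟨z, hz, rfl, rfl⟩) (by rw [h3]; exact lt_irrefl _)

end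

end Pool.Agent.Y517.NT
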