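import Pool.Agent.Y517.NT.An2

/-!
# Project NT: the Levi condition in charts
-/

set_option autoImplicit false

open Set Filter Topology
open scoped Manifold ContDiff

noncomputable section

namespace Pool.Agent.Y517.NT.R

open Pool.Agent.Y501.SY Pool.Agent.Y340.NT

theorem expand {d : ℕ} (L : E d →L[ℝ] ℝ) (u : E d) :
    ∑ j, L (EuclideanSpace.single j (1 : ℝ)) * u j = L u := by
  have h1 := (EuclideanSpace.basisFun (Fin d) ℝ).sum_repr u
  conv_rhs => rw [← h1]
  rw [map_sum]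
  refine Finset.sum_congr rfl fun j _ => ?_
  rw [map_smul, EuclideanSpace.basisFun_apply, EuclideanSpace.basisFun_repr, smul_eq_mul, mul_comm]

theorem finrank_ker {d N : ℕ} (B : E d →L[ℝ] (Fin N → ℝ)) (K : E d →L[ℝ] E d) {u : E d}
    (hu : u ≠ 0) (hBu : B u = 0) (hBK : B (K u) = 0) (hKK : K (K u) = -u)
    (h : ∀ w, B w = 0 → ∃ a b : ℝ, w = a • u + b • K u) :
    Module.finrank ℝ (LinearMap.ker B.toLinearMap) = 2 := by
  have hli : LinearIndependent ℝ ![u, K u] := by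
    rw [LinearIndependent.pair_iff]
    intro s t hst
    have h1 : s • K u - t • u = 0 := by
      have h2 := congrArg K hst
      rw [map_add, map_smul, map_smul, hKK, map_zero, smul_neg, ← sub_eq_add_neg] at h2
      exact h2
    have h3 : (s ^ 2 + t ^ 2) • u = 0 := by
      have h4 : (s ^ 2 + t ^ 2) • u = s • (s • u + t • K u) - t • (s • K u - t • u) := by
        module
      rw [h4, hst, h1, smul_zero, smul_zero, sub_zero]
    have h5 : s ^ 2 + t ^ 2 = 0 := (smul_eq_zero.1 h3).resolve_right hu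
    constructor <;> nlinarith [sq_nonneg s, sq_nonneg t]
  have hker : LinearMap.ker B.toLinearMap = Submodule.span ℝ (Set.range ![u, K u]) := by
    apply le_antisymm
    · intro w hw
      obtain ⟨a, b, rfl⟩ := h w hw
      refine Submodule.add_mem _ (Submodule.smul_mem _ _ (Submodule.subset_span ⟨0, rfl⟩))
        (Submodule.smul_mem _ _ (Submodule.subset_span ⟨1, rfl⟩))
    · rw [Submodule.span_le]
      rintro _ ⟨i, rfl⟩
      fin_cases i
      · exact hBu
      · exact hBK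
  rw [hker, finrank_span_eq_card hli]
  rfl

section

variable {d : ℕ} {X : Type} [TopologicalSpace X] [ChartedSpace (E d) X] [IsManifold (𝓡 d) ∞ X]
  [CompactSpace X] [T2Space X]

/-- the Levi condition in a chart -/
theorem Obstruction.levi_chart {J : End d X} {σ τ : Form d X 2} {C : Set X}
    {T : (x : X) → TangentSpace (𝓡 d) x → Prop} (hT : Obstruction J σ τ C T) (x₀ : X)
    {W : Set (E d)} {β : E d → E d →L[ℝ] ℝ} (hW : IsOpen W)
    (hWt : W ⊆ (chartAt (E d) x₀).target) (hβ : ContDiffOn ℝ ∞ β W)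
    (hk : ∀ x ∈ (chartAt (E d) x₀).source, x ∈ C → chartAt (E d) x₀ x ∈ W →
      ∀ v : TangentSpace (𝓡 d) x, T x v → β (chartAt (E d) x₀ x) (Df x₀ x v) = 0 ∧
        β (chartAt (E d) x₀ x) (Df x₀ x (J x v)) = 0) {y : E d} {q : X}
    (hq : q ∈ (chartAt (E d) x₀).source) (hqy : chartAt (E d) x₀ q = y) (hy : y ∈ W)
    (hqC : q ∈ C) :
    ∃ v : TangentSpace (𝓡 d) q, T q v ∧
      fderiv ℝ β y (Df x₀ q v) (inChart J x₀ y (Df x₀ q v)) -
        fderiv ℝ β y (inChart J x₀ y (Df x₀ q v)) (Df x₀ q v) ≤ 0 := by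
  have hqW : chartAt (E d) x₀ q ∈ W := by rw [hqy]; exact hy
  choose G O hG hO hqO hOs hGO hdG using fun j : Fin d =>
    Pool.Agent.Y614.NT.t_GLOB d X x₀ q W (fun y => β y (EuclideanSpace.single j (1 : ℝ))) hW hWt
      (hβ.clm_apply contDiffOn_const) hq hqW
  choose H O' hH hO' hqO' hOs' hHO' hdH using fun j : Fin d =>
    Pool.Agent.Y614.NT.t_GLOB d X x₀ q W (fun y => y j) hW hWt
      ((EuclideanSpace.proj (𝕜 := ℝ) j : E d →L[ℝ] ℝ).contDiff.contDiffOn) hq hqW
  have hpair : Pair (∑ j, fdg (d := d) (G j) (H j)) (∑ j, dfdg (d := d) (G j) (H j)) :=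
    Pair.sum Finset.univ (fun j _ => Pair.gen _ _ (hG j) (hH j))
  obtain ⟨hαs, _, hαη, _⟩ := hpair.props Pool.Agent.Y484.SY.t_GEN
  set U : Set X := (⋂ j, (O j ∩ O' j)) ∩ (chartAt (E d) x₀).source with hU
  have hUo : IsOpen U := (isOpen_iInter_of_finite fun j => (hO j).inter (hO' j)).inter
    (chartAt (E d) x₀).open_source
  have hqU : q ∈ U := ⟨mem_iInter.2 fun j => ⟨hqO j, hqO' j⟩, hq⟩
  -- the chart image of U is in W if d > 0; treat it through U' = U ∩ c⁻¹ W
  have hWo : IsOpen (U ∩ ((chartAt (E d) x₀).source ∩ (chartAt (E d) x₀) ⁻¹' W)) :=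
    hUo.inter ((chartAt (E d) x₀).isOpen_inter_preimage hW)
  have hddH : ∀ x ∈ U, ∀ j, ∀ v : TangentSpace (𝓡 d) x, dd (H j) x v = (Df x₀ x v) j := by
    intro x hx j v
    have h1 := hdH j x (mem_iInter.1 hx.1 j).2 v
    have h2 : fderiv ℝ (fun y : E d => y j) (chartAt (E d) x₀ x) =
        (EuclideanSpace.proj (𝕜 := ℝ) j : E d →L[ℝ] ℝ) :=
      (EuclideanSpace.proj (𝕜 := ℝ) j : E d →L[ℝ] ℝ).fderiv
    rw [h2] at h1
    exact h1
  have hβd : ∀ z ∈ W, DifferentiableAt ℝ β z := fun z hz =>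
    (hβ.contDiffAt (hW.mem_nhds hz)).differentiableAt (by simp)
  have hddG : ∀ x ∈ U, chartAt (E d) x₀ x ∈ W → ∀ j, ∀ v : TangentSpace (𝓡 d) x,
      dd (G j) x v = fderiv ℝ β (chartAt (E d) x₀ x) (Df x₀ x v)
        (EuclideanSpace.single j (1 : ℝ)) := by
    intro x hx hxW j v
    have h1 := hdG j x (mem_iInter.1 hx.1 j).1 v
    have h2 : fderiv ℝ (fun y : E d => β y (EuclideanSpace.single j (1 : ℝ)))
        (chartAt (E d) x₀ x) (Df x₀ x v) = fderiv ℝ β (chartAt (E d) x₀ x) (Df x₀ x v)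
        (EuclideanSpace.single j (1 : ℝ)) := by
      have h3 := ((hβd _ hxW).hasFDerivAt.clm_apply
        (hasFDerivAt_const (EuclideanSpace.single j (1 : ℝ)) (chartAt (E d) x₀ x))).fderiv
      rw [h3]
      simp
    exact h1.trans h2
  obtain ⟨v, hv, hle⟩ := hT.leviAt _ _ _ hWo hαs hαη (by
    rintro x v ⟨hxU, hxs, hxW⟩ hv
    have hxC : x ∈ C := (hT.base x).2 ⟨v, hv⟩
    have h1 : ∀ w : TangentSpace (𝓡 d) x, (∑ j, fdg (d := d) (G j) (H j)) x ![w] =
        β (chartAt (E d) x₀ x) (Df x₀ x w) := by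
      intro w
      rw [sum_fdg_apply, ← expand]
      refine Finset.sum_congr rfl fun j _ => ?_
      rw [hddH x hxU j w, (hGO j x (mem_iInter.1 hxU.1 j).1).2]
    rw [h1, h1]
    exact hk x hxs hxC hxW v hv) q ⟨hqC, hqU, hq, hqW⟩
  refine ⟨v, hv, ?_⟩
  have h2 : (∑ j, dfdg (d := d) (G j) (H j)) q ![v, J q v] =
      fderiv ℝ β (chartAt (E d) x₀ q) (Df x₀ q v) (Df x₀ q (J q v)) -
        fderiv ℝ β (chartAt (E d) x₀ q) (Df x₀ q (J q v)) (Df x₀ q v) := by
    rw [sum_dfdg_apply, Finset.sum_sub_distrib, ← expand, ← expand]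
    congr 1
    · refine Finset.sum_congr rfl fun j _ => ?_
      rw [hddG q hqU hqW, hddH q hqU]
    · refine Finset.sum_congr rfl fun j _ => ?_
      rw [hddG q hqU hqW, hddH q hqU]
  rw [h2] at hle
  obtain ⟨e1, _⟩ := chart_data J σ x₀ hq hqy
  rw [e1 v]
  subst hqy
  exact hle

end

end Pool.Agent.Y517.NT.R
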