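import Pool.Agent.Y517.NT.Asm
import Pool.Agent.Y517.NT.Abs2
import Pool.Agent.Y517.NT.Bor

/-!
# Project NT: the main theorem
-/

set_option autoImplicit false

open Set Filter Topology MeasureTheory
open scoped Manifold ContDiff

noncomputable section

namespace Pool.Agent.Y517.NT

open Pool.Agent.Y501.SY

theorem Sys.Neg.iUnion {X K : Type} [TopologicalSpace X] [TopologicalSpace K] {s : Sys X K}
    {N : ℕ → Set K} (h : ∀ n, s.Neg (N n)) : s.Neg (⋃ n, N n) := by
  intro mK _ μ _ hμ
  exact measure_iUnion_null fun n => h n mK μ hμ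

theorem Sys.Neg.mono {X K : Type} [TopologicalSpace X] [TopologicalSpace K] {s : Sys X K}
    {N M : Set K} (h : s.Neg N) (hM : M ⊆ N) : s.Neg M := by
  intro mK _ μ _ hμ
  exact measure_mono_null hM (h mK μ hμ)

variable {d : ℕ} {X : Type} [TopologicalSpace X] [ChartedSpace (E d) X] [IsManifold (𝓡 d) ∞ X]
  [CompactSpace X] [T2Space X]

theorem neg_of_removable (hT : S_THIN) (hZ : S_ZONE) (hC : S_CHAIN) (hS : S_SPAN) (hR : S_ROT)
    {J : End d X}
    (hJ : IsAlmostComplex J) {K : Type} [TopologicalSpace K] [CompactSpace K] (p : K → X)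
    (v : (z : K) → TangentSpace (𝓡 d) (p z)) (hp : Continuous p) (hv : ∀ z, v z ≠ 0)
    (hc : ∀ f : X → ℝ, SmoothFun (d := d) f → Continuous (fun z => dd f (p z) (v z)) ∧
      Continuous (fun z => dd f (p z) (J (p z) (v z)))) {σ : Form d X 2}
    (hnull : ∀ z, σ (p z) ![v z, J (p z) (v z)] = 0)
    {W : (x : X) → TangentSpace (𝓡 d) x → Prop} (hW : Removable σ J W) :
    (sysOf hC hS hR hJ p v hp hv hc).Neg {z | W (p z) (v z)} := by
  have _ : SecondCountableTopology X := ChartedSpace.secondCountable_of_sigmaCompact (E d) X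
  set s := sysOf hC hS hR hJ p v hp hv hc with hs
  induction hW with
  | thin C m c a b hcc ha hb hab =>
    have hth : ∀ z, s.th c a b z = Th (d := d) c a b (p z) ![v z, J (p z) (v z)] := by
      intro z
      rw [Th_apply]
      rfl
    refine (thin_any hT s C m c a b hcc ha hb hab).mono ?_
    rintro z ⟨h1, h2, h3⟩
    refine ⟨h1, fun z' hz' => ?_, ?_⟩
    · rw [hth]
      have h4 : ∀ y : X, y = p z → ∀ u : TangentSpace (𝓡 d) y, σ y ![u, J y u] = 0 →
          0 ≤ Th (d := d) c a b y ![u, J y u] := by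
        rintro y rfl
        exact h2
      exact h4 (p z') hz' (v z') (hnull z')
    · rw [hth]
      exact h3
  | slice A g hA hg => exact slice_any hZ s A hA g hg
  | union W _ ih =>
    refine (Sys.Neg.iUnion ih).mono ?_
    rintro z ⟨n, hn⟩
    exact mem_iUnion.2 ⟨n, hn⟩
  | mono W W' _ hsub ih =>
    exact ih.mono fun z hz => hsub (p z) (v z) (hv z) (hnull z) hz

theorem null_ne_tames {σ : Form d X 2} {J : End d X} {x : X} {v : TangentSpace (𝓡 d) x}
    (hv : v ≠ 0) (h0 : σ x ![v, J x v] = 0) : ¬ TamesAt σ J x := by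
  intro h
  have := h v hv
  rw [h0] at this
  exact lt_irrefl _ this

theorem isClosed_degenerate (hP : S_PERT) {J : End d X} (hJ : IsAlmostComplex J)
    {σ : Form d X 2} (hσ : IsSmooth σ) : IsClosed {x | ¬ TamesAt σ J x} := by
  rw [← isOpen_compl_iff, isOpen_iff_eventually]
  intro x hx
  have hx' : TamesAt σ J x := by
    by_contra h; exact hx h
  filter_upwards [TamesAt.nhds hP hJ hσ hx'] with y hy h
  exact h hy

theorem exact_pos (hA : S_ABS2) (hT : S_THIN) (hZ : S_ZONE) (hC : S_CHAIN) (hS : S_SPAN) (hR : S_ROT)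
    (hK : S_KSP) (hP : S_PERT) (hG : S_GEN) {J : End d X}
    (hJ : IsAlmostComplex J) {m : ℕ} {Y : Type} [TopologicalSpace Y] [ChartedSpace (E m) Y]
    [IsManifold (𝓡 m) ∞ Y] [T2Space Y] {f : X → Y} (hf : ContMDiff (𝓡 d) (𝓡 m) ∞ f)
    {σ τ : Form d X 2} (hσ : IsSmooth σ) (hτ : IsSmooth τ)
    (hker : ∀ (x : X) (v : TangentSpace (𝓡 d) x), σ x ![v, J x v] = 0 →
      mfderiv (𝓡 d) (𝓡 m) f x v = 0)
    (H : ∀ z : X, ¬ TamesAt σ J z → ∃ (α : Form d X 1) (η : Form d X 2)
      (W : (x : X) → TangentSpace (𝓡 d) x → Prop), Pair α η ∧ Removable σ J W ∧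
      ∀ x ∈ connectedComponentIn ({x | ¬ TamesAt σ J x} ∩ f ⁻¹' {f z}) z,
        ∀ v : TangentSpace (𝓡 d) x, v ≠ 0 → σ x ![v, J x v] = 0 →
          W x v ∨ 0 < (τ + η) x ![v, J x v]) :
    ∃ (α : Form d X 1) (η : Form d X 2), Pair α η ∧
      ∀ (x : X) (v : TangentSpace (𝓡 d) x), v ≠ 0 → σ x ![v, J x v] = 0 →
        0 < (τ + η) x ![v, J x v] := by
  haveI : SecondCountableTopology X := ChartedSpace.secondCountable_of_sigmaCompact (E d) X
  obtain ⟨K, mK, cK, p, v, hp, hv, hnull, hc, hη, hsurj⟩ := hK d X J hJ σ hσ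
  haveI : SecondCountableTopology K := EMetric.secondCountable_of_sigmaCompact K
  set s := sysOf hC hS hR hJ p v hp hv hc with hs
  have hD : IsCompact {x | ¬ TamesAt σ J x} := (isClosed_degenerate hP hJ hσ).isCompact
  obtain ⟨η, hηE, hηpos⟩ := hA X K s ⟨fun z => τ (p z) ![v z, J (p z) (v z)], hη τ hτ⟩ (by
    intro z₀
    have hz₀ : ¬ TamesAt σ J (p z₀) := null_ne_tames (hv z₀) (hnull z₀)
    obtain ⟨α, η, W, hpair, hW, hpos⟩ := H (p z₀) hz₀
    refine ⟨fun z => η (p z) ![v z, J (p z) (v z)], {z | W (p z) (v z)}, ?_,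
      neg_of_removable hT hZ hC hS hR hJ p v hp hv hc hnull hW, ?_⟩
    · clear hpos
      induction hpair with
      | zero => exact ⟨0, fun i => i.elim0, fun i => i.elim0, fun i => i.elim0,
          fun i => i.elim0, fun z => by simp⟩
      | gen a b ha hb =>
        refine ⟨1, fun _ => a, fun _ => b, fun _ => ha, fun _ => hb, fun z => ?_⟩
        rw [Fin.sum_univ_one]
        exact dfdg_apply a b (p z) (v z) (J (p z) (v z))
      | add α α' η η' _ _ ih ih' =>
        obtain ⟨n, a, b, ha, hb, he⟩ := ih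
        obtain ⟨n', a', b', ha', hb', he'⟩ := ih'
        refine ⟨n + n', Fin.append a a', Fin.append b b', ?_, ?_, ?_⟩
        · intro i
          refine Fin.addCases (fun i => ?_) (fun i => ?_) i
          · rw [Fin.append_left]; exact ha i
          · rw [Fin.append_right]; exact ha' i
        · intro i
          refine Fin.addCases (fun i => ?_) (fun i => ?_) i
          · rw [Fin.append_left]; exact hb i
          · rw [Fin.append_right]; exact hb' i
        · intro z
          rw [Fin.sum_univ_add]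
          simp only [Fin.append_left, Fin.append_right]
          rw [← he z, ← he' z]
          rfl
    · intro z hz
      by_cases hcomp : p z ∈ connectedComponentIn ({x | ¬ TamesAt σ J x} ∩ f ⁻¹' {f (p z₀)})
          (p z₀)
      · exact hpos (p z) hcomp (v z) (hv z) (hnull z)
      · exfalso
        obtain ⟨u, hu, hu0, huz, huU, hud⟩ := sepfun hf hD (z := p z₀) hz₀
          (U := {p z}ᶜ) isOpen_compl_singleton (by
            intro x hx
            rw [mem_compl_iff, mem_singleton_iff]
            rintro rfl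
            exact hcomp hx)
        have hNC : s.NC u := by
          refine ⟨hu, fun w => ⟨?_, ?_⟩⟩
          · exact hud (p w) (null_ne_tames (hv w) (hnull w)) (v w) (hker (p w) (v w) (hnull w))
          · refine hud (p w) (null_ne_tames (hv w) (hnull w)) (J (p w) (v w))
              (hker (p w) (J (p w) (v w)) ?_)
            rw [null_J hJ]
            exact hnull w
        have h1 : u (p z) = u (p z₀) := hz u hNC
        have h2 : u (p z) ≠ 0 := by
          rw [h1]
          exact huz.ne'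
        exact huU (p z) (null_ne_tames (hv z) (hnull z)) h2 rfl)
  obtain ⟨n, a, b, ha, hb, he⟩ := hηE
  refine ⟨∑ i, fdg (a i) (b i), ∑ i, dfdg (a i) (b i),
    Pair.sum Finset.univ (fun i _ => Pair.gen _ _ (ha i) (hb i)), ?_⟩
  intro x w hw hw0
  obtain ⟨z, t, ht, hpz, hform⟩ := hsurj x w hw hw0
  rw [hform]
  refine mul_pos ht ?_
  have h1 := hηpos z
  have h2 : (∑ i, dfdg (d := d) (a i) (b i)) (p z) ![v z, J (p z) (v z)] = η z := by
    rw [he, Finset.sum_apply, ContinuousAlternatingMap.sum_apply]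
    exact Finset.sum_congr rfl fun i _ => dfdg_apply (a i) (b i) (p z) (v z) (J (p z) (v z))
  have h3 : (τ + ∑ i, dfdg (d := d) (a i) (b i)) (p z) ![v z, J (p z) (v z)] =
      τ (p z) ![v z, J (p z) (v z)] + η z := by
    rw [← h2]
    rfl
  rw [h3]
  exact h1

end Pool.Agent.Y517.NT
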