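import Mathlib

/-!
# Project NT: analytic parametrisation of kernels (statement, Mathlib only)
-/

set_option autoImplicit false

open Set Filter Topology

noncomputable section

namespace Pool.Agent.Y517.NT

/-- PROJ: the kernels of an analytic family of linear maps are, near a point, and where they have
the same dimension as at this point, the ranges of an analytic family of linear maps. -/
def S_PROJ : Prop := ∀ (F H G : Type) [NormedAddCommGroup F] [NormedSpace ℝ F]
  [NormedAddCommGroup H] [NormedSpace ℝ H] [FiniteDimensional ℝ H]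
  [NormedAddCommGroup G] [NormedSpace ℝ G] [FiniteDimensional ℝ G] (V : Set F)
  (A : F → H →L[ℝ] G) (y₀ : F), IsOpen V → y₀ ∈ V → AnalyticOnNhd ℝ A V →
  ∃ (V' : Set F) (R : F → H →L[ℝ] H), IsOpen V' ∧ y₀ ∈ V' ∧ V' ⊆ V ∧ AnalyticOnNhd ℝ R V' ∧
    ∀ y ∈ V', Module.finrank ℝ (LinearMap.ker (A y).toLinearMap) =
        Module.finrank ℝ (LinearMap.ker (A y₀).toLinearMap) →
      LinearMap.range (R y).toLinearMap = LinearMap.ker (A y).toLinearMap

end Pool.Agent.Y517.NT
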