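import Pool.Agent.Y501.SY.Stm

/-!
# Project NT: smooth one-forms are finite sums of forms `f dg` (statement)
-/

set_option autoImplicit false

open Set Filter Topology MeasureTheory
open scoped Manifold ContDiff

noncomputable section

namespace Pool.Agent.Y517.NT

open Pool.Agent.Y501.SY

/-- PAIR: a smooth one-form on a closed manifold is a finite sum of forms `f dg`. -/
def S_PAIR : Prop := ∀ (d : ℕ) (X : Type) [TopologicalSpace X] [ChartedSpace (E d) X]
  [IsManifold (𝓡 d) ∞ X] [CompactSpace X] [T2Space X] (α : Form d X 1) (η : Form d X 2),
  IsSmooth α → IsD α η → Pair α η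

end Pool.Agent.Y517.NT
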