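import Pool.Agent.Y517.NT.PubN

/-!
# Symplectic forms and degenerate taming: definitions for the real analytic case
-/

set_option autoImplicit false

open Set Filter Topology MeasureTheory
open scoped Manifold ContDiff

noncomputable section

namespace Pool.Agent.Y517.NTP

open Pool.Agent.Y501.SYP

variable {V : Type} [NormedAddCommGroup V] [NormedSpace ℝ V]
  {X : Type} [TopologicalSpace X] [ChartedSpace V X]

/-- `σ` and `J` are real analytic in the charts. -/
structure IsAnalytic (σ : Form V X 2) (J : End V X) : Prop where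
  form : ∀ x₀ : X, AnalyticOnNhd ℝ (pb (chartAt V x₀).symm σ) (chartAt V x₀).target
  struct : ∀ (x₀ : X) (v : V), AnalyticOnNhd ℝ (fun p => inChart J x₀ p v) (chartAt V x₀).target

/-- `u` is, in the chart at `x₀`, a null vector of `σ` at `y`. -/
def NullIn (σ : Form V X 2) (J : End V X) (x₀ : X) (y u : V) : Prop :=
  pb (chartAt V x₀).symm σ y ![u, inChart J x₀ y u] = 0

/-- The functions `g`, defined on the open subset `U` of the chart at `x₀`, define a real analytic
submanifold `g = 0` which contains `C` in `U`, meets `C`, and has at each point a nonzero null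
vector `u` of `σ` such that `u` and `J u` are tangent to it. -/
structure NullManifold (σ : Form V X 2) (J : End V X) (C : Set X) (x₀ : X) (U : Set V) (r : ℕ)
    (g : Fin r → V → ℝ) : Prop where
  isOpen : IsOpen U
  sub : U ⊆ (chartAt V x₀).target
  analytic : ∀ i, AnalyticOnNhd ℝ (g i) U
  indep : ∀ y ∈ U, LinearIndependent ℝ fun i => fderiv ℝ (g i) y
  meets : ∃ y ∈ U, (chartAt V x₀).symm y ∈ C
  contains : ∀ y ∈ U, (chartAt V x₀).symm y ∈ C → ∀ i, g i y = 0
  null : ∀ y ∈ U, (∀ i, g i y = 0) → ∃ u : V, u ≠ 0 ∧ NullIn σ J x₀ y u ∧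
    ∀ i, fderiv ℝ (g i) y u = 0 ∧ fderiv ℝ (g i) y (inChart J x₀ y u) = 0

/-- The null vectors of `σ` at each point lie in one `J`-complex line. -/
def OneLine (σ : Form V X 2) (J : End V X) : Prop :=
  ∀ (x : X) (v w : TangentSpace 𝓘(ℝ, V) x), Null σ J x v → Null σ J x w →
    ∃ a b : ℝ, w = a • v + b • J x v

/-- The null lines along `g = 0` form an involutive distribution: the exterior derivatives of the
real analytic one-forms `β` on `U` which vanish on them vanish on them. -/
def Involutive (σ : Form V X 2) (J : End V X) (x₀ : X) (U : Set V) {r : ℕ} (g : Fin r → V → ℝ) :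
    Prop :=
  ∀ β : V → V →L[ℝ] ℝ, AnalyticOnNhd ℝ β U →
    (∀ y ∈ U, (∀ i, g i y = 0) → ∀ u, NullIn σ J x₀ y u → β y u = 0) →
    ∀ y ∈ U, (∀ i, g i y = 0) → ∀ u, NullIn σ J x₀ y u →
      fderiv ℝ β y u (inChart J x₀ y u) - fderiv ℝ β y (inChart J x₀ y u) u = 0

end Pool.Agent.Y517.NTP
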