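import Pool.Agent.Y501.SY.Pub

/-!
# Symplectic forms and degenerate taming: definitions

Removable sets of tangent vectors, obstructions, and the rules for good sets of vectors.
-/

set_option autoImplicit false

open Set Filter Topology MeasureTheory
open scoped Manifold ContDiff

noncomputable section

namespace Pool.Agent.Y517.NTP

open Pool.Agent.Y501.SYP

variable {V : Type} [NormedAddCommGroup V] [NormedSpace ℝ V]
  {X : Type} [TopologicalSpace X] [ChartedSpace V X]

variable (V X) in
/-- sets of tangent vectors -/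
abbrev Vecs : Type := (x : X) → TangentSpace 𝓘(ℝ, V) x → Prop

/-- `τ'` is cohomologous to `τ`. -/
def Coh (τ τ' : Form V X 2) : Prop :=
  ∃ (α : Form V X 1) (ρ : Form V X 2), IsSmooth α ∧ IsD α ρ ∧ τ' = addF τ ρ

/-- For some `τ'` cohomologous to `τ` the forms `σ + ε τ'` are, for all small positive `ε`,
symplectic forms taming `J`. -/
def Tamed (J : End V X) (σ τ : Form V X 2) : Prop :=
  ∃ τ' : Form V X 2, Coh τ τ' ∧ ∃ ε₀ : ℝ, 0 < ε₀ ∧ ∀ ε : ℝ, 0 < ε → ε < ε₀ →
    IsTamingSymplectic (comb σ ε τ') J

/-- the nonzero null vectors of `σ` -/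
def Null (σ : Form V X 2) (J : End V X) : Vecs V X := fun x v => v ≠ 0 ∧ qd σ J x v = 0

/-- `(∑ c_i da_i ∧ db_i)(v, J v)` -/
def th (J : End V X) {m : ℕ} (c a b : Fin m → X → ℝ) (x : X) (v : TangentSpace 𝓘(ℝ, V) x) : ℝ :=
  ∑ i, c i x * (dd (a i) x v * dd (b i) x (J x v) - dd (a i) x (J x v) * dd (b i) x v)

/-- `v` and `J v` are tangent to `C`. -/
def TangentTo (J : End V X) (C : Set X) (x : X) (v : TangentSpace 𝓘(ℝ, V) x) : Prop :=
  ZT C x v ∧ ZT C x (J x v)

/-- Removable sets of vectors, relative to a set `T` of tangent vectors. The generators are,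
first, the set of the `v` over points `x` of `C` with `Θ(v, J v) > 0` and `Θ(u, J u) ≥ 0` for all
`u` in `T` over `x`, where `Θ` is a finite sum of forms `c da ∧ db`, with `c` continuous and
`a`, `b` smooth, and all pairs `(a, b)` map the set `C` onto a set of Lebesgue measure zero in the
plane; secondly, the set of the `v` over points `x` with `g(x) ∈ A` such that `dg(v)` or `dg(J v)`
does not vanish, where `g` is smooth and `A` has Lebesgue measure zero in the line; thirdly, all
nonzero `v` over a set with Lebesgue null image under all pairs of smooth functions; fourthly, all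
`v` over a set `C` such that `v` or `J v` is not tangent to `C`; and all nonzero `v` over a set
which is thin at its points with respect to the vectors at these points which are null for certain
two-forms, if all vectors in `T` are null for these two-forms. Countable unions
of removable sets, and sets whose intersection with `T` is contained in a removable set, are
removable. -/
inductive Removable (J : End V X) (T : Vecs V X) : Vecs V X → Prop
  | thin (C : Set X) (m : ℕ) (c a b : Fin m → X → ℝ) : (∀ i, Continuous (c i)) →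
      (∀ i, SmoothFun (V := V) (a i)) → (∀ i, SmoothFun (V := V) (b i)) →
      (∀ i, volume ((fun x => (a i x, b i x)) '' C) = 0) →
      Removable J T fun x v => x ∈ C ∧ (∀ u, T x u → 0 ≤ th J c a b x u) ∧ 0 < th J c a b x v
  | slice (A : Set ℝ) (g : X → ℝ) : volume A = 0 → SmoothFun (V := V) g →
      Removable J T fun x v => g x ∈ A ∧ (dd g x v ≠ 0 ∨ dd g x (J x v) ≠ 0)
  | planar (C : Set X) : (∀ f g : X → ℝ, SmoothFun (V := V) f → SmoothFun (V := V) g →
      volume ((fun x => (f x, g x)) '' C) = 0) → Removable J T fun x v => x ∈ C ∧ v ≠ 0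
  | transverse (C : Set X) : Removable J T fun x v => x ∈ C ∧ ¬ TangentTo J C x v
  | thinAt (C : Set X) (κ : Type) (ζ : κ → Form V X 2) : (∀ k, IsSmooth (ζ k)) →
      (∀ x v, T x v → ∀ k, qd (ζ k) J x v = 0) →
      (∀ z ∈ C, ThinAt J C z fun v => ∀ k, qd (ζ k) J z v = 0) →
      Removable J T fun x v => x ∈ C ∧ v ≠ 0
  | union (W : ℕ → Vecs V X) : (∀ n, Removable J T (W n)) →
      Removable J T fun x v => ∃ n, W n x v
  | mono (W W' : Vecs V X) : Removable J T W → (∀ x v, T x v → W' x v → W x v) →
      Removable J T W'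

/-- All functions without differential on the complex lines of `T` take the same values at `x` and
at `z`. -/
def SameFibre (J : End V X) (T : Vecs V X) (x z : X) : Prop :=
  ∀ F : X → ℝ, SmoothFun (V := V) F →
    (∀ y w, T y w → dd F y w = 0 ∧ dd F y (J y w) = 0) → F x = F z

/-- The one-form `β` vanishes on the complex lines of `T` over `U`. -/
def Kills (J : End V X) (T : Vecs V X) (U : Set X) (β : Form V X 1) : Prop :=
  ∀ x v, x ∈ U → T x v → β x ![v] = 0 ∧ β x ![J x v] = 0

/-- An obstruction: a nonempty closed set `C`, and over each of its points a nonempty set `T` of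
nonzero null vectors `v` of `σ`, with the following properties. -/
structure Obstruction (J : End V X) (σ τ : Form V X 2) (C : Set X) (T : Vecs V X) : Prop where
  closed : IsClosed C
  nonempty : C.Nonempty
  base : ∀ x, x ∈ C ↔ ∃ v, T x v
  null : ∀ x v, T x v → Null σ J x v
  /-- all functions without differential on `T` are constant on `C` -/
  const : ∀ x ∈ C, ∀ z ∈ C, SameFibre J T x z
  /-- `v` and `J v` are tangent to `C` -/
  tangent : ∀ x v, T x v → TangentTo J C x v
  /-- the part of `T` over an open set meeting `C` is not contained in a removable set -/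
  thick : ∀ (U : Set X) (W : Vecs V X), IsOpen U → (C ∩ U).Nonempty → Removable J T W →
    ∃ x v, x ∈ U ∧ T x v ∧ ¬ W x v
  /-- two-forms which vanish on `(v, J v)` for all `v` in `T` outside of a removable set vanish on
  `(v, J v)` for all `v` in `T` -/
  zero : ∀ (U : Set X) (η : Form V X 2) (W : Vecs V X), IsOpen U → IsSmooth η →
    Removable J T W → (∀ x v, x ∈ U → T x v → ¬ W x v → qd η J x v = 0) →
    ∀ x v, x ∈ U → T x v → qd η J x v = 0
  /-- a form cohomologous to `τ` which is nonnegative on `T` vanishes on `T` -/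
  nonneg : ∀ (τ' : Form V X 2) (W : Vecs V X), Coh τ τ' → Removable J T W →
    (∀ x v, T x v → ¬ W x v → 0 ≤ qd τ' J x v) → ∀ x v, T x v → qd τ' J x v = 0
  /-- the exterior derivative of a one-form which vanishes on the complex lines in `T` vanishes on
  these lines if it is nonnegative on them -/
  levi : ∀ (U : Set X) (β : Form V X 1) (η : Form V X 2) (W : Vecs V X), IsOpen U →
    IsSmooth β → IsD β η → Removable J T W → Kills J T U β →
    (∀ x v, x ∈ U → T x v → ¬ W x v → 0 ≤ qd η J x v) →
    ∀ x v, x ∈ U → T x v → qd η J x v = 0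
  /-- it is not positive on all lines over a point -/
  leviAt : ∀ (U : Set X) (β : Form V X 1) (η : Form V X 2), IsOpen U → IsSmooth β →
    IsD β η → Kills J T U β → ∀ x ∈ C ∩ U, ∃ v, T x v ∧ qd η J x v ≤ 0

/-- Sets `T` of vectors which can be treated by the following rules. -/
inductive Good (J : End V X) (τ : Form V X 2) : Vecs V X → Prop
  | pos (T W : Vecs V X) (τ' : Form V X 2) : Coh τ τ' → Removable J T W →
      (∀ x v, T x v → ¬ W x v → 0 < qd τ' J x v) → Good J τ T
  | nonneg (T W : Vecs V X) (τ' : Form V X 2) : Coh τ τ' → Removable J T W →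
      (∀ x v, T x v → ¬ W x v → 0 ≤ qd τ' J x v) →
      Good J τ (fun x v => T x v ∧ qd τ' J x v = 0) → Good J τ T
  | fibre (T : Vecs V X) :
      (∀ z : X, Good J τ (fun x v => T x v ∧ SameFibre J T x z)) → Good J τ T
  | map (T : Vecs V X) (m : ℕ) (Y : Type) [TopologicalSpace Y] [ChartedSpace (ES m) Y]
      [IsManifold 𝓘(ℝ, ES m) ∞ Y] [T2Space Y] (f : X → Y) :
      ContMDiff 𝓘(ℝ, V) 𝓘(ℝ, ES m) ∞ f →
      (∀ x v, T x v → mfderiv 𝓘(ℝ, V) 𝓘(ℝ, ES m) f x v = 0 ∧
        mfderiv 𝓘(ℝ, V) 𝓘(ℝ, ES m) f x (J x v) = 0) →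
      (∀ (y : Y) (z : X), Good J τ fun x v => T x v ∧
        x ∈ connectedComponentIn {x | f x = y ∧ ∃ w, T x w} z) → Good J τ T
  | tangent (T : Vecs V X) :
      Good J τ (fun x v => T x v ∧ TangentTo J {y | ∃ w, T y w} x v) → Good J τ T
  | levi (T W : Vecs V X) (U : Set X) (β : Form V X 1) (η : Form V X 2) : IsOpen U →
      IsSmooth β → IsD β η → Removable J T W → Kills J T U β →
      (∀ x v, x ∈ U → T x v → ¬ W x v → 0 ≤ qd η J x v) →
      Good J τ (fun x v => T x v ∧ (x ∈ U → qd η J x v = 0)) → Good J τ T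
  | zero (T W : Vecs V X) (U : Set X) (η : Form V X 2) : IsOpen U → IsSmooth η →
      Removable J T W → (∀ x v, x ∈ U → T x v → ¬ W x v → qd η J x v = 0) →
      Good J τ (fun x v => T x v ∧ (x ∈ U → qd η J x v = 0)) → Good J τ T
  | remove (T W : Vecs V X) (U : Set X) : IsOpen U → Removable J T W →
      (∀ x v, x ∈ U → T x v → W x v) → Good J τ (fun x v => T x v ∧ x ∉ U) → Good J τ T
  | mono (T T' : Vecs V X) : (∀ x v, T' x v → T x v) → Good J τ T → Good J τ T'

end Pool.Agent.Y517.NTP
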