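import Pool.Agent.Y517.NT.Main
import Pool.Agent.Y517.NT.Dich
import Pool.Agent.Y501.SY.Thin
import Pool.Agent.Y978.NT.HB
import Pool.Agent.Y246.NT.One
import Pool.Agent.Y500.NT.Ext
import Pool.Agent.Y195.NT.ZONE
import Pool.Agent.Y961.NT.Two
import Pool.Agent.Y655.NT.Span
import Pool.Agent.Y161.NT.Rot
import Pool.Agent.Y815.NT.Ksp
import Pool.Agent.Y232.NT.Chain
import Pool.Agent.Y455.SY.Pert
import Pool.Agent.Y484.SY.Gen

/-!
# Project NT: classes of removable sets
-/

set_option autoImplicit false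

open Set Filter Topology MeasureTheory
open scoped Manifold ContDiff

noncomputable section

namespace Pool.Agent.Y517.NT

open Pool.Agent.Y501.SY

theorem zone : S_ZONE := Pool.Agent.Y195.NT.t_ZONE Pool.Agent.Y246.NT.t_ONE
  Pool.Agent.Y500.NT.t_EXT
theorem two : S_TWO := Pool.Agent.Y961.NT.t_TWO zone
theorem thin : S_THIN := t_THIN two Pool.Agent.Y500.NT.t_EXT
theorem abs2 : S_ABS2 := t_ABS2 Pool.Agent.Y978.NT.t_HB

section

variable {d : ℕ} {X : Type} [TopologicalSpace X] [ChartedSpace (E d) X]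

theorem Removable.countable {σ : Form d X 2} {J : End d X} {ι : Type} [Countable ι]
    {W : ι → (x : X) → TangentSpace (𝓡 d) x → Prop} (h : ∀ i, Removable σ J (W i)) :
    Removable σ J fun x v => ∃ i, W i x v := by
  rcases isEmpty_or_nonempty ι with hι | hι
  · refine Removable.mono _ _ (Removable.slice (σ := σ) (J := J) ∅ (fun _ => 0)
      measure_empty contMDiff_const) ?_
    rintro x v _ _ ⟨i, _⟩
    exact (hι.false i).elim
  · obtain ⟨e, he⟩ := exists_surjective_nat ι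
    refine Removable.mono _ _ (Removable.union _ fun n => h (e n)) ?_
    rintro x v _ _ ⟨i, hi⟩
    obtain ⟨n, rfl⟩ := he i
    exact ⟨n, hi⟩

theorem Removable.or {σ : Form d X 2} {J : End d X}
    {W W' : (x : X) → TangentSpace (𝓡 d) x → Prop} (h : Removable σ J W)
    (h' : Removable σ J W') : Removable σ J fun x v => W x v ∨ W' x v := by
  refine Removable.mono _ _ (Removable.countable (ι := Bool)
    (W := fun b => bif b then W else W') fun b => by cases b <;> assumption) ?_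
  rintro x v _ _ (hv | hv)
  · exact ⟨true, hv⟩
  · exact ⟨false, hv⟩

theorem Removable.false {σ : Form d X 2} {J : End d X} :
    Removable σ J fun _ _ => False := by
  refine Removable.mono _ _ (Removable.countable (σ := σ) (J := J) (ι := Empty)
    (W := fun e => e.elim) fun e => e.elim) ?_
  rintro x v _ _ h
  exact h.elim

variable [IsManifold (𝓡 d) ∞ X] [CompactSpace X] [T2Space X]

/-- the form `∑ c_j dg ∧ dh_j` with value `dg(v)² + dg(Jv)²` -/
theorem rot_form {J : End d X} (hJ : IsAlmostComplex J) {g : X → ℝ}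
    (hg : SmoothFun (d := d) g) : ∃ (n : ℕ) (c h : Fin n → X → ℝ), (∀ k, Continuous (c k)) ∧
      (∀ k, SmoothFun (d := d) (h k)) ∧ ∀ (x : X) (v : TangentSpace (𝓡 d) x),
        Th (d := d) c (fun _ => g) h x ![v, J x v] = (dd g x v) ^ 2 + (dd g x (J x v)) ^ 2 := by
  obtain ⟨n, b, h, hb, hh, hr⟩ := Pool.Agent.Y161.NT.t_ROT d X J hJ g hg
  refine ⟨n, fun k x => -b k x, h, fun k => (hb k).neg, hh, fun x v => ?_⟩
  rw [Th_apply]
  have h1 := hr x v
  have h2 := hr x (J x v)
  rw [hJ.sq, map_neg] at h2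
  have h3 : ∑ i, -b i x * (dd g x v * dd (h i) x (J x v) - dd g x (J x v) * dd (h i) x v) =
      -(dd g x v) * (∑ k, b k x * dd (h k) x (J x v)) +
        dd g x (J x v) * ∑ k, b k x * dd (h k) x v := by
    rw [Finset.mul_sum, Finset.mul_sum, ← Finset.sum_add_distrib]
    exact Finset.sum_congr rfl fun k _ => by ring
  rw [h3, ← h1, ← h2]
  ring

/-- planar null sets are removable -/
theorem removable_planar {J : End d X} (hJ : IsAlmostComplex J) (σ : Form d X 2) {C : Set X}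
    (hC : PlanarNull d C) : Removable σ J fun x _ => x ∈ C := by
  obtain ⟨N, g, hg, hsp⟩ := (Pool.Agent.Y655.NT.t_SPAN d X).1
  choose n c h hc hh hr using fun k => rot_form hJ (hg k)
  refine Removable.mono _ _ (Removable.countable fun k =>
    Removable.thin (σ := σ) (J := J) C (n k) (c k) (fun _ => g k) (h k) (hc k)
      (fun _ => hg k) (hh k) fun i => hC _ _ (hg k) (hh k i)) ?_
  intro x v hv _ hx
  obtain ⟨k, hk⟩ := hsp x v hv
  refine ⟨k, hx, fun u _ => ?_, ?_⟩
  · rw [hr]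
    positivity
  · rw [hr]
    have := sq_nonneg (dd (g k) x (J x v))
    have h2 : 0 < (dd (g k) x v) ^ 2 := by positivity
    linarith

/-- null lines which are not tangent to a set are removable over this set -/
theorem removable_transverse {J : End d X} (hJ : IsAlmostComplex J) {σ : Form d X 2}
    (hσ : IsSmooth σ) (C : Set X) :
    Removable σ J fun x v => x ∈ C ∧ ¬ (v ∈ ZT (d := d) C x ∧ J x v ∈ ZT (d := d) C x) := by
  obtain ⟨K, mK, cK, p, v, hp, hv, hnull, hc, hη, hsurj⟩ :=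
    Pool.Agent.Y815.NT.t_KSP d X J hJ σ hσ
  have _ : SecondCountableTopology K := EMetric.secondCountable_of_sigmaCompact K
  set G := {g : X → ℝ // SmoothFun (d := d) g ∧ ∀ x ∈ C, g x = 0} with hG
  let U : G → Set K := fun g => {z | dd g.1 (p z) (v z) ≠ 0 ∨ dd g.1 (p z) (J (p z) (v z)) ≠ 0}
  have hU : ∀ g, IsOpen (U g) := by
    intro g
    exact (isOpen_ne_fun (hc g.1 g.2.1).1 continuous_const).union
      (isOpen_ne_fun (hc g.1 g.2.1).2 continuous_const)
  obtain ⟨T, hT, hTU⟩ := TopologicalSpace.isOpen_iUnion_countable U hU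
  have _ : Countable ↥T := hT.to_subtype
  refine Removable.mono _ _ (Removable.countable fun g : ↥T =>
    Removable.slice (σ := σ) (J := J) {0} g.1.1 (by simp) g.1.2.1) ?_
  rintro x w hw hw0 ⟨hx, hnt⟩
  have h1 : ∃ g : G, dd g.1 x w ≠ 0 ∨ dd g.1 x (J x w) ≠ 0 := by
    by_contra hno
    push Not at hno
    exact hnt ⟨fun g hg hgC => (hno ⟨g, hg, hgC⟩).1, fun g hg hgC => (hno ⟨g, hg, hgC⟩).2⟩
  obtain ⟨z, t, ht, rfl, hform⟩ := hsurj x w hw hw0
  have h2 : ∀ g : G, (dd g.1 (p z) w ≠ 0 ∨ dd g.1 (p z) (J (p z) w) ≠ 0) ↔ z ∈ U g := by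
    intro g
    obtain ⟨n, c, h, _, _, hr⟩ := rot_form hJ g.2.1
    have h3 := hform (Th (d := d) c (fun _ => g.1) h)
    rw [hr, hr] at h3
    have h4 : ∀ a b : ℝ, (a ≠ 0 ∨ b ≠ 0) ↔ a ^ 2 + b ^ 2 ≠ 0 := by
      intro a b
      constructor
      · rintro (h | h) h0
        · exact h (by nlinarith [sq_nonneg a, sq_nonneg b])
        · exact h (by nlinarith [sq_nonneg a, sq_nonneg b])
      · intro h
        by_contra hno
        push Not at hno
        rw [hno.1, hno.2] at h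
        exact h (by norm_num)
    change _ ↔ (dd g.1 (p z) (v z) ≠ 0 ∨ dd g.1 (p z) (J (p z) (v z)) ≠ 0)
    rw [h4, h4, h3]
    simp [ht.ne']
  obtain ⟨g, hg⟩ := h1
  have h3 : z ∈ ⋃ i ∈ T, U i := by
    rw [hTU]
    exact mem_iUnion.2 ⟨g, (h2 g).1 hg⟩
  obtain ⟨g', hg', hz⟩ := mem_iUnion₂.1 h3
  exact ⟨⟨g', hg'⟩, g'.2.2 _ hx, (h2 g').2 hz⟩

/-- thin sets are removable -/
theorem removable_thin {J : End d X} (hJ : IsAlmostComplex J) {σ : Form d X 2}
    (hσ : IsSmooth σ) (hpos : ∀ (x : X) (v : TangentSpace (𝓡 d) x), 0 ≤ σ x ![v, J x v])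
    {C : Set X} (hC : ∀ z ∈ C, ThinAt σ J C z) : Removable σ J fun x _ => x ∈ C := by
  have _ : SecondCountableTopology X := ChartedSpace.secondCountable_of_sigmaCompact (E d) X
  have key : ∀ z : ↥C, ∃ (O : Set X), IsOpen O ∧ z.1 ∈ O ∧
      Removable σ J fun x _ => x ∈ C ∩ O := by
    rintro ⟨z, hz⟩
    obtain ⟨n, a, b, N, hN, ha, hb, hab, hzpos⟩ := hC z hz
    have hsm : IsSmooth (∑ i, dfdg (d := d) (a i) (b i)) :=
      ((Pair.sum Finset.univ (fun i _ => Pair.gen _ _ (ha i) (hb i))).props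
        Pool.Agent.Y484.SY.t_GEN).2.1
    obtain ⟨ε, hε, hev⟩ := Pool.Agent.Y455.SY.t_NULL d X J hJ σ
      (∑ i, dfdg (d := d) (a i) (b i)) hσ hsm hpos z
      (fun v hv hv0 => hzpos v hv hv0.le)
    obtain ⟨O, hO, hOo, hzO⟩ := mem_nhds_iff.1 (inter_mem hN hev)
    have hOpos : ∀ x ∈ O, ∀ u : TangentSpace (𝓡 d) x, u ≠ 0 → σ x ![u, J x u] = 0 →
        0 < (∑ i, dfdg (d := d) (a i) (b i)) x ![u, J x u] := by
      intro x hx u hu hu0
      have h1 := (hO hx).2 ε hε le_rfl u hu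
      have h2 : (σ + ε • ∑ i, dfdg (d := d) (a i) (b i)) x ![u, J x u] =
          σ x ![u, J x u] + ε * (∑ i, dfdg (d := d) (a i) (b i)) x ![u, J x u] := rfl
      rw [h2, hu0, zero_add] at h1
      exact (mul_pos_iff_of_pos_left hε).1 h1
    have hTh : ∀ (x : X) (u : TangentSpace (𝓡 d) x),
        Th (d := d) (fun _ _ => (1 : ℝ)) a b x ![u, J x u] =
          (∑ i, dfdg (d := d) (a i) (b i)) x ![u, J x u] := by
      intro x u
      rw [Th_apply, sum_apply2]
      refine Finset.sum_congr rfl fun i _ => ?_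
      rw [dfdg_apply, one_mul]
    refine ⟨O, hOo, hzO, Removable.mono _ _ (Removable.thin (σ := σ) (J := J) (C ∩ N) n
      (fun _ _ => 1) a b (fun _ => continuous_const) ha hb hab) ?_⟩
    rintro x v hv hv0 ⟨hxC, hxO⟩
    refine ⟨⟨hxC, (hO hxO).1⟩, fun u hu0 => ?_, ?_⟩
    · by_cases hu : u = 0
      · subst hu
        rw [Th_apply]
        simp
      · rw [hTh]
        exact (hOpos x hxO u hu hu0).le
    · rw [hTh]
      exact hOpos x hxO v hv hv0
  choose O hO hzO hrem using key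
  obtain ⟨T, hT, hTU⟩ := TopologicalSpace.isOpen_iUnion_countable O hO
  have _ : Countable ↥T := hT.to_subtype
  refine Removable.mono _ _ (Removable.countable fun z : ↥T => hrem z.1) ?_
  intro x v _ _ hx
  have h3 : x ∈ ⋃ i ∈ T, O i := by
    rw [hTU]
    exact mem_iUnion.2 ⟨⟨x, hx⟩, hzO ⟨x, hx⟩⟩
  obtain ⟨z, hz, hxz⟩ := mem_iUnion₂.1 h3
  exact ⟨⟨z, hz⟩, hx, hxz⟩

end

end Pool.Agent.Y517.NT
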