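import Pool.Agent.Y517.NT.Thin
import Pool.Agent.Y517.NT.Geo
import Pool.Agent.Y517.NT.Bor
import Pool.Agent.Y501.SY.Main
import Pool.Agent.Y501.SY.Thin
import Pool.Agent.Y246.NT.One
import Pool.Agent.Y500.NT.Ext
import Pool.Agent.Y195.NT.ZONE
import Pool.Agent.Y961.NT.Two
import Pool.Agent.Y655.NT.Span
import Pool.Agent.Y161.NT.Rot
import Pool.Agent.Y815.NT.Ksp
import Pool.Agent.Y232.NT.Chain
import Pool.Agent.Y455.SY.Pert
import Pool.Agent.Y484.SY.Gen

/-!
# Project NT: removable sets of vectors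
-/

set_option autoImplicit false

open Set Filter Topology MeasureTheory
open scoped Manifold ContDiff

noncomputable section

namespace Pool.Agent.Y517.NT.R

open Pool.Agent.Y501.SY

theorem zone : S_ZONE := Pool.Agent.Y195.NT.t_ZONE Pool.Agent.Y246.NT.t_ONE
  Pool.Agent.Y500.NT.t_EXT
theorem two : S_TWO := Pool.Agent.Y961.NT.t_TWO zone
theorem thin : S_THIN := t_THIN two Pool.Agent.Y500.NT.t_EXT

theorem Neg.iUnion {X K : Type} [TopologicalSpace X] [TopologicalSpace K] {s : Sys X K}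
    {N : ℕ → Set K} (h : ∀ n, s.Neg (N n)) : s.Neg (⋃ n, N n) := by
  intro mK _ μ _ hμ
  exact measure_iUnion_null fun n => h n mK μ hμ

theorem Neg.mono {X K : Type} [TopologicalSpace X] [TopologicalSpace K] {s : Sys X K}
    {N M : Set K} (h : s.Neg N) (hM : M ⊆ N) : s.Neg M := by
  intro mK _ μ _ hμ
  exact measure_mono_null hM (h mK μ hμ)

section defs

variable {d : ℕ} {X : Type} [TopologicalSpace X] [ChartedSpace (E d) X]

/-- the two-form `∑ c_i da_i ∧ db_i` -/
def Th {m : ℕ} (c a b : Fin m → X → ℝ) : Form d X 2 := ∑ i, hdfdg (c i) (a i) (b i)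

/-- Removable sets of vectors, relative to a set `T` of tangent vectors. The generators are,
first, the set of the `v` over points `x` of `C` with `Θ(v, J v) > 0` and `Θ(u, J u) ≥ 0` for all
`u` in `T` over `x`, where `Θ` is a finite sum of forms `c da ∧ db`, with `c` continuous and
`a`, `b` smooth, and all pairs `(a, b)` map the set `C` onto a set of Lebesgue measure zero in the
plane; secondly, the set of the `v` over points `x` with `g(x) ∈ A` such that `dg(v)` or `dg(J v)`
does not vanish, where `g` is smooth and `A` has Lebesgue measure zero in the line. Countable unions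
of removable sets, and sets whose intersection with `T` is contained in a removable set, are
removable. -/
inductive Removable (J : End d X) (T : (x : X) → TangentSpace (𝓡 d) x → Prop) :
    ((x : X) → TangentSpace (𝓡 d) x → Prop) → Prop
  | thin (C : Set X) (m : ℕ) (c a b : Fin m → X → ℝ) : (∀ i, Continuous (c i)) →
      (∀ i, SmoothFun (d := d) (a i)) → (∀ i, SmoothFun (d := d) (b i)) →
      (∀ i, volume ((fun x => (a i x, b i x)) '' C) = 0) →
      Removable J T fun x v => x ∈ C ∧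
        (∀ u : TangentSpace (𝓡 d) x, T x u → 0 ≤ Th (d := d) c a b x ![u, J x u]) ∧
        0 < Th (d := d) c a b x ![v, J x v]
  | slice (A : Set ℝ) (g : X → ℝ) : volume A = 0 → SmoothFun (d := d) g →
      Removable J T fun x v => g x ∈ A ∧ (dd g x v ≠ 0 ∨ dd g x (J x v) ≠ 0)
  | union (W : ℕ → (x : X) → TangentSpace (𝓡 d) x → Prop) : (∀ n, Removable J T (W n)) →
      Removable J T fun x v => ∃ n, W n x v
  | mono (W W' : (x : X) → TangentSpace (𝓡 d) x → Prop) : Removable J T W →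
      (∀ x v, T x v → W' x v → W x v) → Removable J T W'

theorem Th_apply {m : ℕ} (c a b : Fin m → X → ℝ) (x : X) (v w : TangentSpace (𝓡 d) x) :
    Th (d := d) c a b x ![v, w] =
      ∑ i, c i x * (dd (a i) x v * dd (b i) x w - dd (a i) x w * dd (b i) x v) := by
  unfold Th
  rw [Finset.sum_apply, ContinuousAlternatingMap.sum_apply]
  exact Finset.sum_congr rfl fun i _ => hdfdg_apply (c i) (a i) (b i) x v w

end defs

section

variable {d : ℕ} {X : Type} [TopologicalSpace X] [ChartedSpace (E d) X]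

theorem Removable.countable {J : End d X} {T : (x : X) → TangentSpace (𝓡 d) x → Prop}
    {ι : Type} [Countable ι]
    {W : ι → (x : X) → TangentSpace (𝓡 d) x → Prop} (h : ∀ i, Removable J T (W i)) :
    Removable J T fun x v => ∃ i, W i x v := by
  rcases isEmpty_or_nonempty ι with hι | hι
  · refine Removable.mono _ _ (Removable.slice (J := J) (T := T) ∅ (fun _ => 0)
      measure_empty contMDiff_const) ?_
    rintro x v _ ⟨i, _⟩
    exact (hι.false i).elim
  · obtain ⟨e, he⟩ := exists_surjective_nat ι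
    refine Removable.mono _ _ (Removable.union _ fun n => h (e n)) ?_
    rintro x v _ ⟨i, hi⟩
    obtain ⟨n, rfl⟩ := he i
    exact ⟨n, hi⟩

theorem Removable.or {J : End d X} {T : (x : X) → TangentSpace (𝓡 d) x → Prop}
    {W W' : (x : X) → TangentSpace (𝓡 d) x → Prop} (h : Removable J T W)
    (h' : Removable J T W') : Removable J T fun x v => W x v ∨ W' x v := by
  refine Removable.mono _ _ (Removable.countable (ι := Bool)
    (W := fun b => bif b then W else W') fun b => by cases b <;> assumption) ?_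
  rintro x v _ (hv | hv)
  · exact ⟨true, hv⟩
  · exact ⟨false, hv⟩

theorem Removable.empty {J : End d X} {T : (x : X) → TangentSpace (𝓡 d) x → Prop} :
    Removable J T fun _ _ => False := by
  refine Removable.mono _ _ (Removable.countable (J := J) (T := T) (ι := Empty)
    (W := fun e => e.elim) fun e => e.elim) ?_
  rintro x v _ h
  exact h.elim

theorem Removable.anti {J : End d X} {T T' : (x : X) → TangentSpace (𝓡 d) x → Prop}
    (hT : ∀ x v, T' x v → T x v)
    {W : (x : X) → TangentSpace (𝓡 d) x → Prop} (h : Removable J T W) : Removable J T' W := by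
  induction h with
  | thin C m c a b hc ha hb hab =>
    exact Removable.mono _ _ (Removable.thin (J := J) (T := T') C m c a b hc ha hb hab)
      fun x v _ h => ⟨h.1, fun u hu => h.2.1 u (hT x u hu), h.2.2⟩
  | slice A g hA hg => exact Removable.slice A g hA hg
  | union W _ ih => exact Removable.union _ ih
  | mono W W' _ hsub ih => exact Removable.mono _ _ ih fun x v h h' => hsub x v (hT x v h) h'

variable [IsManifold (𝓡 d) ∞ X] [CompactSpace X] [T2Space X]

/-- the abstract system of a space of tangent vectors -/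
def sysOf {J : End d X} (hJ : IsAlmostComplex J)
    {K : Type} [TopologicalSpace K] (p : K → X) (v : (z : K) → TangentSpace (𝓡 d) (p z))
    (hp : Continuous p) (hv : ∀ z, v z ≠ 0)
    (hc : ∀ f : X → ℝ, SmoothFun (d := d) f → Continuous (fun z => dd f (p z) (v z)) ∧
      Continuous (fun z => dd f (p z) (J (p z) (v z)))) : Sys X K where
  p := p
  S := {f | SmoothFun (d := d) f}
  D f z := dd f (p z) (v z)
  D' f z := dd f (p z) (J (p z) (v z))
  p_cont := hp
  S_cont f hf := ContMDiff.continuous hf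
  D_cont f hf := (hc f hf).1
  D'_cont f hf := (hc f hf).2
  const c := contMDiff_const
  comp F hF f hf g hg := (Pool.Agent.Y232.NT.Chain.t_CHAIN d X F f g hF hf hg).1
  D_comp F hF f hf g hg z :=
    (Pool.Agent.Y232.NT.Chain.t_CHAIN d X F f g hF hf hg).2 (p z) (v z)
  D'_comp F hF f hf g hg z :=
    (Pool.Agent.Y232.NT.Chain.t_CHAIN d X F f g hF hf hg).2 (p z) (J (p z) (v z))
  sep x y hxy := (Pool.Agent.Y655.NT.t_SPAN d X).2 x y hxy
  rot g hg := by
    obtain ⟨n, b, h, hb, hh, hg'⟩ := Pool.Agent.Y161.NT.t_ROT d X J hJ g hg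
    refine ⟨n, b, h, hb, hh, fun z => ⟨hg' (p z) (v z), ?_⟩⟩
    have h1 := hg' (p z) (J (p z) (v z))
    rw [hJ.sq, map_neg] at h1
    rw [← h1, neg_neg]
  span := by
    obtain ⟨n, h, hh, hsp⟩ := (Pool.Agent.Y655.NT.t_SPAN d X).1
    exact ⟨n, h, hh, fun z => (hsp (p z) (v z) (hv z)).imp fun k hk => Or.inl hk⟩

theorem neg_of_removable {J : End d X}
    (hJ : IsAlmostComplex J) {K : Type} [TopologicalSpace K] [CompactSpace K] (p : K → X)
    (v : (z : K) → TangentSpace (𝓡 d) (p z)) (hp : Continuous p) (hv : ∀ z, v z ≠ 0)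
    (hc : ∀ f : X → ℝ, SmoothFun (d := d) f → Continuous (fun z => dd f (p z) (v z)) ∧
      Continuous (fun z => dd f (p z) (J (p z) (v z))))
    {T : (x : X) → TangentSpace (𝓡 d) x → Prop} (hT : ∀ z, T (p z) (v z))
    {W : (x : X) → TangentSpace (𝓡 d) x → Prop} (hW : Removable J T W) :
    (sysOf hJ p v hp hv hc).Neg {z | W (p z) (v z)} := by
  have _ : SecondCountableTopology X := ChartedSpace.secondCountable_of_sigmaCompact (E d) X
  set s := sysOf hJ p v hp hv hc with hs
  induction hW with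
  | thin C m c a b hcc ha hb hab =>
    have hth : ∀ z, s.th c a b z = Th (d := d) c a b (p z) ![v z, J (p z) (v z)] := by
      intro z
      rw [Th_apply]
      rfl
    refine Neg.mono (thin_any NT.R.thin s C m c a b hcc ha hb hab) ?_
    rintro z ⟨h1, h2, h3⟩
    refine ⟨h1, fun z' hz' => ?_, ?_⟩
    · rw [hth]
      have h4 : ∀ y : X, y = p z → ∀ u : TangentSpace (𝓡 d) y, T y u →
          0 ≤ Th (d := d) c a b y ![u, J y u] := by
        rintro y rfl
        exact h2
      exact h4 (p z') hz' (v z') (hT z')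
    · rw [hth]
      exact h3
  | slice A g hA hg => exact slice_any zone s A hA g hg
  | union W _ ih =>
    refine Neg.mono (Neg.iUnion ih) ?_
    rintro z ⟨n, hn⟩
    exact mem_iUnion.2 ⟨n, hn⟩
  | mono W W' _ hsub ih =>
    exact Neg.mono ih fun z hz => hsub (p z) (v z) (hT z) hz

/-- the form `∑ c_j dg ∧ dh_j` with value `dg(v)² + dg(Jv)²` -/
theorem rot_form {J : End d X} (hJ : IsAlmostComplex J) {g : X → ℝ}
    (hg : SmoothFun (d := d) g) : ∃ (n : ℕ) (c h : Fin n → X → ℝ), (∀ k, Continuous (c k)) ∧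
      (∀ k, SmoothFun (d := d) (h k)) ∧ ∀ (x : X) (v : TangentSpace (𝓡 d) x),
        Th (d := d) c (fun _ => g) h x ![v, J x v] = (dd g x v) ^ 2 + (dd g x (J x v)) ^ 2 := by
  obtain ⟨n, b, h, hb, hh, hr⟩ := Pool.Agent.Y161.NT.t_ROT d X J hJ g hg
  refine ⟨n, fun k x => -b k x, h, fun k => (hb k).neg, hh, fun x v => ?_⟩
  rw [Th_apply]
  have h1 := hr x v
  have h2 := hr x (J x v)
  rw [hJ.sq, map_neg] at h2
  have h3 : ∑ i, -b i x * (dd g x v * dd (h i) x (J x v) - dd g x (J x v) * dd (h i) x v) =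
      -(dd g x v) * (∑ k, b k x * dd (h k) x (J x v)) +
        dd g x (J x v) * ∑ k, b k x * dd (h k) x v := by
    rw [Finset.mul_sum, Finset.mul_sum, ← Finset.sum_add_distrib]
    exact Finset.sum_congr rfl fun k _ => by ring
  rw [h3, ← h1, ← h2]
  ring

/-- planar null sets are removable -/
theorem removable_planar {J : End d X} (hJ : IsAlmostComplex J)
    (T : (x : X) → TangentSpace (𝓡 d) x → Prop) {C : Set X}
    (hC : PlanarNull d C) : Removable J T fun x v => x ∈ C ∧ v ≠ 0 := by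
  obtain ⟨N, g, hg, hsp⟩ := (Pool.Agent.Y655.NT.t_SPAN d X).1
  choose n c h hc hh hr using fun k => rot_form hJ (hg k)
  refine Removable.mono _ _ (Removable.countable fun k =>
    Removable.thin (J := J) (T := T) C (n k) (c k) (fun _ => g k) (h k) (hc k)
      (fun _ => hg k) (hh k) fun i => hC _ _ (hg k) (hh k i)) ?_
  rintro x v _ ⟨hx, hv⟩
  obtain ⟨k, hk⟩ := hsp x v hv
  refine ⟨k, hx, fun u _ => ?_, ?_⟩
  · rw [hr]
    positivity
  · rw [hr]
    have := sq_nonneg (dd (g k) x (J x v))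
    have h2 : 0 < (dd (g k) x v) ^ 2 := by positivity
    linarith

/-- lines which are not tangent to a set are removable over this set -/
theorem removable_transverse {J : End d X} (hJ : IsAlmostComplex J)
    (T₀ : (x : X) → TangentSpace (𝓡 d) x → Prop) (C : Set X) :
    Removable J T₀
      fun x v => x ∈ C ∧ ¬ (v ∈ ZT (d := d) C x ∧ J x v ∈ ZT (d := d) C x) := by
  obtain ⟨K, mK, cK, p, v, hp, hv, hnull, hc, hη, hsurj⟩ :=
    Pool.Agent.Y815.NT.t_KSP d X J hJ 0 IsSmooth.zero
  have _ : SecondCountableTopology K := EMetric.secondCountable_of_sigmaCompact K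
  set G := {g : X → ℝ // SmoothFun (d := d) g ∧ ∀ x ∈ C, g x = 0} with hG
  let U : G → Set K := fun g => {z | dd g.1 (p z) (v z) ≠ 0 ∨ dd g.1 (p z) (J (p z) (v z)) ≠ 0}
  have hU : ∀ g, IsOpen (U g) := by
    intro g
    exact (isOpen_ne_fun (hc g.1 g.2.1).1 continuous_const).union
      (isOpen_ne_fun (hc g.1 g.2.1).2 continuous_const)
  obtain ⟨T, hT, hTU⟩ := TopologicalSpace.isOpen_iUnion_countable U hU
  have _ : Countable ↥T := hT.to_subtype
  refine Removable.mono _ _ (Removable.countable fun g : ↥T =>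
    Removable.slice (J := J) (T := T₀) {0} g.1.1 (by simp) g.1.2.1) ?_
  rintro x w _ ⟨hx, hnt⟩
  have hw : w ≠ 0 := by
    rintro rfl
    refine hnt ⟨fun g _ _ => map_zero _, fun g _ _ => ?_⟩
    rw [map_zero]
    exact map_zero _
  have h1 : ∃ g : G, dd g.1 x w ≠ 0 ∨ dd g.1 x (J x w) ≠ 0 := by
    by_contra hno
    push Not at hno
    exact hnt ⟨fun g hg hgC => (hno ⟨g, hg, hgC⟩).1, fun g hg hgC => (hno ⟨g, hg, hgC⟩).2⟩
  obtain ⟨z, t, ht, rfl, hform⟩ := hsurj x w hw rfl
  have h2 : ∀ g : G, (dd g.1 (p z) w ≠ 0 ∨ dd g.1 (p z) (J (p z) w) ≠ 0) ↔ z ∈ U g := by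
    intro g
    obtain ⟨n, c, h, _, _, hr⟩ := rot_form hJ g.2.1
    have h3 := hform (Th (d := d) c (fun _ => g.1) h)
    rw [hr, hr] at h3
    have h4 : ∀ a b : ℝ, (a ≠ 0 ∨ b ≠ 0) ↔ a ^ 2 + b ^ 2 ≠ 0 := by
      intro a b
      constructor
      · rintro (h | h) h0
        · exact h (by nlinarith [sq_nonneg a, sq_nonneg b])
        · exact h (by nlinarith [sq_nonneg a, sq_nonneg b])
      · intro h
        by_contra hno
        push Not at hno
        rw [hno.1, hno.2] at h
        exact h (by norm_num)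
    change _ ↔ (dd g.1 (p z) (v z) ≠ 0 ∨ dd g.1 (p z) (J (p z) (v z)) ≠ 0)
    rw [h4, h4, h3]
    simp [ht.ne']
  obtain ⟨g, hg⟩ := h1
  have h3 : z ∈ ⋃ i ∈ T, U i := by
    rw [hTU]
    exact mem_iUnion.2 ⟨g, (h2 g).1 hg⟩
  obtain ⟨g', hg', hz⟩ := mem_iUnion₂.1 h3
  exact ⟨⟨g', hg'⟩, g'.2.2 _ hx, (h2 g').2 hz⟩

/-- thin sets are removable -/
theorem removable_thin {J : End d X} (hJ : IsAlmostComplex J)
    {T₀ : (x : X) → TangentSpace (𝓡 d) x → Prop} {κ : Type} {ζ : κ → Form d X 2}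
    (hζ : ∀ k, IsSmooth (ζ k)) (hT₀ : ∀ x v, T₀ x v → ∀ k, ζ k x ![v, J x v] = 0) {C : Set X}
    (hC : ∀ z ∈ C, ∃ (n : ℕ) (a b : Fin n → X → ℝ) (N : Set X), N ∈ 𝓝 z ∧
      (∀ i, SmoothFun (d := d) (a i)) ∧ (∀ i, SmoothFun (d := d) (b i)) ∧
      (∀ i, volume ((fun x => (a i x, b i x)) '' (C ∩ N)) = 0) ∧
      ∀ v : TangentSpace (𝓡 d) z, v ≠ 0 → (∀ k, ζ k z ![v, J z v] = 0) →
        0 < (∑ i, dfdg (a i) (b i)) z ![v, J z v]) :
    Removable J T₀ fun x v => x ∈ C ∧ v ≠ 0 := by
  have _ : SecondCountableTopology X := ChartedSpace.secondCountable_of_sigmaCompact (E d) X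
  obtain ⟨K, mK, cK, p, v, hp, hv, hnull, hc, hη, hsurj⟩ :=
    Pool.Agent.Y815.NT.t_KSP d X J hJ 0 IsSmooth.zero
  have key : ∀ z : ↥C, ∃ (O : Set X), IsOpen O ∧ z.1 ∈ O ∧
      Removable J T₀ fun x v => x ∈ C ∩ O ∧ v ≠ 0 := by
    rintro ⟨z, hz⟩
    obtain ⟨n, a, b, N, hN, ha, hb, hab, hzpos⟩ := hC z hz
    have hsm : IsSmooth (∑ i, dfdg (d := d) (a i) (b i)) :=
      ((Pair.sum Finset.univ (fun i _ => Pair.gen _ _ (ha i) (hb i))).props
        Pool.Agent.Y484.SY.t_GEN).2.1
    set Θ : Form d X 2 := ∑ i, dfdg (d := d) (a i) (b i) with hΘ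
    set B : Set K := {w | (∀ k, ζ k (p w) ![v w, J (p w) (v w)] = 0) ∧
      Θ (p w) ![v w, J (p w) (v w)] ≤ 0} with hB
    have hBc : IsClosed B := by
      refine IsClosed.inter ?_ (isClosed_le (hη Θ hsm) continuous_const)
      change IsClosed {w | ∀ k, ζ k (p w) ![v w, J (p w) (v w)] = 0}
      rw [setOf_forall]
      exact isClosed_iInter fun k => isClosed_eq (hη _ (hζ k)) continuous_const
    have hpB : IsClosed (p '' B) := (hBc.isCompact.image hp).isClosed
    have hzB : z ∉ p '' B := by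
      rintro ⟨w, hw, rfl⟩
      exact absurd (hzpos (v w) (hv w) hw.1) (not_lt.2 hw.2)
    obtain ⟨O, hO, hOo, hzO⟩ := mem_nhds_iff.1
      (inter_mem hN (hpB.isOpen_compl.mem_nhds hzB))
    have hOpos : ∀ x ∈ O, ∀ u : TangentSpace (𝓡 d) x, u ≠ 0 →
        (∀ k, ζ k x ![u, J x u] = 0) → 0 < Θ x ![u, J x u] := by
      intro x hx u hu hu0
      obtain ⟨w, t, ht, rfl, hform⟩ := hsurj x u hu rfl
      rw [hform]
      refine mul_pos ht ?_
      by_contra hneg
      refine (hO hx).2 ⟨w, ⟨fun k => ?_, not_lt.1 hneg⟩, rfl⟩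
      have h1 := hu0 k
      rw [hform] at h1
      exact (mul_eq_zero.1 h1).resolve_left ht.ne'
    have hTh : ∀ (x : X) (u : TangentSpace (𝓡 d) x),
        Th (d := d) (fun _ _ => (1 : ℝ)) a b x ![u, J x u] = Θ x ![u, J x u] := by
      intro x u
      rw [Th_apply, hΘ, sum_apply2]
      refine Finset.sum_congr rfl fun i _ => ?_
      rw [dfdg_apply, one_mul]
    refine ⟨O, hOo, hzO, Removable.mono _ _ (Removable.thin (J := J) (T := T₀) (C ∩ N) n
      (fun _ _ => 1) a b (fun _ => continuous_const) ha hb hab) ?_⟩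
    rintro x v hTv ⟨⟨hxC, hxO⟩, hv⟩
    refine ⟨⟨hxC, (hO hxO).1⟩, fun u hu0 => ?_, ?_⟩
    · by_cases hu : u = 0
      · subst hu
        rw [Th_apply]
        simp
      · rw [hTh]
        exact (hOpos x hxO u hu (hT₀ x u hu0)).le
    · rw [hTh]
      exact hOpos x hxO v hv (hT₀ x v hTv)
  choose O hO hzO hrem using key
  obtain ⟨T, hT, hTU⟩ := TopologicalSpace.isOpen_iUnion_countable O hO
  have _ : Countable ↥T := hT.to_subtype
  refine Removable.mono _ _ (Removable.countable fun z : ↥T => hrem z.1) ?_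
  rintro x v _ ⟨hx, hv⟩
  have h3 : x ∈ ⋃ i ∈ T, O i := by
    rw [hTU]
    exact mem_iUnion.2 ⟨⟨x, hx⟩, hzO ⟨x, hx⟩⟩
  obtain ⟨z, hz, hxz⟩ := mem_iUnion₂.1 h3
  exact ⟨⟨z, hz⟩, ⟨hx, hxz⟩, hv⟩

end

end Pool.Agent.Y517.NT.R
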