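import Pool.Agent.Y517.NT.Sys

/-!
# Project NT: negligible sets of complex lines
-/

set_option autoImplicit false

open Set Filter Topology MeasureTheory
open scoped ContDiff

noncomputable section

namespace Pool.Agent.Y517.NT

variable {X K : Type} [TopologicalSpace X] [TopologicalSpace K]

/-- Every closed finite measure gives the set `N` the measure zero. -/
def Sys.Neg (s : Sys X K) (N : Set K) : Prop :=
  ∀ (m : MeasurableSpace K) [BorelSpace K] (μ : Measure K) [IsFiniteMeasure μ], s.Cl μ → μ N = 0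

/-- `∑ c_i da_i ∧ db_i` on `K` -/
def Sys.th (s : Sys X K) {m : ℕ} (c a b : Fin m → X → ℝ) (z : K) : ℝ :=
  ∑ i, c i (s.p z) * s.br (a i) (b i) z

/-- THIN. -/
def S_THIN : Prop := ∀ (X K : Type) [TopologicalSpace X] [TopologicalSpace K] [CompactSpace X]
  [T2Space X] [SecondCountableTopology X] [CompactSpace K]
  (s : Sys X K) (C : Set X), IsClosed C → ∀ (m : ℕ) (c a b : Fin m → X → ℝ),
  (∀ i, Continuous (c i)) → (∀ i, a i ∈ s.S) → (∀ i, b i ∈ s.S) →
  (∀ i, volume ((fun x => (a i x, b i x)) '' C) = 0) →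
  (∀ z, s.p z ∈ C → 0 ≤ s.th c a b z) → s.Neg {z | s.p z ∈ C ∧ 0 < s.th c a b z}

/-- ABS: the abstract main theorem. -/
def S_ABS2 : Prop := ∀ (X K : Type) [TopologicalSpace X] [TopologicalSpace K] [CompactSpace X]
  [T2Space X] [SecondCountableTopology X] [CompactSpace K] [T2Space K]
  [SecondCountableTopology K] (s : Sys X K) (τ : C(K, ℝ)),
  (∀ z₀ : K, ∃ (η : K → ℝ) (N : Set K), s.Ex η ∧ s.Neg N ∧
    ∀ z : K, (∀ F, s.NC F → F (s.p z) = F (s.p z₀)) → z ∈ N ∨ 0 < τ z + η z) →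
  ∃ η : K → ℝ, s.Ex η ∧ ∀ z, 0 < τ z + η z

end Pool.Agent.Y517.NT
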