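import Pool.Agent.Y517.NT.Sys2

/-!
# Project NT: THIN
-/

set_option autoImplicit false

open Set Filter Topology MeasureTheory
open scoped ContDiff

noncomputable section

namespace Pool.Agent.Y517.NT

section

variable {X K : Type} [TopologicalSpace X] [TopologicalSpace K]

theorem Sys.br_cont (s : Sys X K) {f g : X → ℝ} (hf : f ∈ s.S) (hg : g ∈ s.S) :
    Continuous (s.br f g) :=
  ((s.D_cont f hf).mul (s.D'_cont g hg)).sub ((s.D'_cont f hf).mul (s.D_cont g hg))

theorem Sys.th_cont (s : Sys X K) {m : ℕ} {c a b : Fin m → X → ℝ} (hc : ∀ i, Continuous (c i))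
    (ha : ∀ i, a i ∈ s.S) (hb : ∀ i, b i ∈ s.S) : Continuous (s.th c a b) := by
  unfold Sys.th
  exact continuous_finsetSum _ fun i _ => ((hc i).comp s.p_cont).mul (s.br_cont (ha i) (hb i))

theorem integrable_of_cont [CompactSpace K] [MeasurableSpace K] [BorelSpace K] (μ : Measure K)
    [IsFiniteMeasure μ] {f : K → ℝ} (hf : Continuous f) : Integrable f μ := by
  obtain ⟨C, hC⟩ := isCompact_univ.exists_bound_of_continuousOn (hf.continuousOn (s := univ))
  exact Integrable.of_bound (hf.measurable.aestronglyMeasurable) C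
    (Eventually.of_forall fun z => hC z (mem_univ z))

end

theorem t_THIN (hT : S_TWO) (hE : S_EXT) : S_THIN := by
  intro X K _ _ _ _ _ _ s C hC m c a b hc ha hb hnull hpos mK _ μ _ hμ
  have hpC : MeasurableSet (s.p ⁻¹' C) := (hC.preimage s.p_cont).measurableSet
  have key : ∀ i, ∫ z in s.p ⁻¹' C, c i (s.p z) * s.br (a i) (b i) z ∂μ = 0 := by
    intro i
    set P : Set (ℝ × ℝ) := (fun x => (a i x, b i x)) '' C with hP
    have hab : Continuous (fun x => (a i x, b i x)) :=
      (s.S_cont _ (ha i)).prodMk (s.S_cont _ (hb i))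
    have hPc : IsCompact P := hC.isCompact.image hab
    have hBm : MeasurableSet {z : K | (a i (s.p z), b i (s.p z)) ∈ P} :=
      (hPc.isClosed.preimage (hab.comp s.p_cont)).measurableSet
    set θ : K → ℝ := ({z : K | (a i (s.p z), b i (s.p z)) ∈ P}).indicator (s.br (a i) (b i))
      with hθ
    have hθi : Integrable θ μ :=
      (integrable_of_cont μ (s.br_cont (ha i) (hb i))).indicator hBm
    have h1 : ∀ χ ∈ s.S, ∫ z, χ (s.p z) * θ z ∂μ = 0 := by
      intro χ hχ
      have h2 := hT X K s μ hμ P hPc (hnull i) χ hχ (a i) (ha i) (b i) (hb i)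
      rw [← integral_indicator hBm] at h2
      rw [← h2]
      refine integral_congr_ae (Eventually.of_forall fun z => ?_)
      simp only [hθ, Set.indicator]
      split_ifs
      · rfl
      · rw [mul_zero]
    have h3 := (hE X K s μ θ hθi h1 (c i) (hc i)).2 C hC
    rw [← h3]
    refine setIntegral_congr_fun hpC fun z hz => ?_
    have hz' : z ∈ {z : K | (a i (s.p z), b i (s.p z)) ∈ P} := ⟨s.p z, hz, rfl⟩
    simp only [hθ]
    rw [Set.indicator_of_mem hz']
  have hint : ∫ z in s.p ⁻¹' C, s.th c a b z ∂μ = 0 := by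
    unfold Sys.th
    rw [integral_finsetSum]
    · exact Finset.sum_eq_zero fun i _ => key i
    · intro i _
      exact (integrable_of_cont μ
        (((hc i).comp s.p_cont).mul (s.br_cont (ha i) (hb i)))).integrableOn
  have hth : Continuous (s.th c a b) := s.th_cont hc ha hb
  have h0 : 0 ≤ᵐ[μ.restrict (s.p ⁻¹' C)] s.th c a b := by
    rw [Filter.EventuallyLE, ae_restrict_iff' hpC]
    exact Eventually.of_forall fun z hz => hpos z hz
  have h4 := (setIntegral_eq_zero_iff_of_nonneg_ae h0
    (integrable_of_cont μ hth).integrableOn).1 hint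
  rw [Filter.EventuallyEq, ae_restrict_iff' hpC] at h4
  have h5 : {z | s.p z ∈ C ∧ 0 < s.th c a b z} ⊆ {z | ¬ (z ∈ s.p ⁻¹' C → s.th c a b z = (0 : K → ℝ) z)} := by
    rintro z ⟨hz, hz'⟩ h
    have := h hz
    simp only [Pi.zero_apply] at this
    rw [this] at hz'
    exact lt_irrefl _ hz'
  exact measure_mono_null h5 (ae_iff.1 h4)

end Pool.Agent.Y517.NT
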